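import Pool.Agent.H15_OneLoop.TorsionSq

/-!
# The square of the torsion of a based complex, in terms of matrices
-/

set_option autoImplicit false

namespace Run7.h360

open Matrix Pool.Agent.H15_OneLoop

/-! ### Matrices with `sqdet ≠ 0` -/

section Sq

variable {m n : Type} [Fintype m] [DecidableEq m] [Fintype n] [DecidableEq n]

theorem sqdet_one : sqdet (1 : Matrix n n ℂ) = 1 := by
  rw [sqdet_square, Matrix.det_one, one_pow]

theorem exists_inv (M : Matrix m n ℂ) (hc : Fintype.card m = Fintype.card n)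
    (h : sqdet M ≠ 0) : ∃ H : Matrix n m ℂ, H * M = 1 ∧ M * H = 1 := by
  obtain ⟨e⟩ := Fintype.card_eq.1 hc
  have hdet : (M.submatrix id e).det ≠ 0 := by
    intro h0
    apply h
    rw [sqdet_eq' M e, h0]
    ring
  set K := M.submatrix id e with hK
  have h1 : K⁻¹ * K = 1 := Matrix.nonsing_inv_mul _ hdet.isUnit
  have h2 : K * K⁻¹ = 1 := Matrix.mul_nonsing_inv _ hdet.isUnit
  have hM : M = K.submatrix id e.symm := by
    rw [hK]; ext i j; simp
  refine ⟨K⁻¹.submatrix e.symm id, ?_, ?_⟩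
  · have h3 := Matrix.submatrix_mul_equiv K⁻¹ K e.symm (Equiv.refl m) e.symm
    rw [h1] at h3
    rw [hM]
    refine Eq.trans h3 ?_
    exact Matrix.submatrix_one_equiv e.symm
  · have h3 := Matrix.submatrix_mul_equiv K K⁻¹ id e.symm id
    rw [h2] at h3
    rw [hM]
    refine Eq.trans h3 ?_
    exact Matrix.submatrix_one_equiv (Equiv.refl m)

theorem sqdet_ne_of_inv (M : Matrix m n ℂ) (H : Matrix n m ℂ)
    (hc : Fintype.card m = Fintype.card n) (h : H * M = 1) : sqdet H * sqdet M = 1 := by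
  rw [← sqdet_mul H M hc.symm hc, h, sqdet_one]

end Sq

/-! ### The big matrix -/

section Big

variable {ι₂ ι₁ ι₀ : Type} [Fintype ι₂] [DecidableEq ι₂] [Fintype ι₁] [DecidableEq ι₁]
  [Fintype ι₀] [DecidableEq ι₀]

/-- The matrix whose determinant is the torsion: `D₂` is the matrix of the boundary of `2`-chains,
`lam` a form with value `1` on the cycle `η₂`, `η₁` the `1`-cycle and `B` a right inverse of the
matrix of the boundary of `1`-chains. -/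
def bigM (D₂ : Matrix ι₁ ι₂ ℂ) (lam : ι₂ → ℂ) (η₁ : ι₁ → ℂ) (B : Matrix ι₁ ι₀ ℂ) :
    Matrix (Unit ⊕ ι₁) (ι₂ ⊕ (Unit ⊕ ι₀)) ℂ :=
  fromBlocks (replicateRow Unit lam) 0 D₂ (fromCols (replicateCol Unit η₁) B)

/-- `t` is the square of the torsion of the based complex with the matrices `D₂`, `D₁` and the
cycles `η₂`, `η₁`. -/
structure MT (D₂ : Matrix ι₁ ι₂ ℂ) (D₁ : Matrix ι₀ ι₁ ℂ) (η₂ : ι₂ → ℂ) (η₁ : ι₁ → ℂ)
    (t : ℂ) : Prop where
  card : 1 + Fintype.card ι₁ = Fintype.card ι₂ + (1 + Fintype.card ι₀)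
  dd : D₁ * D₂ = 0
  z₂ : D₂ *ᵥ η₂ = 0
  z₁ : D₁ *ᵥ η₁ = 0
  ne : t ≠ 0
  ex : ∃ (lam : ι₂ → ℂ) (B : Matrix ι₁ ι₀ ℂ), lam ⬝ᵥ η₂ = 1 ∧ D₁ * B = 1 ∧
    sqdet (bigM D₂ lam η₁ B) = t

theorem card_big (h : 1 + Fintype.card ι₁ = Fintype.card ι₂ + (1 + Fintype.card ι₀)) :
    Fintype.card (Unit ⊕ ι₁) = Fintype.card (ι₂ ⊕ (Unit ⊕ ι₀)) := by
  simp only [Fintype.card_sum, Fintype.card_unit]
  exact h

/-- Changing the form `lam`. -/
theorem bigM_lam (D₂ : Matrix ι₁ ι₂ ℂ) (η₂ : ι₂ → ℂ) (η₁ : ι₁ → ℂ) (B : Matrix ι₁ ι₀ ℂ)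
    (lam lam' : ι₂ → ℂ) (hz : D₂ *ᵥ η₂ = 0) (h : lam ⬝ᵥ η₂ = 1) (h' : lam' ⬝ᵥ η₂ = 1)
    (hc : 1 + Fintype.card ι₁ = Fintype.card ι₂ + (1 + Fintype.card ι₀)) :
    sqdet (bigM D₂ lam' η₁ B) = sqdet (bigM D₂ lam η₁ B) := by
  set E : Matrix ι₂ ι₂ ℂ := 1 + vecMulVec η₂ (lam - lam') with hE
  have hdet : E.det = 1 := by
    have h1 : E.det = 1 + (lam - lam') ⬝ᵥ η₂ := by
      rw [hE, vecMulVec_eq Unit, Matrix.det_one_add_mul_comm, Matrix.det_unique]
      simp [Matrix.mul_apply, dotProduct]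
    rw [h1, sub_dotProduct, h, h', sub_self, add_zero]
  have hrow : lam' ᵥ* E = lam := by
    rw [hE, Matrix.vecMul_add, Matrix.vecMul_one, Matrix.vecMul_vecMulVec, h']
    ext i
    simp
  have hD : D₂ * E = D₂ := by
    rw [hE, Matrix.mul_add, Matrix.mul_one, Matrix.mul_vecMulVec, hz]
    ext i j
    simp [vecMulVec_apply]
  have key : bigM D₂ lam η₁ B = bigM D₂ lam' η₁ B *
      fromBlocks E 0 0 (1 : Matrix (Unit ⊕ ι₀) (Unit ⊕ ι₀) ℂ) := by
    unfold bigM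
    rw [fromBlocks_multiply, Matrix.mul_zero, Matrix.zero_mul, Matrix.mul_zero, add_zero,
      Matrix.mul_one, hD]
    congr 1
    · ext i j
      have := congrFun hrow j
      simp only [Matrix.vecMul, dotProduct] at this
      simp [Matrix.mul_apply, this]
    · simp
    · simp
    · simp
  rw [key, sqdet_mul _ _ (card_big hc) rfl, sqdet_square (fromBlocks E 0 0 _),
    Matrix.det_fromBlocks_zero₂₁, hdet, Matrix.det_one]
  ring

/-- Adding combinations of the columns of `D₂` and of the cycle to the last columns. -/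
theorem bigM_B (D₂ : Matrix ι₁ ι₂ ℂ) (η₁ : ι₁ → ℂ) (B : Matrix ι₁ ι₀ ℂ)
    (lam : ι₂ → ℂ) (u : Matrix ι₂ ι₀ ℂ) (a : ι₀ → ℂ) (hu : lam ᵥ* u = 0)
    (hc : 1 + Fintype.card ι₁ = Fintype.card ι₂ + (1 + Fintype.card ι₀)) :
    sqdet (bigM D₂ lam η₁ (B + D₂ * u + vecMulVec η₁ a)) = sqdet (bigM D₂ lam η₁ B) := by
  have key : bigM D₂ lam η₁ (B + D₂ * u + vecMulVec η₁ a) = bigM D₂ lam η₁ B *
      (fromBlocks (1 : Matrix ι₂ ι₂ ℂ) (fromCols (0 : Matrix ι₂ Unit ℂ) u) 0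
        (fromBlocks (1 : Matrix Unit Unit ℂ) (replicateRow Unit a) 0
          (1 : Matrix ι₀ ι₀ ℂ)) : Matrix (ι₂ ⊕ (Unit ⊕ ι₀)) (ι₂ ⊕ (Unit ⊕ ι₀)) ℂ) := by
    unfold bigM
    rw [fromBlocks_multiply, Matrix.mul_zero, Matrix.mul_one, Matrix.mul_one, Matrix.mul_zero,
      add_zero, add_zero, Matrix.zero_mul, add_zero]
    congr 1
    · ext i j
      rcases j with j | j
      · simp [Matrix.mul_apply]
      · have := congrFun hu j
        simp only [Matrix.vecMul, dotProduct] at this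
        simp [Matrix.mul_apply, this]
    · ext i j
      rcases j with j | j
      · simp [Matrix.mul_apply, Matrix.one_apply]
      · simp only [fromCols_apply_inr, Matrix.add_apply, Matrix.mul_apply,
          Fintype.sum_sum_type, fromCols_apply_inl, replicateCol_apply, fromBlocks_apply₁₂,
          fromBlocks_apply₂₂, replicateRow_apply, vecMulVec_apply, Finset.univ_unique,
          Finset.sum_singleton, Matrix.one_apply, mul_ite, mul_one, mul_zero,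
          Finset.sum_ite_eq', Finset.mem_univ, if_true]
        ring
  rw [key, sqdet_mul _ _ (card_big hc) rfl, sqdet_square (fromBlocks 1 _ 0 _),
    Matrix.det_fromBlocks_zero₂₁, Matrix.det_fromBlocks_zero₂₁, Matrix.det_one, Matrix.det_one,
    Matrix.det_one]
  ring

/-- The value of the square of the torsion does not depend on the choices. -/
theorem MT.all {D₂ : Matrix ι₁ ι₂ ℂ} {D₁ : Matrix ι₀ ι₁ ℂ} {η₂ : ι₂ → ℂ} {η₁ : ι₁ → ℂ}
    {t : ℂ} (h : MT D₂ D₁ η₂ η₁ t) (lam : ι₂ → ℂ) (B : Matrix ι₁ ι₀ ℂ)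
    (hl : lam ⬝ᵥ η₂ = 1) (hB : D₁ * B = 1) : sqdet (bigM D₂ lam η₁ B) = t := by
  obtain ⟨lam', B', hl', hB', ht⟩ := h.ex
  have hc := h.card
  rw [bigM_lam D₂ η₂ η₁ B lam' lam h.z₂ hl' hl hc, ← ht]
  -- the big matrix is invertible
  obtain ⟨H, -, hH⟩ := exists_inv (bigM D₂ lam' η₁ B') (card_big hc) (by rw [ht]; exact h.ne)
  -- each column of `B - B'` is a combination
  have hex : ∀ k : ι₀, ∃ w : ι₂ ⊕ (Unit ⊕ ι₀) → ℂ,
      bigM D₂ lam' η₁ B' *ᵥ w = Sum.elim (fun _ => 0) (fun i => B i k - B' i k) := by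
    intro k
    refine ⟨H *ᵥ (Sum.elim (fun _ => 0) (fun i => B i k - B' i k)), ?_⟩
    rw [Matrix.mulVec_mulVec, hH, Matrix.one_mulVec]
  choose w hw using hex
  have hrow1 : ∀ k, lam' ⬝ᵥ (fun i => w k (Sum.inl i)) = 0 := by
    intro k
    have h1 := congrFun (hw k) (Sum.inl ())
    simpa [bigM, Matrix.mulVec, dotProduct] using h1
  have hrow2 : ∀ k i, (D₂ *ᵥ (fun i => w k (Sum.inl i))) i + (η₁ i * w k (Sum.inr (Sum.inl ())) +
      (B' *ᵥ (fun i => w k (Sum.inr (Sum.inr i)))) i) = B i k - B' i k := by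
    intro k i
    have h1 := congrFun (hw k) (Sum.inr i)
    simpa [bigM, Matrix.mulVec, dotProduct] using h1
  have hlast : ∀ k, (fun i => w k (Sum.inr (Sum.inr i))) = 0 := by
    intro k
    have h1 : D₂ *ᵥ (fun i => w k (Sum.inl i)) + (w k (Sum.inr (Sum.inl ())) • η₁ +
        B' *ᵥ (fun i => w k (Sum.inr (Sum.inr i)))) = fun i => B i k - B' i k := by
      ext i
      have := hrow2 k i
      simp only [Pi.add_apply, Pi.smul_apply, smul_eq_mul]
      rw [← this]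
      ring
    have h2 := congrArg (fun v => D₁ *ᵥ v) h1
    simp only [Matrix.mulVec_add, Matrix.mulVec_mulVec, h.dd, Matrix.zero_mulVec, zero_add,
      Matrix.mulVec_smul, h.z₁, smul_zero, hB', Matrix.one_mulVec] at h2
    rw [h2]
    have h3 : D₁ * B - D₁ * B' = 0 := by rw [hB, hB', sub_self]
    ext i
    have h4 := congrFun (congrFun h3 i) k
    simp only [Matrix.sub_apply, Matrix.mul_apply, Matrix.zero_apply] at h4
    simp only [Matrix.mulVec, dotProduct, mul_sub, Finset.sum_sub_distrib, Pi.zero_apply]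
    exact h4
  have hBB : B = B' + D₂ * (Matrix.of fun i k => w k (Sum.inl i)) +
      vecMulVec η₁ (fun k => w k (Sum.inr (Sum.inl ()))) := by
    ext i k
    have h1 := hrow2 k i
    rw [hlast k, Matrix.mulVec_zero] at h1
    simp only [Pi.zero_apply, add_zero] at h1
    simp only [Matrix.add_apply, Matrix.mul_apply, vecMulVec_apply, Matrix.of_apply]
    simp only [Matrix.mulVec, dotProduct] at h1
    linear_combination -h1
  rw [hBB]
  refine bigM_B D₂ η₁ B' lam' _ _ ?_ hc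
  ext k
  have := hrow1 k
  simp only [dotProduct] at this
  simpa [Matrix.vecMul, dotProduct] using this

theorem MT.unique {D₂ : Matrix ι₁ ι₂ ℂ} {D₁ : Matrix ι₀ ι₁ ℂ} {η₂ : ι₂ → ℂ} {η₁ : ι₁ → ℂ}
    {t t' : ℂ} (h : MT D₂ D₁ η₂ η₁ t) (h' : MT D₂ D₁ η₂ η₁ t') : t = t' := by
  obtain ⟨lam, B, hl, hB, ht⟩ := h'.ex
  rw [← ht]
  exact (h.all lam B hl hB).symm

/-- Adding a boundary to the `1`-cycle. -/
theorem MT.add_boundary {D₂ : Matrix ι₁ ι₂ ℂ} {D₁ : Matrix ι₀ ι₁ ℂ} {η₂ : ι₂ → ℂ}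
    {η₁ : ι₁ → ℂ} {t : ℂ} (h : MT D₂ D₁ η₂ η₁ t) (ξ : ι₂ → ℂ) :
    MT D₂ D₁ η₂ (η₁ + D₂ *ᵥ ξ) t := by
  obtain ⟨lam, B, hl, hB, ht⟩ := h.ex
  refine ⟨h.card, h.dd, h.z₂, ?_, h.ne, lam, B, hl, hB, ?_⟩
  · rw [Matrix.mulVec_add, h.z₁, Matrix.mulVec_mulVec, h.dd, Matrix.zero_mulVec, add_zero]
  · rw [← ht]
    set ξ' : ι₂ → ℂ := ξ - (lam ⬝ᵥ ξ) • η₂ with hξ'
    have h1 : D₂ *ᵥ ξ = D₂ *ᵥ ξ' := by
      rw [hξ', Matrix.mulVec_sub, Matrix.mulVec_smul, h.z₂, smul_zero, sub_zero]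
    have h2 : lam ⬝ᵥ ξ' = 0 := by
      rw [hξ', dotProduct_sub, dotProduct_smul, hl, smul_eq_mul, mul_one, sub_self]
    rw [h1]
    have key : bigM D₂ lam (η₁ + D₂ *ᵥ ξ') B = bigM D₂ lam η₁ B *
        fromBlocks (1 : Matrix ι₂ ι₂ ℂ) (fromCols (replicateCol Unit ξ') 0) 0
          (1 : Matrix (Unit ⊕ ι₀) (Unit ⊕ ι₀) ℂ) := by
      unfold bigM
      rw [fromBlocks_multiply, Matrix.mul_one, Matrix.mul_one, Matrix.mul_one, Matrix.mul_zero,
        Matrix.mul_zero, add_zero, add_zero, add_zero]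
      congr 1
      · ext i j
        rcases j with j | j
        · simp only [dotProduct] at h2
          simp [Matrix.mul_apply, h2]
        · simp [Matrix.mul_apply]
      · ext i j
        rcases j with j | j
        · simp [Matrix.mul_apply, Matrix.mulVec, dotProduct, add_comm]
        · simp [Matrix.mul_apply]
    rw [key, sqdet_mul _ _ (card_big h.card) rfl, sqdet_square (fromBlocks 1 _ 0 _),
      Matrix.det_fromBlocks_zero₂₁, Matrix.det_one, Matrix.det_one]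
    ring

end Big

/-- Change of coordinates. -/
theorem MT.base {ι₂ ι₁ ι₀ ι₂' ι₁' ι₀' : Type} [Fintype ι₂] [DecidableEq ι₂] [Fintype ι₁]
    [DecidableEq ι₁] [Fintype ι₀] [DecidableEq ι₀] [Fintype ι₂'] [DecidableEq ι₂'] [Fintype ι₁']
    [DecidableEq ι₁'] [Fintype ι₀'] [DecidableEq ι₀']
    {D₂ : Matrix ι₁ ι₂ ℂ} {D₁ : Matrix ι₀ ι₁ ℂ} {η₂ : ι₂ → ℂ}
    {η₁ : ι₁ → ℂ} {t : ℂ} (h : MT D₂ D₁ η₂ η₁ t)
    (D₂' : Matrix ι₁' ι₂' ℂ) (D₁' : Matrix ι₀' ι₁' ℂ)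
    (G₂ : Matrix ι₂' ι₂ ℂ) (G₁ : Matrix ι₁' ι₁ ℂ) (G₀ : Matrix ι₀' ι₀ ℂ)
    (c₂ : Fintype.card ι₂' = Fintype.card ι₂) (c₁ : Fintype.card ι₁' = Fintype.card ι₁)
    (c₀ : Fintype.card ι₀' = Fintype.card ι₀)
    (g₂ : sqdet G₂ = 1) (g₁ : sqdet G₁ = 1) (g₀ : sqdet G₀ = 1)
    (h₂ : D₂' * G₂ = G₁ * D₂) (h₁ : D₁' * G₁ = G₀ * D₁) :
    MT D₂' D₁' (G₂ *ᵥ η₂) (G₁ *ᵥ η₁) t := by
  obtain ⟨H₂, hH₂, hH₂'⟩ := exists_inv G₂ c₂ (by rw [g₂]; exact one_ne_zero)
  obtain ⟨H₁, hH₁, hH₁'⟩ := exists_inv G₁ c₁ (by rw [g₁]; exact one_ne_zero)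
  obtain ⟨H₀, hH₀, hH₀'⟩ := exists_inv G₀ c₀ (by rw [g₀]; exact one_ne_zero)
  obtain ⟨lam, B, hl, hB, ht⟩ := h.ex
  have hc : 1 + Fintype.card ι₁' = Fintype.card ι₂' + (1 + Fintype.card ι₀') := by
    rw [c₂, c₁, c₀]; exact h.card
  have e₂ : D₂' = G₁ * D₂ * H₂ := by
    rw [← h₂, Matrix.mul_assoc, hH₂', Matrix.mul_one]
  have e₁ : D₁' = G₀ * D₁ * H₁ := by
    rw [← h₁, Matrix.mul_assoc, hH₁', Matrix.mul_one]
  refine ⟨hc, ?_, ?_, ?_, h.ne, lam ᵥ* H₂, G₁ * B * H₀, ?_, ?_, ?_⟩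
  · rw [e₁, e₂]
    have : G₀ * D₁ * H₁ * (G₁ * D₂ * H₂) = G₀ * (D₁ * ((H₁ * G₁) * D₂)) * H₂ := by
      simp only [Matrix.mul_assoc]
    rw [this, hH₁, Matrix.one_mul, h.dd, Matrix.mul_zero, Matrix.zero_mul]
  · rw [Matrix.mulVec_mulVec, h₂, ← Matrix.mulVec_mulVec, h.z₂, Matrix.mulVec_zero]
  · rw [Matrix.mulVec_mulVec, h₁, ← Matrix.mulVec_mulVec, h.z₁, Matrix.mulVec_zero]
  · rw [← Matrix.dotProduct_mulVec, Matrix.mulVec_mulVec, hH₂, Matrix.one_mulVec, hl]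
  · rw [← Matrix.mul_assoc, ← Matrix.mul_assoc, h₁, Matrix.mul_assoc G₀, hB, Matrix.mul_one, hH₀']
  · rw [← ht]
    have key : bigM D₂' (lam ᵥ* H₂) (G₁ *ᵥ η₁) (G₁ * B * H₀) *
        fromBlocks G₂ 0 0 (fromBlocks (1 : Matrix Unit Unit ℂ) 0 0 G₀) =
        fromBlocks (1 : Matrix Unit Unit ℂ) 0 0 G₁ * bigM D₂ lam η₁ B := by
      unfold bigM
      rw [fromBlocks_multiply, fromBlocks_multiply, Matrix.mul_zero, Matrix.zero_mul,
        Matrix.mul_zero, add_zero, Matrix.one_mul, Matrix.one_mul, Matrix.zero_mul, add_zero,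
        Matrix.zero_mul, zero_add, Matrix.zero_mul, add_zero, Matrix.mul_zero, add_zero, h₂,
        Matrix.zero_mul, zero_add]
      congr 1
      · ext i j
        have : (lam ᵥ* H₂) ᵥ* G₂ = lam := by
          rw [Matrix.vecMul_vecMul, hH₂, Matrix.vecMul_one]
        have := congrFun this j
        simp only [Matrix.vecMul, dotProduct] at this
        simpa [Matrix.mul_apply, Matrix.vecMul, dotProduct] using this
      · ext i j
        rcases j with j | j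
        · simp [Matrix.mul_apply, Matrix.mulVec, dotProduct]
        · have h5 : G₁ * B * H₀ * G₀ = G₁ * B := by
            rw [Matrix.mul_assoc, hH₀, Matrix.mul_one]
          have := congrFun (congrFun h5 i) j
          simp only [Matrix.mul_apply] at this
          simp [Matrix.mul_apply, this]
    have hs := congrArg sqdet key
    rw [sqdet_mul _ _ (card_big hc) (by
      simp only [Fintype.card_sum, Fintype.card_unit, c₂, c₀]), sqdet_mul _ _ (by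
      simp only [Fintype.card_sum, Fintype.card_unit, c₁]) (card_big h.card),
      sqdet_fromBlocks_zero₂₁ _ _ _ c₂ (by simp only [Fintype.card_sum, Fintype.card_unit, c₀]),
      sqdet_fromBlocks_zero₂₁ _ _ _ rfl c₀, sqdet_fromBlocks_zero₂₁ _ _ _ rfl c₁, g₂, g₁, g₀,
      sqdet_one] at hs
    simpa using hs

end Run7.h360
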