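import Pool.Agent.Run7.h360.Reduce

/-!
# The torsion of a based complex and the matrices of its differentials
-/

set_option autoImplicit false

namespace Run7.h360

open Matrix Pool.Agent.H15_OneLoop

/-- The matrix of a linear map in given coordinates. -/
theorem exists_matrix {C ι κ : Type} [AddCommGroup C] [Module ℂ C] [Fintype ι] [DecidableEq ι]
    (c : C →ₗ[ℂ] ι → ℂ) (hc : Function.Bijective c) (f : C →ₗ[ℂ] κ → ℂ) :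
    ∃ M : Matrix κ ι ℂ, ∀ x, f x = M *ᵥ c x := by
  set e := LinearEquiv.ofBijective c hc with he
  refine ⟨LinearMap.toMatrix' (f ∘ₗ e.symm.toLinearMap), fun x => ?_⟩
  rw [LinearMap.toMatrix'_mulVec]
  have : c x = e x := rfl
  rw [this]
  simp

section Key

variable {ι₂ ι₁ ι₀ κ₂ κ₁ : Type} [Fintype ι₂] [DecidableEq ι₂] [Fintype ι₁] [DecidableEq ι₁]
  [Fintype ι₀] [DecidableEq ι₀] [Fintype κ₂] [DecidableEq κ₂] [Fintype κ₁] [DecidableEq κ₁]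

theorem bigM_key (D₂ : Matrix ι₁ ι₂ ℂ) (lam η₂ : ι₂ → ℂ) (η₁ : ι₁ → ℂ) (B : Matrix ι₁ ι₀ ℂ)
    (B₂ : Matrix ι₂ κ₂ ℂ) (B₁ : Matrix ι₁ κ₁ ℂ) (N₀ : Matrix ι₀ κ₁ ℂ)
    (hl : lam ⬝ᵥ η₂ = 1) (hz : D₂ *ᵥ η₂ = 0) (hB : B * N₀ = B₁)
    (hc : 1 + Fintype.card ι₁ = Fintype.card ι₂ + (1 + Fintype.card ι₀))
    (h₂ : Fintype.card ι₂ = 1 + Fintype.card κ₂) (h₀ : Fintype.card ι₀ = Fintype.card κ₁) :
    sqdet (bigM D₂ lam η₁ B) * (sqdet (fromCols (replicateCol Unit η₂) B₂) * sqdet N₀) =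
      sqdet (fromCols (D₂ * B₂) (fromCols (replicateCol Unit η₁) B₁)) := by
  have key : (fromBlocks (1 : Matrix Unit Unit ℂ)
      (fromCols (replicateRow Unit (lam ᵥ* B₂)) (0 : Matrix Unit (Unit ⊕ κ₁) ℂ)) 0
      (fromCols (D₂ * B₂) (fromCols (replicateCol Unit η₁) B₁))).submatrix id
        (Equiv.sumAssoc Unit κ₂ (Unit ⊕ κ₁)) = bigM D₂ lam η₁ B *
      fromBlocks (fromCols (replicateCol Unit η₂) B₂) 0 0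
        (fromBlocks (1 : Matrix Unit Unit ℂ) 0 0 N₀) := by
    unfold bigM
    rw [fromBlocks_multiply]
    ext i j
    rcases i with i | i <;> rcases j with (j | j) | j | j
    · simpa [Matrix.mul_apply, dotProduct] using hl.symm
    · simp [Matrix.mul_apply, Matrix.vecMul, dotProduct]
    · simp
    · simp
    · have := congrFun hz i
      simp only [Matrix.mulVec, dotProduct, Pi.zero_apply] at this
      simp [Matrix.mul_apply, this]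
    · simp [Matrix.mul_apply]
    · simp [Matrix.mul_apply]
    · rw [← hB]
      simp [Matrix.mul_apply]
  have hs := congrArg sqdet key
  rw [sqdet_mul _ _ (card_big hc) (by
      simp only [Fintype.card_sum, Fintype.card_unit]; omega),
    sqdet_fromBlocks_zero₂₁ (fromCols (replicateCol Unit η₂) B₂) 0
      (fromBlocks (1 : Matrix Unit Unit ℂ) 0 0 N₀)
      (by simp only [Fintype.card_sum, Fintype.card_unit]; omega)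
      (by simp only [Fintype.card_sum, Fintype.card_unit]; omega),
    sqdet_fromBlocks_zero₂₁ (1 : Matrix Unit Unit ℂ) 0 N₀ rfl h₀, sqdet_one, one_mul] at hs
  rw [← hs]
  refine (sqdet_reindex _ (Equiv.refl _) (Equiv.sumAssoc Unit κ₂ (Unit ⊕ κ₁))).trans ?_
  rw [sqdet_fromBlocks_zero₂₁ _ _ _ rfl (by
      simp only [Fintype.card_sum, Fintype.card_unit]; omega), sqdet_one, one_mul]

end Key

section Main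

variable {C₂ C₁ C₀ ι₂ ι₁ ι₀ : Type} [AddCommGroup C₂] [Module ℂ C₂]
  [AddCommGroup C₁] [Module ℂ C₁] [AddCommGroup C₀] [Module ℂ C₀] [Fintype ι₂]
  [DecidableEq ι₂] [Fintype ι₁] [DecidableEq ι₁] [Fintype ι₀] [DecidableEq ι₀]

/-- `t` is the square of the torsion. -/
structure LT (c₂ : C₂ →ₗ[ℂ] ι₂ → ℂ) (c₁ : C₁ →ₗ[ℂ] ι₁ → ℂ) (c₀ : C₀ →ₗ[ℂ] ι₀ → ℂ)
    (d₂ : C₂ →ₗ[ℂ] C₁) (d₁ : C₁ →ₗ[ℂ] C₀) (h₂ : C₂) (h₁ : C₁) (t : ℂ) : Prop where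
  bij₂ : Function.Bijective c₂
  bij₁ : Function.Bijective c₁
  bij₀ : Function.Bijective c₀
  ex : ∃ (D₂ : Matrix ι₁ ι₂ ℂ) (D₁ : Matrix ι₀ ι₁ ℂ), (∀ x, c₁ (d₂ x) = D₂ *ᵥ c₂ x) ∧
    (∀ y, c₀ (d₁ y) = D₁ *ᵥ c₁ y) ∧ MT D₂ D₁ (c₂ h₂) (c₁ h₁) t

theorem matrix_unique {C ι κ : Type} [AddCommGroup C] [Module ℂ C] [Fintype ι] [DecidableEq ι]
    (c : C →ₗ[ℂ] ι → ℂ) (hc : Function.Bijective c) (M M' : Matrix κ ι ℂ)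
    (h : ∀ x, M *ᵥ c x = M' *ᵥ c x) : M = M' := by
  ext i j
  obtain ⟨x, hx⟩ := hc.2 (Pi.single j 1)
  have h1 := congrFun (h x) i
  rw [hx, Matrix.mulVec_single_one, Matrix.mulVec_single_one] at h1
  exact h1

theorem LT.mt {c₂ : C₂ →ₗ[ℂ] ι₂ → ℂ} {c₁ : C₁ →ₗ[ℂ] ι₁ → ℂ} {c₀ : C₀ →ₗ[ℂ] ι₀ → ℂ}
    {d₂ : C₂ →ₗ[ℂ] C₁} {d₁ : C₁ →ₗ[ℂ] C₀} {h₂ : C₂} {h₁ : C₁} {t : ℂ}
    (h : LT c₂ c₁ c₀ d₂ d₁ h₂ h₁ t) (D₂ : Matrix ι₁ ι₂ ℂ) (D₁ : Matrix ι₀ ι₁ ℂ)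
    (e₂ : ∀ x, c₁ (d₂ x) = D₂ *ᵥ c₂ x) (e₁ : ∀ y, c₀ (d₁ y) = D₁ *ᵥ c₁ y) :
    MT D₂ D₁ (c₂ h₂) (c₁ h₁) t := by
  obtain ⟨D₂', D₁', e₂', e₁', hM⟩ := h.ex
  have h1 : D₂ = D₂' := matrix_unique c₂ h.bij₂ _ _ fun x => by rw [← e₂, ← e₂']
  have h2 : D₁ = D₁' := matrix_unique c₁ h.bij₁ _ _ fun x => by rw [← e₁, ← e₁']
  rw [h1, h2]
  exact hM

theorem LT.unique {c₂ : C₂ →ₗ[ℂ] ι₂ → ℂ} {c₁ : C₁ →ₗ[ℂ] ι₁ → ℂ} {c₀ : C₀ →ₗ[ℂ] ι₀ → ℂ}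
    {d₂ : C₂ →ₗ[ℂ] C₁} {d₁ : C₁ →ₗ[ℂ] C₀} {h₂ : C₂} {h₁ : C₁} {t t' : ℂ}
    (h : LT c₂ c₁ c₀ d₂ d₁ h₂ h₁ t) (h' : LT c₂ c₁ c₀ d₂ d₁ h₂ h₁ t') : t = t' := by
  obtain ⟨D₂, D₁, e₂, e₁, hM⟩ := h'.ex
  exact (h.mt D₂ D₁ e₂ e₁).unique hM

theorem LT.of_torsion (c₂ : C₂ →ₗ[ℂ] ι₂ → ℂ) (c₁ : C₁ →ₗ[ℂ] ι₁ → ℂ) (c₀ : C₀ →ₗ[ℂ] ι₀ → ℂ)
    (d₂ : C₂ →ₗ[ℂ] C₁) (d₁ : C₁ →ₗ[ℂ] C₀) (h₂ : C₂) (h₁ : C₁) (τ : ℂ)
    (hτ : IsTorsion c₂ c₁ c₀ d₂ d₁ h₂ h₁ τ) : LT c₂ c₁ c₀ d₂ d₁ h₂ h₁ (τ ^ 2) := by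
  classical
  obtain ⟨hc₂, hc₁, hc₀, z₂, z₁, hdd, κ₂, κ₁, b₂, b₁, e₂, e₁, e₀, hD₂, hD₁, hD₀, hτ⟩ := hτ
  have : Finite (Unit ⊕ κ₂) := Finite.of_equiv ι₂ e₂
  have : Finite κ₂ := Finite.of_injective (Sum.inr : κ₂ → Unit ⊕ κ₂) Sum.inr_injective
  have : Fintype κ₂ := Fintype.ofFinite κ₂
  have : Finite κ₁ := Finite.of_equiv ι₀ e₀
  have : Fintype κ₁ := Fintype.ofFinite κ₁
  have k₂ : Fintype.card ι₂ = 1 + Fintype.card κ₂ := by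
    rw [Fintype.card_congr e₂, Fintype.card_sum, Fintype.card_unit]
  have k₀ : Fintype.card ι₀ = Fintype.card κ₁ := Fintype.card_congr e₀
  have k₁ : Fintype.card ι₁ = Fintype.card κ₂ + (1 + Fintype.card κ₁) := by
    rw [Fintype.card_congr e₁, Fintype.card_sum, Fintype.card_sum, Fintype.card_unit]
  have hcard : 1 + Fintype.card ι₁ = Fintype.card ι₂ + (1 + Fintype.card ι₀) := by omega
  obtain ⟨D₂, hD₂m⟩ := exists_matrix c₂ hc₂ (c₁ ∘ₗ d₂)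
  obtain ⟨D₁, hD₁m⟩ := exists_matrix c₁ hc₁ (c₀ ∘ₗ d₁)
  have hD₂m : ∀ x, c₁ (d₂ x) = D₂ *ᵥ c₂ x := hD₂m
  have hD₁m : ∀ x, c₀ (d₁ x) = D₁ *ᵥ c₁ x := hD₁m
  -- squares of the volumes
  have s₂ := vol_sq c₂ (Sum.elim (fun _ : Unit => h₂) b₂) e₂
  have s₁ := vol_sq c₁ (Sum.elim (d₂ ∘ b₂) (Sum.elim (fun _ : Unit => h₁) b₁)) e₁
  have s₀ := vol_sq c₀ (d₁ ∘ b₁) e₀
  have hτ2 : τ ^ 2 * (sqdet (cm c₂ (Sum.elim (fun _ : Unit => h₂) b₂)) *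
        sqdet (cm c₀ (d₁ ∘ b₁))) =
        sqdet (cm c₁ (Sum.elim (d₂ ∘ b₂) (Sum.elim (fun _ : Unit => h₁) b₁))) := by
    rw [← s₂, ← s₁, ← s₀, hτ]
    have := hD₂
    have := hD₀
    rw [Function.comp_assoc]
    field_simp
  have n₂ : sqdet (cm c₂ (Sum.elim (fun _ : Unit => h₂) b₂)) ≠ 0 := by
    rw [← s₂]; exact pow_ne_zero 2 hD₂
  have n₁ : sqdet (cm c₁ (Sum.elim (d₂ ∘ b₂) (Sum.elim (fun _ : Unit => h₁) b₁))) ≠ 0 := by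
    rw [← s₁]; exact pow_ne_zero 2 hD₁
  have n₀ : sqdet (cm c₀ (d₁ ∘ b₁)) ≠ 0 := by
    rw [← s₀]; exact pow_ne_zero 2 hD₀
  have m₂ : cm c₂ (Sum.elim (fun _ : Unit => h₂) b₂) =
      fromCols (replicateCol Unit (c₂ h₂)) (cm c₂ b₂) := by
    ext i j; rcases j with j | j <;> rfl
  have m₁ : cm c₁ (Sum.elim (d₂ ∘ b₂) (Sum.elim (fun _ : Unit => h₁) b₁)) =
      fromCols (D₂ * cm c₂ b₂) (fromCols (replicateCol Unit (c₁ h₁)) (cm c₁ b₁)) := by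
    ext i j
    rcases j with j | j | j
    · show c₁ (d₂ (b₂ j)) i = _
      rw [hD₂m]
      rfl
    · rfl
    · rfl
  have m₀ : cm c₀ (d₁ ∘ b₁) = D₁ * cm c₁ b₁ := by
    ext i j
    show c₀ (d₁ (b₁ j)) i = _
    rw [hD₁m]
    rfl
  obtain ⟨H₂, hH₂, -⟩ := exists_inv (cm c₂ (Sum.elim (fun _ : Unit => h₂) b₂)) (by
    rw [Fintype.card_sum, Fintype.card_unit]; exact k₂) n₂
  obtain ⟨H₀, hH₀, hH₀'⟩ := exists_inv (cm c₀ (d₁ ∘ b₁)) k₀ n₀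
  have hl : H₂ (Sum.inl ()) ⬝ᵥ c₂ h₂ = 1 := by
    have := congrFun (congrFun hH₂ (Sum.inl ())) (Sum.inl ())
    simpa [Matrix.mul_apply, cm, dotProduct] using this
  have hDD : D₁ * D₂ = 0 := matrix_unique c₂ hc₂ _ _ fun x => by
    rw [← Matrix.mulVec_mulVec, ← hD₂m, ← hD₁m, hdd, map_zero, Matrix.zero_mulVec]
  have hz₂ : D₂ *ᵥ c₂ h₂ = 0 := by rw [← hD₂m, z₂, map_zero]
  have hz₁ : D₁ *ᵥ c₁ h₁ = 0 := by rw [← hD₁m, z₁, map_zero]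
  have hkey := bigM_key D₂ (H₂ (Sum.inl ())) (c₂ h₂) (c₁ h₁) (cm c₁ b₁ * H₀) (cm c₂ b₂)
    (cm c₁ b₁) (cm c₀ (d₁ ∘ b₁)) hl hz₂ (by rw [Matrix.mul_assoc, hH₀, Matrix.mul_one])
    hcard k₂ k₀
  rw [← m₂, ← m₁, ← hτ2] at hkey
  have hfin : sqdet (bigM D₂ (H₂ (Sum.inl ())) (c₁ h₁) (cm c₁ b₁ * H₀)) = τ ^ 2 :=
    mul_right_cancel₀ (mul_ne_zero n₂ n₀) hkey
  have hτ0 : τ ^ 2 ≠ 0 := by
    intro h0
    rw [h0, zero_mul] at hτ2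
    exact n₁ hτ2.symm
  exact ⟨hc₂, hc₁, hc₀, D₂, D₁, hD₂m, hD₁m, hcard, hDD, hz₂, hz₁, hτ0, H₂ (Sum.inl ()),
    cm c₁ b₁ * H₀, hl, by rw [← Matrix.mul_assoc, ← m₀, hH₀'], hfin⟩

theorem LT.torsion {c₂ : C₂ →ₗ[ℂ] ι₂ → ℂ} {c₁ : C₁ →ₗ[ℂ] ι₁ → ℂ} {c₀ : C₀ →ₗ[ℂ] ι₀ → ℂ}
    {d₂ : C₂ →ₗ[ℂ] C₁} {d₁ : C₁ →ₗ[ℂ] C₀} {h₂ : C₂} {h₁ : C₁} {t : ℂ}
    (h : LT c₂ c₁ c₀ d₂ d₁ h₂ h₁ t) : ∃ τ, τ ^ 2 = t ∧ IsTorsion c₂ c₁ c₀ d₂ d₁ h₂ h₁ τ := by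
  classical
  obtain ⟨hc₂, hc₁, hc₀, D₂, D₁, e₂, e₁, hM⟩ := h
  obtain ⟨lam, B, hl, hB, ht⟩ := hM.ex
  have hη : c₂ h₂ ≠ 0 := by
    intro h0
    rw [h0, dotProduct_zero] at hl
    exact zero_ne_one hl
  obtain ⟨i₀, hi₀⟩ := Function.ne_iff.1 hη
  rw [Pi.zero_apply] at hi₀
  have hex₂ : ∀ i : {i // i ≠ i₀}, ∃ x, c₂ x = Pi.single i.1 1 := fun i => hc₂.2 _
  choose b₂ hb₂ using hex₂
  have hex₁ : ∀ k : ι₀, ∃ y, c₁ y = fun i => B i k := fun k => hc₁.2 _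
  choose b₁ hb₁ using hex₁
  have k₂ : Fintype.card ι₂ = 1 + Fintype.card {i // i ≠ i₀} := by
    rw [Fintype.card_subtype_compl, Fintype.card_subtype_eq]
    have : 0 < Fintype.card ι₂ := Fintype.card_pos_iff.2 ⟨i₀⟩
    omega
  have k₁ : Fintype.card ι₁ = Fintype.card {i // i ≠ i₀} + (1 + Fintype.card ι₀) := by
    have := hM.card
    omega
  have m₂ : cm c₂ (Sum.elim (fun _ : Unit => h₂) b₂) =
      fromCols (replicateCol Unit (c₂ h₂)) (cm c₂ b₂) := by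
    ext i j; rcases j with j | j <;> rfl
  have m₁ : cm c₁ (Sum.elim (d₂ ∘ b₂) (Sum.elim (fun _ : Unit => h₁) b₁)) =
      fromCols (D₂ * cm c₂ b₂) (fromCols (replicateCol Unit (c₁ h₁)) (cm c₁ b₁)) := by
    ext i j
    rcases j with j | j | j
    · show c₁ (d₂ (b₂ j)) i = _
      rw [e₂]
      rfl
    · rfl
    · rfl
  have m₁' : cm c₁ b₁ = B := by
    ext i j
    show c₁ (b₁ j) i = _
    rw [hb₁]
  have m₀ : cm c₀ (d₁ ∘ b₁) = 1 := by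
    rw [← hB]
    ext i j
    show c₀ (d₁ (b₁ j)) i = _
    rw [e₁, hb₁]
    rfl
  have n₂ : sqdet (cm c₂ (Sum.elim (fun _ : Unit => h₂) b₂)) ≠ 0 := by
    have hH : (Matrix.of fun (j : Unit ⊕ {i // i ≠ i₀}) (i : ι₂) =>
        Sum.elim (fun _ => if i = i₀ then (c₂ h₂ i₀)⁻¹ else 0)
          (fun j' : {i // i ≠ i₀} => (if i = j'.1 then 1 else 0) -
            (if i = i₀ then c₂ h₂ j'.1 * (c₂ h₂ i₀)⁻¹ else 0)) j) *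
        cm c₂ (Sum.elim (fun _ : Unit => h₂) b₂) = 1 := by
      ext j k
      rw [Matrix.mul_apply]
      rcases j with j | j <;> rcases k with k | k
      · simp [cm, inv_mul_cancel₀ hi₀]
      · have hne : i₀ ≠ k.1 := fun h => k.2 h.symm
        simp [cm, hb₂, Pi.single_apply, hne, k.2]
      · simp [cm, sub_mul, Finset.sum_sub_distrib]
        field_simp
        ring
      · have hne : i₀ ≠ k.1 := fun h => k.2 h.symm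
        simp [cm, hb₂, Pi.single_apply, sub_mul, Finset.sum_sub_distrib, hne, k.2,
          Matrix.one_apply, Subtype.ext_iff, eq_comm]
    have := sqdet_ne_of_inv _ _ (by rw [Fintype.card_sum, Fintype.card_unit]; exact k₂) hH
    intro h0
    rw [h0, mul_zero] at this
    exact zero_ne_one this
  have hkey := bigM_key D₂ lam (c₂ h₂) (c₁ h₁) B (cm c₂ b₂) B 1 hl hM.z₂
    (by rw [Matrix.mul_one]) hM.card k₂ rfl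
  rw [← m₂, ht, sqdet_one, mul_one] at hkey
  have hs₁ : sqdet (cm c₁ (Sum.elim (d₂ ∘ b₂) (Sum.elim (fun _ : Unit => h₁) b₁))) =
      t * sqdet (cm c₂ (Sum.elim (fun _ : Unit => h₂) b₂)) := by
    rw [m₁, m₁', hkey]
  let f₂ : ι₂ ≃ Unit ⊕ {i // i ≠ i₀} := Fintype.equivOfCardEq (by
    rw [Fintype.card_sum, Fintype.card_unit]; exact k₂)
  let f₁ : ι₁ ≃ {i // i ≠ i₀} ⊕ (Unit ⊕ ι₀) := Fintype.equivOfCardEq (by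
    rw [Fintype.card_sum, Fintype.card_sum, Fintype.card_unit]; exact k₁)
  have v₂ := vol_sq c₂ (Sum.elim (fun _ : Unit => h₂) b₂) f₂
  have v₁ := vol_sq c₁ (Sum.elim (d₂ ∘ b₂) (Sum.elim (fun _ : Unit => h₁) b₁)) f₁
  have v₀ := vol_sq c₀ (d₁ ∘ b₁) (Equiv.refl ι₀)
  rw [m₀, sqdet_one] at v₀
  have w₂ : vol c₂ (Sum.elim (fun _ : Unit => h₂) b₂ ∘ f₂) ≠ 0 := by
    intro h0
    rw [h0] at v₂
    exact n₂ (by rw [← v₂]; ring)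
  have w₀ : vol c₀ (d₁ ∘ b₁ ∘ (Equiv.refl ι₀)) ≠ 0 := by
    intro h0
    have h0' : vol c₀ ((d₁ ∘ b₁) ∘ (Equiv.refl ι₀)) = 0 := h0
    rw [h0'] at v₀
    norm_num at v₀
  have w₁ : vol c₁ (Sum.elim (d₂ ∘ b₂) (Sum.elim (fun _ : Unit => h₁) b₁) ∘ f₁) ≠ 0 := by
    intro h0
    rw [h0, hs₁] at v₁
    exact mul_ne_zero hM.ne n₂ (by rw [← v₁]; ring)
  refine ⟨_, ?_, hc₂, hc₁, hc₀, ?_, ?_, ?_, {i // i ≠ i₀}, ι₀, b₂, b₁, f₂, f₁, Equiv.refl ι₀,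
    w₂, w₁, w₀, rfl⟩
  · rw [div_pow, mul_pow, v₂, v₁, hs₁]
    have h5 : vol c₀ (d₁ ∘ b₁ ∘ (Equiv.refl ι₀)) ^ 2 = 1 := v₀
    rw [h5, mul_one]
    exact mul_div_cancel_right₀ t n₂
  · apply hc₁.1
    rw [e₂, hM.z₂, map_zero]
  · apply hc₀.1
    rw [e₁, hM.z₁, map_zero]
  · intro x
    apply hc₀.1
    rw [e₁, e₂, Matrix.mulVec_mulVec, hM.dd, Matrix.zero_mulVec, map_zero]

end Main

end Run7.h360
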