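import Pool.Agent.Run7.h360.Defs
import Pool.Agent.Run7.h360.Link
import Pool.Agent.H15_OneLoop.Local

/-!
# The chain complex as a complex of vector spaces, for arbitrary index types
-/

set_option autoImplicit false

namespace Run7.h360

open Matrix Pool.Agent.H15_OneLoop

variable {J : Type}

theorem Tri.glue_apply_glue (T : Tri J) (j : J) (a v : Fin 4) :
    T.glue (T.adj j a) (T.glue j a a) (T.glue j a v) = v := by
  rw [T.glue_glue]; simp

/-- The spaces of chains. -/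
def ch₀ (J : Type) : Submodule ℂ (J → Mat2) where
  carrier := {u | Ch₀ u}
  add_mem' := by
    intro x y hx hy j
    simp [Matrix.trace_add, hx j, hy j]
  zero_mem' := by intro j; simp
  smul_mem' := by
    intro c x hx j
    simp [Matrix.trace_smul, hx j]

def ch₁ (T : Tri J) (A : J → Fin 4 → Mat2) : Submodule ℂ (J → Fin 4 → Mat2) where
  carrier := {y | T.Ch₁ A y}
  add_mem' := by
    rintro x y ⟨hx, hx'⟩ ⟨hy, hy'⟩
    refine ⟨fun j a => by simp [Matrix.trace_add, hx j a, hy j a], fun j a => ?_⟩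
    simp only [Pi.add_apply, hx', hy', Matrix.mul_add, Matrix.add_mul]
    abel
  zero_mem' := by constructor <;> intros <;> simp
  smul_mem' := by
    rintro c x ⟨hx, hx'⟩
    refine ⟨fun j a => by simp [Matrix.trace_smul, hx j a], fun j a => ?_⟩
    simp only [Pi.smul_apply, hx', Matrix.mul_smul, Matrix.smul_mul, smul_neg]

def ch₂ (T : Tri J) (A : J → Fin 4 → Mat2) : Submodule ℂ (J → Fin 4 → Fin 4 → Mat2) where
  carrier := {x | T.Ch₂ A x}
  add_mem' := by
    rintro x y ⟨hx, hx', hx''⟩ ⟨hy, hy', hy''⟩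
    refine ⟨fun j v w => by simp [Matrix.trace_add, hx j v w, hy j v w], fun j v w => ?_,
      fun j a v w hv hw => ?_⟩
    · simp only [Pi.add_apply, hx' j v w, hy' j v w]
      abel
    · simp only [Pi.add_apply, hx'' j a v w hv hw, hy'' j a v w hv hw, Matrix.mul_add,
        Matrix.add_mul]
  zero_mem' := by refine ⟨?_, ?_, ?_⟩ <;> intros <;> simp
  smul_mem' := by
    rintro c x ⟨hx, hx', hx''⟩
    refine ⟨fun j v w => by simp [Matrix.trace_smul, hx j v w], fun j v w => ?_,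
      fun j a v w hv hw => ?_⟩
    · simp only [Pi.smul_apply, hx' j v w, smul_neg]
    · simp only [Pi.smul_apply, hx'' j a v w hv hw, Matrix.mul_smul, Matrix.smul_mul]

theorem mem_ch₀ {u : J → Mat2} : u ∈ ch₀ J ↔ Ch₀ u := Iff.rfl

theorem mem_ch₁ {T : Tri J} {A : J → Fin 4 → Mat2} {y : J → Fin 4 → Mat2} :
    y ∈ ch₁ T A ↔ T.Ch₁ A y := Iff.rfl

theorem mem_ch₂ {T : Tri J} {A : J → Fin 4 → Mat2} {x : J → Fin 4 → Fin 4 → Mat2} :
    x ∈ ch₂ T A ↔ T.Ch₂ A x := Iff.rfl

theorem evenAt_glue' (T : Tri J) (A : J → Fin 4 → Mat2)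
    (x : J → Fin 4 → Fin 4 → Mat2) (hx : T.Ch₂ A x) (j : J) (a : Fin 4) :
    ∑ σ ∈ evenAt (T.glue j a a), x (T.adj j a) (σ 0) (σ 1) =
      -(A j a * (∑ σ ∈ evenAt a, x j (σ 0) (σ 1)) * (A j a)⁻¹) := by
  obtain ⟨-, hx', hx''⟩ := hx
  rw [Matrix.mul_sum, Matrix.sum_mul, ← Finset.sum_neg_distrib]
  symm
  refine Finset.sum_bij'
    (i := fun σ _ => T.glue j a * σ * Equiv.swap 0 1)
    (j := fun σ _ => (T.glue j a)⁻¹ * σ * Equiv.swap 0 1) ?_ ?_ ?_ ?_ ?_
  · intro σ hσ
    simp only [evenAt, Finset.mem_filter, Finset.mem_univ, true_and] at hσ ⊢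
    refine ⟨?_, ?_⟩
    · rw [Equiv.Perm.sign_mul, Equiv.Perm.sign_mul, hσ.1, T.odd,
        Equiv.Perm.sign_swap (by decide)]
      decide
    · rw [Equiv.Perm.mul_apply, Equiv.Perm.mul_apply,
        Equiv.swap_apply_of_ne_of_ne (by decide) (by decide), hσ.2]
  · intro σ hσ
    simp only [evenAt, Finset.mem_filter, Finset.mem_univ, true_and] at hσ ⊢
    refine ⟨?_, ?_⟩
    · rw [Equiv.Perm.sign_mul, Equiv.Perm.sign_mul, hσ.1, Equiv.Perm.sign_inv, T.odd,
        Equiv.Perm.sign_swap (by decide)]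
      decide
    · rw [Equiv.Perm.mul_apply, Equiv.Perm.mul_apply,
        Equiv.swap_apply_of_ne_of_ne (by decide) (by decide), hσ.2]
      simp
  · intro σ _
    ext i
    simp
  · intro σ _
    ext i
    simp
  · intro σ hσ
    simp only [evenAt, Finset.mem_filter, Finset.mem_univ, true_and] at hσ
    have h0 : (T.glue j a * σ * Equiv.swap (0 : Fin 4) 1) 0 = T.glue j a (σ 1) := by simp
    have h1 : (T.glue j a * σ * Equiv.swap (0 : Fin 4) 1) 1 = T.glue j a (σ 0) := by simp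
    have e0 : σ 0 ≠ a := by
      rw [← hσ.2]; exact fun h => absurd (σ.injective h) (by decide)
    have e1 : σ 1 ≠ a := by
      rw [← hσ.2]; exact fun h => absurd (σ.injective h) (by decide)
    rw [h0, h1, hx'' j a _ _ e1 e0, hx' j (σ 0) (σ 1)]
    simp only [Matrix.mul_neg, Matrix.neg_mul]

/-- The boundary of `2`-chains. -/
def D₂ (T : Tri J) (A : J → Fin 4 → Mat2) : ch₂ T A →ₗ[ℂ] ch₁ T A where
  toFun x := ⟨del₂ x.1, by
    refine ⟨fun j a => ?_, fun j a => evenAt_glue' T A x.1 x.2 j a⟩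
    show (∑ σ ∈ evenAt a, x.1 j (σ 0) (σ 1)).trace = 0
    rw [Matrix.trace_sum]
    exact Finset.sum_eq_zero fun σ _ => x.2.1 j _ _⟩
  map_add' x y := by
    ext j a
    simp [del₂, Finset.sum_add_distrib]
  map_smul' c x := by
    ext j a
    simp [del₂, Finset.mul_sum, Matrix.sum_apply]

/-- The boundary of `1`-chains. -/
def D₁ (T : Tri J) (A : J → Fin 4 → Mat2) : ch₁ T A →ₗ[ℂ] ch₀ J where
  toFun y := ⟨del₁ y.1, by
    intro j
    show (-∑ a, y.1 j a).trace = 0
    rw [Matrix.trace_neg, Matrix.trace_sum, Finset.sum_eq_zero fun a _ => y.2.1 j a, neg_zero]⟩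
  map_add' x y := by
    ext j a
    simp [del₁, Finset.sum_add_distrib, Matrix.sum_apply]
    ring
  map_smul' c x := by
    ext j a
    simp [del₁, Finset.mul_sum, Matrix.sum_apply]

theorem D₁_D₂ (T : Tri J) (A : J → Fin 4 → Mat2) (x : ch₂ T A) : D₁ T A (D₂ T A x) = 0 := by
  apply Subtype.ext
  funext j
  show -∑ a, ∑ σ ∈ evenAt a, x.1 j (σ 0) (σ 1) = 0
  simp only [sum_evenAt (fun v w => x.1 j v w)]
  have h01 := x.2.2.1 j 0 1
  have h02 := x.2.2.1 j 0 2
  have h03 := x.2.2.1 j 0 3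
  have h12 := x.2.2.1 j 1 2
  have h13 := x.2.2.1 j 1 3
  have h23 := x.2.2.1 j 2 3
  rw [neg_eq_zero]
  simp only [Fin.sum_univ_four]
  simp [lft, h01, h02, h03, h12, h13, h23]
  abel

/-- The class `[∂M] ⊗ P`. -/
def cTwo {T : Tri J} {A P : J → Fin 4 → Mat2} (hP : T.IsCuspInv A P) : ch₂ T A :=
  ⟨cuspTwo P, by
    refine ⟨fun j v w => ?_, fun j v w => ?_, fun j a v w hv hw => ?_⟩
    · show (P j v - P j w).trace = 0
      rw [Matrix.trace_sub, hP.trace_eq, hP.trace_eq, sub_zero]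
    · exact (neg_sub _ _).symm
    · show P (T.adj j a) (T.glue j a v) - P (T.adj j a) (T.glue j a w) =
        A j a * (P j v - P j w) * (A j a)⁻¹
      rw [hP.parallel j a v hv, hP.parallel j a w hw, Matrix.mul_sub, Matrix.sub_mul]⟩

theorem D₂_cTwo {T : Tri J} {A P : J → Fin 4 → Mat2} (hP : T.IsCuspInv A P) :
    D₂ T A (cTwo hP) = 0 := by
  apply Subtype.ext
  funext j a
  show ∑ σ ∈ evenAt a, (P j (σ 0) - P j (σ 1)) = 0
  rw [sum_evenAt (fun v w => P j v - P j w) a]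
  fin_cases a <;> simp [Fin.sum_univ_four, lft]

/-- The class `c ⊗ P`. -/
noncomputable def cOne {T : Tri J} {A P : J → Fin 4 → Mat2} (hP : T.IsCuspInv A P)
    {c : J → Fin 4 → Fin 4 → ℤ} (hc : T.IsCycle c) : ch₁ T A :=
  ⟨cuspOne c P, by
    refine ⟨fun j a => ?_, fun j a => ?_⟩
    · show (∑ v, (c j v a : ℂ) • P j v).trace = 0
      rw [Matrix.trace_sum]
      refine Finset.sum_eq_zero fun v _ => ?_
      rw [Matrix.trace_smul, hP.trace_eq, smul_zero]
    · show ∑ v, (c (T.adj j a) v (T.glue j a a) : ℂ) • P (T.adj j a) v =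
        -(A j a * (∑ v, (c j v a : ℂ) • P j v) * (A j a)⁻¹)
      rw [← Equiv.sum_comp (T.glue j a), Matrix.mul_sum, Matrix.sum_mul,
        ← Finset.sum_neg_distrib]
      refine Finset.sum_congr rfl fun v _ => ?_
      by_cases hv : v = a
      · subst hv
        rw [hc.diag, hc.diag]
        simp
      · rw [hc.anti j v a hv, hP.parallel j a v hv]
        push_cast
        rw [neg_smul, Matrix.mul_smul, Matrix.smul_mul]⟩

theorem D₁_cOne {T : Tri J} {A P : J → Fin 4 → Mat2} (hP : T.IsCuspInv A P)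
    {c : J → Fin 4 → Fin 4 → ℤ} (hc : T.IsCycle c) : D₁ T A (cOne hP hc) = 0 := by
  apply Subtype.ext
  funext j
  show -∑ a, ∑ v, (c j v a : ℂ) • P j v = 0
  rw [Finset.sum_comm, neg_eq_zero]
  refine Finset.sum_eq_zero fun v _ => ?_
  rw [← Finset.sum_smul, ← Int.cast_sum, hc.div, Int.cast_zero, zero_smul]

/-! ### Coordinates -/

theorem coord_add' (X Y : Mat2) : coord (X + Y) = coord X + coord Y := by
  ext i; fin_cases i <;> simp [coord]

theorem coord_smul' (c : ℂ) (X : Mat2) : coord (c • X) = c • coord X := by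
  ext i; fin_cases i <;> simp [coord]

/-- Coordinates as a linear map. -/
def coordL : Mat2 →ₗ[ℂ] (Fin 3 → ℂ) where
  toFun := coord
  map_add' := coord_add'
  map_smul' := coord_smul'

theorem coordL_apply (X : Mat2) : coordL X = coord X := rfl

def cc₂ (T : Tri J) (A : J → Fin 4 → Mat2) {E : Type} (ε : E → J × Fin 4 × Fin 4) :
    ch₂ T A →ₗ[ℂ] (E × Fin 3 → ℂ) where
  toFun x := co₂ ε x.1
  map_add' x y := by
    ext p
    exact congrFun (coord_add' _ _) p.2
  map_smul' c x := by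
    ext p
    exact congrFun (coord_smul' _ _) p.2

def cc₁ (T : Tri J) (A : J → Fin 4 → Mat2) {Φ : Type} (φ : Φ → J × Fin 4) :
    ch₁ T A →ₗ[ℂ] (Φ × Fin 3 → ℂ) where
  toFun x := co₁ φ x.1
  map_add' x y := by
    ext p
    exact congrFun (coord_add' _ _) p.2
  map_smul' c x := by
    ext p
    exact congrFun (coord_smul' _ _) p.2

def cc₀ {V : Type} (ν : V → J) : ch₀ J →ₗ[ℂ] (V × Fin 3 → ℂ) where
  toFun x := co₀ ν x.1
  map_add' x y := by
    ext p
    exact congrFun (coord_add' _ _) p.2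
  map_smul' c x := by
    ext p
    exact congrFun (coord_smul' _ _) p.2

/-- `t` is the square of the torsion, with the cusp invariant `P`. -/
def Tor (T : Tri J) (A P : J → Fin 4 → Mat2) (hP : T.IsCuspInv A P) (c : J → Fin 4 → Fin 4 → ℤ)
    (hc : T.IsCycle c) {V Φ E : Type} [Fintype V] [DecidableEq V] [Fintype Φ] [DecidableEq Φ]
    [Fintype E] [DecidableEq E] (ν : V → J) (φ : Φ → J × Fin 4) (ε : E → J × Fin 4 × Fin 4)
    (t : ℂ) : Prop :=
  LT (cc₂ T A ε) (cc₁ T A φ) (cc₀ ν) (D₂ T A) (D₁ T A) (cTwo hP) (cOne hP hc) t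

end Run7.h360
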