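import Pool.Agent.Run7.h360.Iso

/-!
# Elimination of an acyclic part, for complexes of vector spaces
-/

set_option autoImplicit false

namespace Run7.h360

open Matrix Pool.Agent.H15_OneLoop

section Bij

variable {C R ι S : Type} [AddCommGroup C] [Module ℂ C] [AddCommGroup R] [Module ℂ R]
  {r : R →ₗ[ℂ] ι → ℂ} {p : C →ₗ[ℂ] R} {s : C →ₗ[ℂ] S → ℂ} {a : C →ₗ[ℂ] (ι ⊕ S) → ℂ}

theorem bij_of_red (hj : Function.Bijective fun x => (p x, s x))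
    (ha : ∀ x, a x = Sum.elim (r (p x)) (s x)) (hr : Function.Bijective r) :
    Function.Bijective a := by
  constructor
  · intro x y hxy
    rw [ha, ha] at hxy
    have h1 : r (p x) = r (p y) := funext fun i => congrFun hxy (Sum.inl i)
    have h2 : s x = s y := funext fun i => congrFun hxy (Sum.inr i)
    exact hj.1 (Prod.ext (hr.1 h1) h2)
  · intro w
    obtain ⟨u, hu⟩ := hr.2 (fun i => w (Sum.inl i))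
    obtain ⟨x, hx⟩ := hj.2 (u, fun i => w (Sum.inr i))
    have h1 : p x = u := congrArg Prod.fst hx
    have h2 : s x = fun i => w (Sum.inr i) := congrArg Prod.snd hx
    refine ⟨x, ?_⟩
    rw [ha, h1, hu, h2]
    ext i
    rcases i with i | i <;> rfl

theorem red_of_bij (hj : Function.Bijective fun x => (p x, s x))
    (ha : ∀ x, a x = Sum.elim (r (p x)) (s x)) (hb : Function.Bijective a) :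
    Function.Bijective r := by
  constructor
  · intro u u' h
    obtain ⟨x, hx⟩ := hj.2 (u, 0)
    obtain ⟨x', hx'⟩ := hj.2 (u', 0)
    have h1 : p x = u := congrArg Prod.fst hx
    have h2 : s x = 0 := congrArg Prod.snd hx
    have h1' : p x' = u' := congrArg Prod.fst hx'
    have h2' : s x' = 0 := congrArg Prod.snd hx'
    have h3 : x = x' := hb.1 (by rw [ha, ha, h1, h1', h2, h2', h])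
    rw [← h1, ← h1', h3]
  · intro w
    obtain ⟨x, hx⟩ := hb.2 (Sum.elim w 0)
    rw [ha] at hx
    exact ⟨p x, funext fun i => congrFun hx (Sum.inl i)⟩

end Bij

/-- The blocks of the matrix of a differential. -/
theorem blocks {C R ι S C' R' ι' S' : Type} [AddCommGroup C] [Module ℂ C] [AddCommGroup R]
    [Module ℂ R] [AddCommGroup C'] [Module ℂ C'] [AddCommGroup R'] [Module ℂ R'] [Fintype ι]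
    [DecidableEq ι] [Fintype S] [DecidableEq S]
    {r : R →ₗ[ℂ] ι → ℂ} {p : C →ₗ[ℂ] R} {s : C →ₗ[ℂ] S → ℂ} {a : C →ₗ[ℂ] (ι ⊕ S) → ℂ}
    {r' : R' →ₗ[ℂ] ι' → ℂ} {p' : C' →ₗ[ℂ] R'} {s' : C' →ₗ[ℂ] S' → ℂ}
    {a' : C' →ₗ[ℂ] (ι' ⊕ S') → ℂ} {d : C →ₗ[ℂ] C'} {q : R →ₗ[ℂ] R'}
    (ha : ∀ x, a x = Sum.elim (r (p x)) (s x)) (ha' : ∀ x, a' x = Sum.elim (r' (p' x)) (s' x))
    (hb : Function.Bijective a) (hr : Function.Bijective r)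
    (hm : ∀ x, p' (d x) = q (p x)) (D : Matrix (ι' ⊕ S') (ι ⊕ S) ℂ) (M : Matrix ι' ι ℂ)
    (K : Matrix S' S ℂ) (hD : ∀ x, a' (d x) = D *ᵥ a x) (hM : ∀ u, r' (q u) = M *ᵥ r u)
    (hn : ∀ x, p x = 0 → s' (d x) = K *ᵥ s x) : D = fromBlocks M 0 D.toBlocks₂₁ K := by
  ext i j
  obtain ⟨x, hx⟩ := hb.2 (Pi.single j 1)
  have h1 : a' (d x) i = D i j := by rw [hD, hx, Matrix.mulVec_single_one]; rfl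
  rw [ha] at hx
  rcases j with j | j
  · have e1 : r (p x) = Pi.single j 1 := by
      ext k
      have := congrFun hx (Sum.inl k)
      simpa [Pi.single_apply] using this
    rcases i with i | i
    · rw [ha', Sum.elim_inl, hm, hM, e1, Matrix.mulVec_single_one] at h1
      rw [fromBlocks_apply₁₁, ← h1]
      rfl
    · rfl
  · have e1 : r (p x) = 0 := by
      ext k
      have := congrFun hx (Sum.inl k)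
      simpa [Pi.single_apply] using this
    have e2 : s x = Pi.single j 1 := by
      ext k
      have := congrFun hx (Sum.inr k)
      simpa [Pi.single_apply] using this
    have e3 : p x = 0 := hr.1 (by rw [e1, map_zero])
    rcases i with i | i
    · rw [ha', Sum.elim_inl, hm, e3, map_zero, map_zero] at h1
      rw [fromBlocks_apply₁₂, ← h1]
      rfl
    · rw [ha', Sum.elim_inr, hn x e3, e2, Matrix.mulVec_single_one] at h1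
      rw [fromBlocks_apply₂₂, ← h1]
      rfl

section Main

variable {C₂ C₁ C₀ R₂ R₁ R₀ ι₂ ι₁ ι₀ S₂ S₁ S₀ κ₂ κ₁ κ₀ : Type}
  [AddCommGroup C₂] [Module ℂ C₂] [AddCommGroup C₁] [Module ℂ C₁] [AddCommGroup C₀]
  [Module ℂ C₀] [AddCommGroup R₂] [Module ℂ R₂] [AddCommGroup R₁] [Module ℂ R₁]
  [AddCommGroup R₀] [Module ℂ R₀] [Fintype ι₂] [DecidableEq ι₂] [Fintype ι₁] [DecidableEq ι₁]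
  [Fintype ι₀] [DecidableEq ι₀] [Fintype S₂] [DecidableEq S₂] [Fintype S₁] [DecidableEq S₁]
  [Fintype S₀] [DecidableEq S₀] [Fintype κ₂] [DecidableEq κ₂] [Fintype κ₁] [DecidableEq κ₁]
  [Fintype κ₀] [DecidableEq κ₀]

theorem LT.collapse₀ {a₂ : C₂ →ₗ[ℂ] (ι₂ ⊕ S₂) → ℂ} {a₁ : C₁ →ₗ[ℂ] (ι₁ ⊕ S₁) → ℂ}
    {a₀ : C₀ →ₗ[ℂ] (ι₀ ⊕ S₀) → ℂ} {d₂ : C₂ →ₗ[ℂ] C₁} {d₁ : C₁ →ₗ[ℂ] C₀} {h₂ : C₂} {h₁ : C₁}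
    {r₂ : R₂ →ₗ[ℂ] ι₂ → ℂ} {r₁ : R₁ →ₗ[ℂ] ι₁ → ℂ} {r₀ : R₀ →ₗ[ℂ] ι₀ → ℂ}
    {q₂ : R₂ →ₗ[ℂ] R₁} {q₁ : R₁ →ₗ[ℂ] R₀}
    {p₂ : C₂ →ₗ[ℂ] R₂} {p₁ : C₁ →ₗ[ℂ] R₁} {p₀ : C₀ →ₗ[ℂ] R₀}
    {s₂ : C₂ →ₗ[ℂ] S₂ → ℂ} {s₁ : C₁ →ₗ[ℂ] S₁ → ℂ} {s₀ : C₀ →ₗ[ℂ] S₀ → ℂ}
    (hd : ∀ x, d₁ (d₂ x) = 0) (hz₂ : d₂ h₂ = 0) (hz₁ : d₁ h₁ = 0)
    (ha₂ : ∀ x, a₂ x = Sum.elim (r₂ (p₂ x)) (s₂ x))
    (ha₁ : ∀ x, a₁ x = Sum.elim (r₁ (p₁ x)) (s₁ x))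
    (ha₀ : ∀ x, a₀ x = Sum.elim (r₀ (p₀ x)) (s₀ x))
    (m₂ : ∀ x, p₁ (d₂ x) = q₂ (p₂ x)) (m₁ : ∀ x, p₀ (d₁ x) = q₁ (p₁ x))
    (j₂ : Function.Bijective fun x => (p₂ x, s₂ x))
    (j₁ : Function.Bijective fun x => (p₁ x, s₁ x))
    (j₀ : Function.Bijective fun x => (p₀ x, s₀ x))
    (K₂ : Matrix S₁ S₂ ℂ) (K₁ : Matrix S₀ S₁ ℂ)
    (n₂ : ∀ x, p₂ x = 0 → s₁ (d₂ x) = K₂ *ᵥ s₂ x) (n₁ : ∀ x, p₁ x = 0 → s₀ (d₁ x) = K₁ *ᵥ s₁ x)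
    (b : Matrix S₁ S₀ ℂ) (hb : K₁ * b = 1) (hs : sqdet (fromCols K₂ b) = 1)
    (hS : Fintype.card S₁ = Fintype.card S₂ + Fintype.card S₀) (t : ℂ) :
    LT a₂ a₁ a₀ d₂ d₁ h₂ h₁ t ↔ LT r₂ r₁ r₀ q₂ q₁ (p₂ h₂) (p₁ h₁) t := by
  constructor
  · intro h
    have b₂ := red_of_bij j₂ ha₂ h.bij₂
    have b₁ := red_of_bij j₁ ha₁ h.bij₁
    have b₀ := red_of_bij j₀ ha₀ h.bij₀
    obtain ⟨M₂, hM₂⟩ := exists_matrix r₂ b₂ (r₁ ∘ₗ q₂)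
    obtain ⟨M₁, hM₁⟩ := exists_matrix r₁ b₁ (r₀ ∘ₗ q₁)
    have hM₂ : ∀ u, r₁ (q₂ u) = M₂ *ᵥ r₂ u := hM₂
    have hM₁ : ∀ u, r₀ (q₁ u) = M₁ *ᵥ r₁ u := hM₁
    refine ⟨b₂, b₁, b₀, M₂, M₁, hM₂, hM₁, ?_⟩
    obtain ⟨D₂, D₁, e₂, e₁, hM⟩ := h.ex
    have f₂ := blocks ha₂ ha₁ h.bij₂ b₂ m₂ D₂ M₂ K₂ e₂ hM₂ n₂
    have f₁ := blocks ha₁ ha₀ h.bij₁ b₁ m₁ D₁ M₁ K₁ e₁ hM₁ n₁
    rw [f₂, f₁, ha₂, ha₁] at hM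
    exact hM.reduce b hb hs hS
  · intro h
    have b₂ := bij_of_red j₂ ha₂ h.bij₂
    have b₁ := bij_of_red j₁ ha₁ h.bij₁
    have b₀ := bij_of_red j₀ ha₀ h.bij₀
    obtain ⟨M₂, M₁, hM₂, hM₁, hM⟩ := h.ex
    obtain ⟨D₂, e₂⟩ := exists_matrix a₂ b₂ (a₁ ∘ₗ d₂)
    obtain ⟨D₁, e₁⟩ := exists_matrix a₁ b₁ (a₀ ∘ₗ d₁)
    have e₂ : ∀ x, a₁ (d₂ x) = D₂ *ᵥ a₂ x := e₂
    have e₁ : ∀ x, a₀ (d₁ x) = D₁ *ᵥ a₁ x := e₁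
    refine ⟨b₂, b₁, b₀, D₂, D₁, e₂, e₁, ?_⟩
    have f₂ := blocks ha₂ ha₁ b₂ h.bij₂ m₂ D₂ M₂ K₂ e₂ hM₂ n₂
    have f₁ := blocks ha₁ ha₀ b₁ h.bij₁ m₁ D₁ M₁ K₁ e₁ hM₁ n₁
    have g₁ : D₁ * D₂ = 0 := matrix_unique a₂ b₂ _ _ fun x => by
      rw [← Matrix.mulVec_mulVec, ← e₂, ← e₁, hd, map_zero, Matrix.zero_mulVec]
    have g₂ : D₂ *ᵥ a₂ h₂ = 0 := by rw [← e₂, hz₂, map_zero]
    have g₃ : D₁ *ᵥ a₁ h₁ = 0 := by rw [← e₁, hz₁, map_zero]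
    rw [ha₂] at g₂
    rw [ha₁] at g₃
    rw [ha₂, ha₁]
    rw [f₂] at g₁ g₂ ⊢
    rw [f₁] at g₁ g₃ ⊢
    exact hM.expand g₁ g₂ g₃ b hb hs hS

/-- The same vector spaces with other coordinates. -/
theorem LT.coords {c₂ : C₂ →ₗ[ℂ] κ₂ → ℂ} {c₁ : C₁ →ₗ[ℂ] κ₁ → ℂ} {c₀ : C₀ →ₗ[ℂ] κ₀ → ℂ}
    {a₂ : C₂ →ₗ[ℂ] ι₂ → ℂ} {a₁ : C₁ →ₗ[ℂ] ι₁ → ℂ} {a₀ : C₀ →ₗ[ℂ] ι₀ → ℂ}
    {d₂ : C₂ →ₗ[ℂ] C₁} {d₁ : C₁ →ₗ[ℂ] C₀} {h₂ : C₂} {h₁ : C₁}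
    (G₂ : Matrix ι₂ κ₂ ℂ) (G₁ : Matrix ι₁ κ₁ ℂ) (G₀ : Matrix ι₀ κ₀ ℂ)
    (e₂ : Fintype.card ι₂ = Fintype.card κ₂) (e₁ : Fintype.card ι₁ = Fintype.card κ₁)
    (e₀ : Fintype.card ι₀ = Fintype.card κ₀)
    (g₂ : sqdet G₂ = 1) (g₁ : sqdet G₁ = 1) (g₀ : sqdet G₀ = 1)
    (hG₂ : ∀ x, a₂ x = G₂ *ᵥ c₂ x) (hG₁ : ∀ x, a₁ x = G₁ *ᵥ c₁ x)
    (hG₀ : ∀ x, a₀ x = G₀ *ᵥ c₀ x) (t : ℂ) :
    LT c₂ c₁ c₀ d₂ d₁ h₂ h₁ t ↔ LT a₂ a₁ a₀ d₂ d₁ h₂ h₁ t := by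
  constructor
  · intro h
    exact h.iso a₂ a₁ a₀ d₂ d₁ LinearMap.id LinearMap.id LinearMap.id Function.bijective_id
      Function.bijective_id Function.bijective_id (fun _ => rfl) (fun _ => rfl) G₂ G₁ G₀ e₂ e₁ e₀
      g₂ g₁ g₀ hG₂ hG₁ hG₀
  · intro h
    obtain ⟨H₂, hH₂, hH₂'⟩ := exists_inv G₂ e₂ (by rw [g₂]; exact one_ne_zero)
    obtain ⟨H₁, hH₁, hH₁'⟩ := exists_inv G₁ e₁ (by rw [g₁]; exact one_ne_zero)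
    obtain ⟨H₀, hH₀, hH₀'⟩ := exists_inv G₀ e₀ (by rw [g₀]; exact one_ne_zero)
    have k₂ := sqdet_ne_of_inv G₂ H₂ e₂ hH₂
    have k₁ := sqdet_ne_of_inv G₁ H₁ e₁ hH₁
    have k₀ := sqdet_ne_of_inv G₀ H₀ e₀ hH₀
    rw [g₂, mul_one] at k₂
    rw [g₁, mul_one] at k₁
    rw [g₀, mul_one] at k₀
    exact h.iso c₂ c₁ c₀ d₂ d₁ LinearMap.id LinearMap.id LinearMap.id Function.bijective_id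
      Function.bijective_id Function.bijective_id (fun _ => rfl) (fun _ => rfl) H₂ H₁ H₀ e₂.symm
      e₁.symm e₀.symm k₂ k₁ k₀
      (fun x => by
        show c₂ x = _
        rw [hG₂, Matrix.mulVec_mulVec, hH₂, Matrix.one_mulVec])
      (fun x => by
        show c₁ x = _
        rw [hG₁, Matrix.mulVec_mulVec, hH₁, Matrix.one_mulVec])
      (fun x => by
        show c₀ x = _
        rw [hG₀, Matrix.mulVec_mulVec, hH₀, Matrix.one_mulVec])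

/-- Both coordinates together. -/
def pairL {C R ι S : Type} [AddCommGroup C] [Module ℂ C] [AddCommGroup R] [Module ℂ R]
    (r : R →ₗ[ℂ] ι → ℂ) (p : C →ₗ[ℂ] R) (s : C →ₗ[ℂ] S → ℂ) : C →ₗ[ℂ] (ι ⊕ S) → ℂ where
  toFun x := Sum.elim (r (p x)) (s x)
  map_add' x y := by
    ext i
    rcases i with i | i <;> simp
  map_smul' c x := by
    ext i
    rcases i with i | i <;> simp

theorem LT.collapse {c₂ : C₂ →ₗ[ℂ] κ₂ → ℂ} {c₁ : C₁ →ₗ[ℂ] κ₁ → ℂ}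
    {c₀ : C₀ →ₗ[ℂ] κ₀ → ℂ} {d₂ : C₂ →ₗ[ℂ] C₁} {d₁ : C₁ →ₗ[ℂ] C₀} {h₂ : C₂} {h₁ : C₁}
    {r₂ : R₂ →ₗ[ℂ] ι₂ → ℂ} {r₁ : R₁ →ₗ[ℂ] ι₁ → ℂ} {r₀ : R₀ →ₗ[ℂ] ι₀ → ℂ}
    {q₂ : R₂ →ₗ[ℂ] R₁} {q₁ : R₁ →ₗ[ℂ] R₀}
    (p₂ : C₂ →ₗ[ℂ] R₂) (p₁ : C₁ →ₗ[ℂ] R₁) (p₀ : C₀ →ₗ[ℂ] R₀)
    (s₂ : C₂ →ₗ[ℂ] S₂ → ℂ) (s₁ : C₁ →ₗ[ℂ] S₁ → ℂ) (s₀ : C₀ →ₗ[ℂ] S₀ → ℂ)
    (hd : ∀ x, d₁ (d₂ x) = 0) (hz₂ : d₂ h₂ = 0) (hz₁ : d₁ h₁ = 0)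
    (m₂ : ∀ x, p₁ (d₂ x) = q₂ (p₂ x)) (m₁ : ∀ x, p₀ (d₁ x) = q₁ (p₁ x))
    (j₂ : Function.Bijective fun x => (p₂ x, s₂ x))
    (j₁ : Function.Bijective fun x => (p₁ x, s₁ x))
    (j₀ : Function.Bijective fun x => (p₀ x, s₀ x))
    (K₂ : Matrix S₁ S₂ ℂ) (K₁ : Matrix S₀ S₁ ℂ)
    (n₂ : ∀ x, p₂ x = 0 → s₁ (d₂ x) = K₂ *ᵥ s₂ x) (n₁ : ∀ x, p₁ x = 0 → s₀ (d₁ x) = K₁ *ᵥ s₁ x)
    (b : Matrix S₁ S₀ ℂ) (hb : K₁ * b = 1) (hs : sqdet (fromCols K₂ b) = 1)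
    (hS : Fintype.card S₁ = Fintype.card S₂ + Fintype.card S₀)
    (G₂ : Matrix (ι₂ ⊕ S₂) κ₂ ℂ) (G₁ : Matrix (ι₁ ⊕ S₁) κ₁ ℂ) (G₀ : Matrix (ι₀ ⊕ S₀) κ₀ ℂ)
    (e₂ : Fintype.card (ι₂ ⊕ S₂) = Fintype.card κ₂) (e₁ : Fintype.card (ι₁ ⊕ S₁) = Fintype.card κ₁)
    (e₀ : Fintype.card (ι₀ ⊕ S₀) = Fintype.card κ₀)
    (g₂ : sqdet G₂ = 1) (g₁ : sqdet G₁ = 1) (g₀ : sqdet G₀ = 1)
    (hG₂ : ∀ x, Sum.elim (r₂ (p₂ x)) (s₂ x) = G₂ *ᵥ c₂ x)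
    (hG₁ : ∀ x, Sum.elim (r₁ (p₁ x)) (s₁ x) = G₁ *ᵥ c₁ x)
    (hG₀ : ∀ x, Sum.elim (r₀ (p₀ x)) (s₀ x) = G₀ *ᵥ c₀ x) (t : ℂ) :
    LT c₂ c₁ c₀ d₂ d₁ h₂ h₁ t ↔ LT r₂ r₁ r₀ q₂ q₁ (p₂ h₂) (p₁ h₁) t :=
  (LT.coords (a₂ := pairL r₂ p₂ s₂) (a₁ := pairL r₁ p₁ s₁) (a₀ := pairL r₀ p₀ s₀)
    G₂ G₁ G₀ e₂ e₁ e₀ g₂ g₁ g₀ hG₂ hG₁ hG₀ t).trans
    (LT.collapse₀ hd hz₂ hz₁ (fun _ => rfl) (fun _ => rfl) (fun _ => rfl) m₂ m₁ j₂ j₁ j₀ K₂ K₁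
      n₂ n₁ b hb hs hS t)

end Main

end Run7.h360
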