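import Pool.Agent.H15_OneLoop.Basic

/-!
# Ideal triangulations with flat bundles and peripheral cycles, their torsion and their moves

The definitions of `Pool.Agent.H15_OneLoop.Basic` for tetrahedra indexed by an arbitrary type, the
adjoint torsion of an ideal triangulation with an arbitrary flat bundle (no shapes), and the
2-3 Pachner moves.
-/

set_option autoImplicit false

namespace Run7.h360

open Matrix Pool.Agent.H15_OneLoop

/-- Oriented tetrahedra, indexed by `J`, each with vertices `0, 1, 2, 3` in the order of its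
orientation, whose faces are glued in pairs. The face of tetrahedron `j` opposite to its vertex
`a` is glued to the face of tetrahedron `adj j a` opposite to its vertex `glue j a a`; the gluing
map sends the vertex `v ≠ a` to the vertex `glue j a v`, and it reverses the orientation of the
faces. No face is glued to itself. -/
structure Tri (J : Type) where
  /-- the tetrahedron on the other side of the face opposite to `a` -/
  adj : J → Fin 4 → J
  /-- the gluing map, as a permutation of the vertices -/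
  glue : J → Fin 4 → Equiv.Perm (Fin 4)
  adj_adj : ∀ j a, adj (adj j a) (glue j a a) = j
  glue_glue : ∀ j a, glue (adj j a) (glue j a a) = (glue j a)⁻¹
  odd : ∀ j a, Equiv.Perm.sign (glue j a) = -1
  ne_self : ∀ j a, ¬ (adj j a = j ∧ glue j a a = a)

variable {J : Type}

/-- The identifications of edges of tetrahedra: `(j, v, w)` is the edge of tetrahedron `j`
between its vertices `v` and `w`. -/
inductive Tri.EdgeStep (T : Tri J) : J × Fin 4 × Fin 4 → J × Fin 4 × Fin 4 → Prop
  | flip (j : J) (v w : Fin 4) : EdgeStep T (j, v, w) (j, w, v)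
  | cross (j : J) (a v w : Fin 4) (hv : v ≠ a) (hw : w ≠ a) :
      EdgeStep T (j, v, w) (T.adj j a, T.glue j a v, T.glue j a w)

/-- A choice of one of the two sides of each face. -/
def Tri.IsFaceSel {Φ : Type} (T : Tri J) (φ : Φ → J × Fin 4) : Prop :=
  ∀ j a, ∃! F, φ F = (j, a) ∨ φ F = (T.adj j a, T.glue j a a)

/-- A choice of an oriented edge of a tetrahedron for each edge of the triangulation. -/
def Tri.IsEdgeSel {E : Type} (T : Tri J) (ε : E → J × Fin 4 × Fin 4) : Prop :=
  (∀ e, (ε e).2.1 ≠ (ε e).2.2) ∧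
    ∀ j v w, v ≠ w → ∃! e, Relation.EqvGen T.EdgeStep (ε e) (j, v, w)

/-- An integral `1`-cycle in the cell decomposition of the cusp cross section dual to the
triangulation: `c j v a` is the multiplicity with which the cycle leaves the triangle at the
ideal vertex `v` of tetrahedron `j` through its side on the face opposite to `a`. -/
structure Tri.IsCycle (T : Tri J) (c : J → Fin 4 → Fin 4 → ℤ) : Prop where
  diag : ∀ j a, c j a a = 0
  anti : ∀ j v a, v ≠ a → c (T.adj j a) (T.glue j a v) (T.glue j a a) = -c j v a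
  div : ∀ j v, ∑ a, c j v a = 0

/-! ### The twisted chain complex of the dual spine -/

/-- The `0`-chains. -/
def Ch₀ (u : J → Mat2) : Prop := ∀ j, (u j).trace = 0

/-- The `1`-chains; `A j a` is the parallel transport of the bundle across the face opposite to
the vertex `a` of tetrahedron `j`, from tetrahedron `j` to its neighbour. -/
def Tri.Ch₁ (T : Tri J) (A : J → Fin 4 → Mat2) (y : J → Fin 4 → Mat2) : Prop :=
  (∀ j a, (y j a).trace = 0) ∧
    ∀ j a, y (T.adj j a) (T.glue j a a) = -(A j a * y j a * (A j a)⁻¹)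

/-- The `2`-chains. -/
def Tri.Ch₂ (T : Tri J) (A : J → Fin 4 → Mat2) (x : J → Fin 4 → Fin 4 → Mat2) : Prop :=
  (∀ j v w, (x j v w).trace = 0) ∧ (∀ j v w, x j w v = -x j v w) ∧
    ∀ j a v w, v ≠ a → w ≠ a →
      x (T.adj j a) (T.glue j a v) (T.glue j a w) = A j a * x j v w * (A j a)⁻¹

/-- The boundary of `2`-chains. -/
def del₂ (x : J → Fin 4 → Fin 4 → Mat2) : J → Fin 4 → Mat2 :=
  fun j a => ∑ σ ∈ evenAt a, x j (σ 0) (σ 1)

/-- The boundary of `1`-chains. -/
def del₁ (y : J → Fin 4 → Mat2) : J → Mat2 :=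
  fun j => -∑ a, y j a

/-- `P` is a nonzero parallel section of the bundle over the cusp. -/
structure Tri.IsCuspInv (T : Tri J) (A P : J → Fin 4 → Mat2) : Prop where
  trace_eq : ∀ j v, (P j v).trace = 0
  parallel : ∀ j a v, v ≠ a → P (T.adj j a) (T.glue j a v) = A j a * P j v * (A j a)⁻¹
  ne_zero : ∃ j v, P j v ≠ 0

/-- The `2`-cycle `[∂M] ⊗ P`. -/
def cuspTwo (P : J → Fin 4 → Mat2) : J → Fin 4 → Fin 4 → Mat2 :=
  fun j v w => P j v - P j w

/-- The `1`-cycle `c ⊗ P`. -/
noncomputable def cuspOne (c : J → Fin 4 → Fin 4 → ℤ) (P : J → Fin 4 → Mat2) : J → Fin 4 → Mat2 :=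
  fun j a => ∑ v, (c j v a : ℂ) • P j v

/-- Coordinates of `2`-chains. -/
def co₂ {E : Type} (ε : E → J × Fin 4 × Fin 4) (x : J → Fin 4 → Fin 4 → Mat2) :
    E × Fin 3 → ℂ :=
  fun p => coord (x (ε p.1).1 (ε p.1).2.1 (ε p.1).2.2) p.2

/-- Coordinates of `1`-chains. -/
def co₁ {Φ : Type} (φ : Φ → J × Fin 4) (y : J → Fin 4 → Mat2) : Φ × Fin 3 → ℂ :=
  fun p => coord (y (φ p.1).1 (φ p.1).2) p.2

/-- Coordinates of `0`-chains. -/
def co₀ {V : Type} (ν : V → J) (u : J → Mat2) : V × Fin 3 → ℂ :=
  fun p => coord (u (ν p.1)) p.2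

/-! ### Triangulated manifolds with a flat bundle and a peripheral cycle -/

/-- A triangulation by ideal tetrahedra, a flat bundle over the complement of the ideal vertices,
given by its parallel transport `A j a ∈ GL₂(ℂ)` (only the adjoint action matters) across the
faces, and an integral peripheral `1`-cycle. -/
structure Framed where
  J : Type
  tri : Tri J
  A : J → Fin 4 → Mat2
  unit : ∀ j a, IsUnit (A j a).det
  c : J → Fin 4 → Fin 4 → ℤ
  cycle : tri.IsCycle c

/-- `τ` is a value of the adjoint torsion with respect to the peripheral cycle: the torsion of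
the dual spine, with coefficients in the flat bundle, with the bases `[∂M] ⊗ P` and `c ⊗ P` of the
second and the first homology. -/
def Framed.IsTorsion (X : Framed) (τ : ℂ) : Prop :=
  ∃ (P : X.J → Fin 4 → Mat2) (n₀ n₁ n₂ : ℕ) (ν : Fin n₀ ≃ X.J) (φ : Fin n₁ → X.J × Fin 4)
    (ε : Fin n₂ → X.J × Fin 4 × Fin 4),
    X.tri.IsCuspInv X.A P ∧ X.tri.IsFaceSel φ ∧ X.tri.IsEdgeSel ε ∧
      IsBasedTorsion (X.tri.Ch₂ X.A) (X.tri.Ch₁ X.A) Ch₀ (co₂ ε) (co₁ φ) (co₀ ν) del₂ del₁
        (cuspTwo P) (cuspOne X.c P) τ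

/-- An isomorphism: a bijection of the tetrahedra with even renumberings of their vertices, which
respects the gluings; the bundles correspond to each other after a change of gauge `g` (and
scalars `s`) and the peripheral cycles differ by the boundary of `h`. -/
structure Framed.Iso (X Y : Framed) where
  e : X.J ≃ Y.J
  ρ : X.J → Equiv.Perm (Fin 4)
  even : ∀ j, Equiv.Perm.sign (ρ j) = 1
  adj : ∀ j a, Y.tri.adj (e j) (ρ j a) = e (X.tri.adj j a)
  glue : ∀ j a, Y.tri.glue (e j) (ρ j a) * ρ j = ρ (X.tri.adj j a) * X.tri.glue j a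
  g : X.J → Mat2
  unit : ∀ j, IsUnit (g j).det
  s : X.J → Fin 4 → ℂ
  s_ne : ∀ j a, s j a ≠ 0
  bundle : ∀ j a, Y.A (e j) (ρ j a) = s j a • (g (X.tri.adj j a) * X.A j a * (g j)⁻¹)
  h : X.J → Fin 4 → Fin 4 → ℤ
  h_glue : ∀ j a v w, v ≠ a → w ≠ a → v ≠ w →
    h (X.tri.adj j a) (X.tri.glue j a v) (X.tri.glue j a w) = h j v w
  cycle : ∀ j (σ : Equiv.Perm (Fin 4)), Equiv.Perm.sign σ = 1 →
    Y.c (e j) (ρ j (σ 0)) (ρ j (σ 2)) = X.c j (σ 0) (σ 2) + (h j (σ 0) (σ 1) - h j (σ 0) (σ 3))

/-! ### Pachner moves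

The boundary of the `4`-simplex with vertices `0, …, 4` has the five facets `m = 0, …, 4`, where
the facet `m` has all the vertices but `m`. The facets `3` and `4` form the bipyramid divided into
two tetrahedra, the facets `0`, `1` and `2` the same bipyramid divided into three tetrahedra around
the edge `34`. -/

/-- `lab m v` is the vertex of the `4`-simplex which is the vertex `v` of the facet `m`. The order
of the vertices is such that all the tetrahedra of the bipyramid have the same orientation. -/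
def lab : Fin 5 → Fin 4 → Fin 5 :=
  ![![1, 2, 3, 4], ![0, 2, 4, 3], ![0, 1, 3, 4], ![0, 1, 2, 4], ![0, 1, 3, 2]]

/-- The facets of the division into two tetrahedra. -/
def top : Fin 2 → Fin 5 := ![3, 4]

/-- The facets of the division into three tetrahedra. -/
def low : Fin 3 → Fin 5 := ![0, 1, 2]

/-- `Match j j' κ a`: the face opposite to `a` of the tetrahedron `j` is the same face as the face
opposite to `κ a` of the tetrahedron `j'`, with the vertices `v` and `κ v` the same. This holds
for the tetrahedra `ρ` outside the bipyramid, and for the six faces of the boundary of the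
bipyramid. -/
inductive Match {ρ : Type} : ρ ⊕ Fin 2 → ρ ⊕ Fin 3 → Equiv.Perm (Fin 4) → Fin 4 → Prop
  | rest (r : ρ) (a : Fin 4) : Match (Sum.inl r) (Sum.inl r) 1 a
  | shell (s : Fin 2) (i : Fin 3) (κ : Equiv.Perm (Fin 4)) (a : Fin 4)
      (ha : lab (top s) a = low i)
      (hκ : ∀ v, lab (low i) (κ v) = Equiv.swap (top s) (low i) (lab (top s) v)) :
      Match (Sum.inr s) (Sum.inr i) κ a

/-- `T'` arises from `T` by a 2-3 Pachner move: the two tetrahedra `Sum.inr s` of `T`, which share a
face, are replaced by the three tetrahedra `Sum.inr i` of `T'`, which share an edge. The bundles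
`A`, `A'` are trivialised on the bipyramid and agree elsewhere, and the peripheral cycles `c`, `c'`
cross all the faces outside the interior of the bipyramid in the same way. -/
structure IsPachner {ρ : Type} (T : Tri (ρ ⊕ Fin 2)) (T' : Tri (ρ ⊕ Fin 3))
    (A : ρ ⊕ Fin 2 → Fin 4 → Mat2) (A' : ρ ⊕ Fin 3 → Fin 4 → Mat2)
    (c : ρ ⊕ Fin 2 → Fin 4 → Fin 4 → ℤ) (c' : ρ ⊕ Fin 3 → Fin 4 → Fin 4 → ℤ) : Prop where
  inner₂ : ∀ s s', s ≠ s' → ∀ a, lab (top s) a = top s' →
    T.adj (Sum.inr s) a = Sum.inr s' ∧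
    (∀ v, lab (top s') (T.glue (Sum.inr s) a v) =
      Equiv.swap (top s) (top s') (lab (top s) v)) ∧ A (Sum.inr s) a = 1
  inner₃ : ∀ i i', i ≠ i' → ∀ a, lab (low i) a = low i' →
    T'.adj (Sum.inr i) a = Sum.inr i' ∧
    (∀ v, lab (low i') (T'.glue (Sum.inr i) a v) =
      Equiv.swap (low i) (low i') (lab (low i) v)) ∧ A' (Sum.inr i) a = 1
  outer : ∀ j j' κ a, Match j j' κ a →
    (∃ κ₂, Match (T.adj j a) (T'.adj j' (κ a)) κ₂ (T.glue j a a) ∧
      T'.glue j' (κ a) * κ = κ₂ * T.glue j a) ∧
    A' j' (κ a) = A j a ∧ ∀ v, v ≠ a → c' j' (κ v) (κ a) = c j v a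

/-- The elementary moves. -/
inductive Framed.Step : Framed → Framed → Prop
  | iso {X Y : Framed} (i : Framed.Iso X Y) : Step X Y
  | pachner {ρ : Type} {T : Tri (ρ ⊕ Fin 2)} {T' : Tri (ρ ⊕ Fin 3)}
      {A : ρ ⊕ Fin 2 → Fin 4 → Mat2} {A' : ρ ⊕ Fin 3 → Fin 4 → Mat2}
      {c : ρ ⊕ Fin 2 → Fin 4 → Fin 4 → ℤ} {c' : ρ ⊕ Fin 3 → Fin 4 → Fin 4 → ℤ}
      {hA : ∀ j a, IsUnit (A j a).det} {hA' : ∀ j a, IsUnit (A' j a).det}
      {hc : T.IsCycle c} {hc' : T'.IsCycle c'} (h : IsPachner T T' A A' c c') :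
      Step ⟨ρ ⊕ Fin 2, T, A, hA, c, hc⟩ ⟨ρ ⊕ Fin 3, T', A', hA', c', hc'⟩

/-- `X` and `Y` are triangulations of the same manifold with the same flat bundle and homologous
peripheral cycles: they are connected by isomorphisms, 2-3 moves and their inverses. -/
def Framed.Equiv (X Y : Framed) : Prop := Relation.EqvGen Framed.Step X Y

end Run7.h360
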