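import Pool.Agent.H15_OneLoop.Scale

/-!
# The scale of the cusp triangles for a solution of the gluing and completeness equations with
nondegenerate shapes (adapted from `Pool.Agent.H15_OneLoop.Scale`, which assumes positive
imaginary parts)
-/

set_option autoImplicit false

namespace Run7.h360

open Pool.Agent.H15_OneLoop

variable {N : ℕ}

/-- Nondegenerate shapes which solve the completeness equations of all closed peripheral curves in
normal position. -/
structure Reg (T : IdealTriangulation N) (z : Fin N → ℂ) : Prop where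
  ne_zero : ∀ j, z j ≠ 0
  ne_one : ∀ j, z j ≠ 1
  complete : ∀ γ : NormalCurve T.toGluing, ∏ k, ∏ j, par (z j) k ^ γ.C k j = 1

theorem scD_ne {z : Fin N → ℂ} (hz0 : ∀ j, z j ≠ 0) (hz1 : ∀ j, z j ≠ 1) (j : Fin N) {v a : Fin 4} (h : v ≠ a) :
    scD z j v a ≠ 0 := by
  obtain ⟨h1, -, h3, -, h5⟩ := lft_ne v a h
  have h0 : z j ≠ 0 := hz0 j
  have h01 : z j ≠ 1 := hz1 j
  exact dis_ne h0 h01 _ one_ne_zero h3.symm h1.symm h5.symm

theorem sc_ratio {z : Fin N → ℂ} (hz0 : ∀ j, z j ≠ 0) (hz1 : ∀ j, z j ≠ 1) (j : Fin N)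
    (σ : Equiv.Perm (Fin 4)) :
    scD z j (σ 0) (σ 2) = -(par (z j) (kind (σ 0) (σ 1)) ^ ((Equiv.Perm.sign σ : ℤˣ) : ℤ)) *
      scD z j (σ 0) (σ 3) := by
  have h0 : z j ≠ 0 := hz0 j
  have h01 : z j ≠ 1 := hz1 j
  have even : ∀ σ : Equiv.Perm (Fin 4), Equiv.Perm.sign σ = 1 →
      scD z j (σ 0) (σ 2) = -(par (z j) (kind (σ 0) (σ 1))) * scD z j (σ 0) (σ 3) := by
    intro σ hσ
    obtain ⟨e1, e2⟩ := lft_rgt_of_even σ hσ
    have hodd : Equiv.Perm.sign (σ * Equiv.swap 2 3) = -1 := by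
      rw [Equiv.Perm.sign_mul, hσ, Equiv.Perm.sign_swap (by decide)]
      rfl
    obtain ⟨e3, e4⟩ := lft_rgt_of_odd _ hodd
    have f0 : (σ * Equiv.swap (2 : Fin 4) 3) 0 = σ 0 := by
      rw [Equiv.Perm.mul_apply, Equiv.swap_apply_of_ne_of_ne (by decide) (by decide)]
    have f1 : (σ * Equiv.swap (2 : Fin 4) 3) 1 = σ 1 := by
      rw [Equiv.Perm.mul_apply, Equiv.swap_apply_of_ne_of_ne (by decide) (by decide)]
    have f2 : (σ * Equiv.swap (2 : Fin 4) 3) 2 = σ 3 := by
      rw [Equiv.Perm.mul_apply, Equiv.swap_apply_left]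
    have f3 : (σ * Equiv.swap (2 : Fin 4) 3) 3 = σ 2 := by
      rw [Equiv.Perm.mul_apply, Equiv.swap_apply_right]
    rw [f0, f2, f3] at e3
    rw [f0, f2, f1] at e4
    have hne : σ 0 ≠ σ 2 := fun h => absurd (σ.injective h) (by decide)
    have hr := dis_ratio h0 h01 (fun _ => 1) (fun _ => one_ne_zero) hne
    rw [e1, e2] at hr
    unfold scD
    rw [e1, e2, e3, e4, dis_antisymm (z j) (fun _ => 1) (σ 0) (σ 1) (σ 3), hr]
    ring
  rcases Int.units_eq_one_or (Equiv.Perm.sign σ) with h | h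
  · rw [h, even σ h]
    simp
  · have hev : Equiv.Perm.sign (σ * Equiv.swap 2 3) = 1 := by
      rw [Equiv.Perm.sign_mul, h, Equiv.Perm.sign_swap (by decide)]
      rfl
    have he := even _ hev
    have f0 : (σ * Equiv.swap (2 : Fin 4) 3) 0 = σ 0 := by
      rw [Equiv.Perm.mul_apply, Equiv.swap_apply_of_ne_of_ne (by decide) (by decide)]
    have f1 : (σ * Equiv.swap (2 : Fin 4) 3) 1 = σ 1 := by
      rw [Equiv.Perm.mul_apply, Equiv.swap_apply_of_ne_of_ne (by decide) (by decide)]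
    have f2 : (σ * Equiv.swap (2 : Fin 4) 3) 2 = σ 3 := by
      rw [Equiv.Perm.mul_apply, Equiv.swap_apply_left]
    have f3 : (σ * Equiv.swap (2 : Fin 4) 3) 3 = σ 2 := by
      rw [Equiv.Perm.mul_apply, Equiv.swap_apply_right]
    rw [f0, f1, f2, f3] at he
    have hne : σ 0 ≠ σ 3 := fun h => absurd (σ.injective h) (by decide)
    have hp : par (z j) (kind (σ 0) (σ 1)) ≠ 0 := by
      intro hp
      rw [hp] at he
      exact scD_ne hz0 hz1 j hne (by rw [he]; ring)
    rw [h, he]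
    simp only [Units.val_neg, Units.val_one, zpow_neg, zpow_one]
    field_simp

theorem sc_par_ne {z : Fin N → ℂ} (hz0 : ∀ j, z j ≠ 0) (hz1 : ∀ j, z j ≠ 1) (j : Fin N) (k : Fin 3) :
    par (z j) k ≠ 0 := by
  have h0 : z j ≠ 0 := hz0 j
  have h01 : z j ≠ 1 := hz1 j
  have h2 : (1 : ℂ) - z j ≠ 0 := sub_ne_zero.2 h01.symm
  have h3 : z j - 1 ≠ 0 := sub_ne_zero.2 h01
  fin_cases k
  · simpa [par] using h0
  · simpa [par] using h2
  · simp only [par]
    simp
    intro h
    apply h3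
    have h4 := congrArg (fun t => t * z j) h
    simp only [zero_mul, sub_mul, inv_mul_cancel₀ h0, one_mul] at h4
    exact h4


theorem sc_closed_curve (T : IdealTriangulation N) {z : Fin N → ℂ} (S : Reg T z)
    (γ : NormalCurve T.toGluing) :
    ∏ i ∈ Finset.range γ.len, par (z (γ.tet i)) (kind (γ.arc i 0) (γ.arc i 1)) ^
      ((Equiv.Perm.sign (γ.arc i) : ℤˣ) : ℤ) = 1 := by
  rw [← S.complete γ]
  have h1 : ∀ k j, par (z j) k ^ γ.C k j = ∏ i ∈ Finset.range γ.len, par (z j) k ^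
      (if γ.tet i = j ∧ kind (γ.arc i 0) (γ.arc i 1) = k then
        ((Equiv.Perm.sign (γ.arc i) : ℤˣ) : ℤ) else 0) := by
    intro k j
    unfold NormalCurve.C
    exact sc_zpow_sum (sc_par_ne S.ne_zero S.ne_one j k) _ _
  simp only [h1]
  have h2 : ∀ k : Fin 3, ∏ j, ∏ i ∈ Finset.range γ.len, par (z j) k ^
      (if γ.tet i = j ∧ kind (γ.arc i 0) (γ.arc i 1) = k then
        ((Equiv.Perm.sign (γ.arc i) : ℤˣ) : ℤ) else 0) =
      ∏ i ∈ Finset.range γ.len, ∏ j, par (z j) k ^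
      (if γ.tet i = j ∧ kind (γ.arc i 0) (γ.arc i 1) = k then
        ((Equiv.Perm.sign (γ.arc i) : ℤˣ) : ℤ) else 0) := fun k => Finset.prod_comm
  simp only [h2]
  rw [Finset.prod_comm]
  refine Finset.prod_congr rfl fun i _ => ?_
  symm
  rw [Finset.prod_eq_single (kind (γ.arc i 0) (γ.arc i 1))]
  · rw [Finset.prod_eq_single (γ.tet i)]
    · simp
    · intro j _ hj
      rw [if_neg (by intro h; exact hj h.1.symm), zpow_zero]
    · simp
  · intro k _ hk
    refine Finset.prod_eq_one fun j _ => ?_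
    rw [if_neg (by intro h; exact hk h.2.symm), zpow_zero]
  · simp

theorem sc_closed (T : IdealTriangulation N) {z : Fin N → ℂ} (S : Reg T z)
    (x : Fin N × Equiv.Perm (Fin 4)) (c : ℕ → Bool) (n : ℕ) (hn : 0 < n)
    (hclosed : scSeq T.toGluing x c n = x) :
    ∏ i ∈ Finset.range n, scM T.toGluing z (scSeq T.toGluing x c i) = 1 := by
  set c' : ℕ → Bool := fun i => c (i % n) with hc'
  have hcc : ∀ i < n, c i = c' i := fun i hi => by simp [hc', Nat.mod_eq_of_lt hi]
  have hseq := scSeq_congr T.toGluing x hcc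
  have hclosed' : scSeq T.toGluing x c' n = x := (hseq n le_rfl).symm.trans hclosed
  have hper : ∀ i, scSeq T.toGluing x c' (i + n) = scSeq T.toGluing x c' i := by
    intro i
    induction i with
    | zero => rw [zero_add]; exact hclosed'
    | succ i ih =>
      have e : i + 1 + n = (i + n) + 1 := by ring
      rw [e]
      show scStep T.toGluing (c' (i + n)) (scSeq T.toGluing x c' (i + n)) =
        scStep T.toGluing (c' i) (scSeq T.toGluing x c' i)
      rw [ih]
      have : c' (i + n) = c' i := by simp [hc']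
      rw [this]
  set y := scSeq T.toGluing x c' with hy
  have hprod : ∏ i ∈ Finset.range n, scM T.toGluing z (scSeq T.toGluing x c i) =
      ∏ i ∈ Finset.range n, scM T.toGluing z (y i) := by
    refine Finset.prod_congr rfl fun i hi => ?_
    rw [hseq i (Finset.mem_range.mp hi).le]
  rw [hprod]
  let γ : NormalCurve T.toGluing :=
    { len := n
      len_pos := hn
      tet := fun i => (y i).1
      arc := fun i => (y i).2
      tet_succ := fun i => rfl
      vertex_succ := fun i => scStep_zero T.toGluing (c' i) (y i)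
      enter_succ := fun i => scStep_three T.toGluing (c' i) (y i)
      tet_period := fun i => by rw [hper]
      arc_period := fun i => by rw [hper] }
  have hγ := sc_closed_curve T S γ
  set e : ℕ → ℂ := fun i => scD z (y i).1 ((y i).2 0) ((y i).2 3) with he
  have hne : ∀ i, e i ≠ 0 := fun i =>
    scD_ne S.ne_zero S.ne_one _ (fun h => absurd ((y i).2.injective h) (by decide))
  have hm : ∀ i, scM T.toGluing z (y i) =
      par (z (γ.tet i)) (kind (γ.arc i 0) (γ.arc i 1)) ^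
        ((Equiv.Perm.sign (γ.arc i) : ℤˣ) : ℤ) * (e i / e (i + 1)) := by
    intro i
    have h1 : e (i + 1) = scD z (T.adj (y i).1 ((y i).2 2))
        (T.glue (y i).1 ((y i).2 2) ((y i).2 0)) (T.glue (y i).1 ((y i).2 2) ((y i).2 2)) := by
      show scD z (scStep T.toGluing (c' i) (y i)).1 ((scStep T.toGluing (c' i) (y i)).2 0)
        ((scStep T.toGluing (c' i) (y i)).2 3) = _
      rw [scStep_zero, scStep_three]
      rfl
    unfold scM
    rw [← h1, sc_ratio S.ne_zero S.ne_one (y i).1 (y i).2]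
    simp only [he, γ]
    ring
  have htel : ∏ i ∈ Finset.range n, (e i / e (i + 1)) = e 0 / e n := by
    clear hprod hγ
    have : ∀ n : ℕ, ∏ i ∈ Finset.range n, (e i / e (i + 1)) = e 0 / e n := by
      intro n
      induction n with
      | zero => simp [div_self (hne 0)]
      | succ n ih =>
        rw [Finset.prod_range_succ, ih]
        have := hne n
        field_simp
    exact this n
  rw [Finset.prod_congr rfl fun i _ => hm i, Finset.prod_mul_distrib, htel]
  have hen : e n = e 0 := by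
    have := hper 0
    rw [zero_add] at this
    simp only [he, this]
  have hγ' : ∏ i ∈ Finset.range n, par (z (γ.tet i)) (kind (γ.arc i 0) (γ.arc i 1)) ^
      ((Equiv.Perm.sign (γ.arc i) : ℤˣ) : ℤ) = 1 := hγ
  rw [hγ', hen, div_self (hne 0), one_mul]

theorem pth_closed {T : IdealTriangulation N} {z : Fin N → ℂ} (S : Reg T z)
    {x : Fin N × Equiv.Perm (Fin 4)} {c : ℂ} (h : ScPth T.toGluing z x x c) : c = 1 := by
  obtain ⟨n, f, h1, h2⟩ := h.seq
  rcases Nat.eq_zero_or_pos n with h0 | h0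
  · rw [← h2, h0]
    simp
  · rw [← h2]
    exact sc_closed T S x f n h0 h1

theorem pth_unique {T : IdealTriangulation N} {z : Fin N → ℂ} (S : Reg T z)
    {x y : Fin N × Equiv.Perm (Fin 4)} {c c' : ℂ} (h : ScPth T.toGluing z x y c)
    (h' : ScPth T.toGluing z x y c') : c = c' := by
  obtain ⟨d, hd⟩ := h.rev
  have e1 := pth_closed S (h.trans hd)
  have e2 := pth_closed S (h'.trans hd)
  have hd0 : d ≠ 0 := by
    intro h0
    rw [h0, mul_zero] at e1
    exact zero_ne_one e1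
  exact mul_right_cancel₀ hd0 (e1.trans e2.symm)

theorem pth_ne_zero {T : IdealTriangulation N} {z : Fin N → ℂ} (S : Reg T z)
    {x y : Fin N × Equiv.Perm (Fin 4)} {c : ℂ} (h : ScPth T.toGluing z x y c) : c ≠ 0 := by
  obtain ⟨d, hd⟩ := h.rev
  have e1 := pth_closed S (h.trans hd)
  intro h0
  rw [h0, zero_mul] at e1
  exact zero_ne_one e1

theorem pth_sw12 {T : IdealTriangulation N} {z : Fin N → ℂ} (S : Reg T z)
    {x y : Fin N × Equiv.Perm (Fin 4)} {c : ℂ} (h : ScPth T.toGluing z x y c) :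
    ScPth T.toGluing z x (y.1, y.2 * Equiv.swap 1 2) c := by
  obtain ⟨u, hu⟩ := (Finite.injective_iff_surjective.mp (scStep_injective T.toGluing true)) y
  obtain ⟨d, hd⟩ := ScPth.rev_step T.toGluing z true u
  have h1 := ScPth.step T.toGluing z false u
  have h2 := ScPth.step T.toGluing z true u
  rw [hu] at hd h2
  have e1 : d * scM T.toGluing z u = 1 := pth_closed S (hd.trans h2)
  have h3 := (h.trans hd).trans h1
  rw [mul_assoc, e1, mul_one] at h3
  have e2 : scStep T.toGluing false u = (y.1, y.2 * Equiv.swap 1 2) := by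
    rw [← hu]
    simp only [scStep, scTau]
    refine Prod.ext rfl ?_
    simp only [mul_assoc]
    rw [Equiv.swap_mul_self, mul_one]
  rwa [e2] at h3

theorem pth_sw13 {T : IdealTriangulation N} {z : Fin N → ℂ} (S : Reg T z)
    {x y : Fin N × Equiv.Perm (Fin 4)} {c : ℂ} (h : ScPth T.toGluing z x y c) :
    ScPth T.toGluing z x (y.1, y.2 * Equiv.swap 1 3) c := by
  set y' : Fin N × Equiv.Perm (Fin 4) := (y.1, y.2 * Equiv.swap 1 3) with hy'
  have f0 : y'.2 0 = y.2 0 := by
    simp only [hy', Equiv.Perm.mul_apply]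
    rw [Equiv.swap_apply_of_ne_of_ne (by decide) (by decide)]
  have f2 : y'.2 2 = y.2 2 := by
    simp only [hy', Equiv.Perm.mul_apply]
    rw [Equiv.swap_apply_of_ne_of_ne (by decide) (by decide)]
  have hM : scM T.toGluing z y' = scM T.toGluing z y := by
    unfold scM
    rw [f0, f2]
  have hstep : scStep T.toGluing true y' = scStep T.toGluing false y := by
    unfold scStep
    rw [f2]
    refine Prod.ext rfl ?_
    simp only [hy', scTau, mul_assoc]
    congr 2
    decide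
  obtain ⟨d, hd⟩ := ScPth.rev_step T.toGluing z true y'
  have h1 := ScPth.step T.toGluing z true y'
  have e1 : scM T.toGluing z y' * d = 1 := pth_closed S (h1.trans hd)
  have h2 := h.trans (ScPth.step T.toGluing z false y)
  rw [hstep] at hd
  have h3 := h2.trans hd
  rw [mul_assoc, ← hM, e1, mul_one] at h3
  exact h3

theorem sc_perm_cases : ∀ τ : Equiv.Perm (Fin 4), τ 0 = 0 →
    τ = 1 ∨ τ = Equiv.swap 1 2 ∨ τ = Equiv.swap 1 3 ∨ τ = Equiv.swap 1 2 * Equiv.swap 1 3 ∨
      τ = Equiv.swap 1 3 * Equiv.swap 1 2 ∨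
      τ = Equiv.swap 1 2 * Equiv.swap 1 3 * Equiv.swap 1 2 := by
  decide

theorem pth_same {T : IdealTriangulation N} {z : Fin N → ℂ} (S : Reg T z)
    {x : Fin N × Equiv.Perm (Fin 4)} {j : Fin N} {σ σ' : Equiv.Perm (Fin 4)} {c : ℂ}
    (h : ScPth T.toGluing z x (j, σ) c) (h0 : σ 0 = σ' 0) :
    ScPth T.toGluing z x (j, σ') c := by
  have hτ : (σ⁻¹ * σ') 0 = 0 := by
    rw [Equiv.Perm.mul_apply, ← h0]
    exact σ.symm_apply_apply 0
  have hσ' : σ' = σ * (σ⁻¹ * σ') := by group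
  rcases sc_perm_cases _ hτ with e | e | e | e | e | e <;> rw [e] at hσ' <;> rw [hσ']
  · rwa [mul_one]
  · exact pth_sw12 S h
  · exact pth_sw13 S h
  · rw [← mul_assoc]
    exact pth_sw13 S (pth_sw12 S h)
  · rw [← mul_assoc]
    exact pth_sw12 S (pth_sw13 S h)
  · rw [← mul_assoc, ← mul_assoc]
    exact pth_sw12 S (pth_sw13 S (pth_sw12 S h))

theorem sc_connected (T : IdealTriangulation N) {z : Fin N → ℂ} (S : Reg T z)
    (p q : Fin N × Fin 4) : ∀ σ τ : Equiv.Perm (Fin 4), σ 0 = p.2 → τ 0 = q.2 →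
      ∃ c, ScPth T.toGluing z (p.1, σ) (q.1, τ) c := by
  have h := T.one_cusp p q
  induction h with
  | rel p q hpq =>
    intro σ τ hσ hτ
    obtain ⟨j, a, v, hv⟩ := hpq
    obtain ⟨ρ, hρ0, hρ2⟩ : ∃ ρ : Equiv.Perm (Fin 4), ρ 0 = v ∧ ρ 2 = a := by
      have : ∀ v a : Fin 4, v ≠ a → ∃ ρ : Equiv.Perm (Fin 4), ρ 0 = v ∧ ρ 2 = a := by decide
      exact this v a hv
    have h1 : ScPth T.toGluing z (j, σ) (j, ρ) 1 :=
      pth_same S ScPth.nil (hσ.trans hρ0.symm)
    have h2 := h1.trans (ScPth.step T.toGluing z true (j, ρ))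
    have e1 : (scStep T.toGluing true (j, ρ)).1 = T.adj j a := by
      show T.adj j (ρ 2) = _
      rw [hρ2]
    have e2 : (scStep T.toGluing true (j, ρ)).2 0 = T.glue j a v := by
      rw [scStep_zero]
      show T.glue j (ρ 2) (ρ 0) = _
      rw [hρ2, hρ0]
    obtain ⟨k, ρ', hk⟩ : ∃ k ρ', scStep T.toGluing true (j, ρ) = (k, ρ') := ⟨_, _, rfl⟩
    rw [hk] at h2 e1 e2
    have e1' : k = T.adj j a := e1
    have e2' : ρ' 0 = T.glue j a v := e2
    subst e1'
    exact ⟨_, pth_same S h2 (e2'.trans hτ.symm)⟩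
  | refl p =>
    intro σ τ hσ hτ
    exact ⟨_, pth_same S ScPth.nil (hσ.trans hτ.symm)⟩
  | symm p q _ ih =>
    intro σ τ hσ hτ
    obtain ⟨c, hc⟩ := ih τ σ hτ hσ
    exact hc.rev
  | trans p q w _ _ ih1 ih2 =>
    intro σ τ hσ hτ
    obtain ⟨ρ, hρ⟩ : ∃ ρ : Equiv.Perm (Fin 4), ρ 0 = q.2 := ⟨Equiv.swap 0 q.2, by simp⟩
    obtain ⟨c, hc⟩ := ih1 σ ρ hσ hρ
    obtain ⟨d, hd⟩ := ih2 ρ τ hρ hτ
    exact ⟨_, hc.trans hd⟩

/-- TARGET -/
theorem exists_scale (T : IdealTriangulation N) {z : Fin N → ℂ} (S : Reg T z) :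
    ∃ s : Fin N → Fin 4 → ℂ, (∀ j v, s j v ≠ 0) ∧
      ∀ j v a, v ≠ a →
        dis (z (T.adj j a)) (s (T.adj j a)) (T.glue j a v) (T.glue j a (rgt v a))
          (T.glue j a (lft v a)) = dis (z j) (s j) v (rgt v a) (lft v a) := by
  rcases Nat.eq_zero_or_pos N with hN | hN
  · subst hN
    exact ⟨fun _ _ => 1, fun j => j.elim0, fun j => j.elim0⟩
  set x₀ : Fin N × Equiv.Perm (Fin 4) := (⟨0, hN⟩, 1) with hx₀
  have hex : ∀ (j : Fin N) (v : Fin 4), ∃ c, ScPth T.toGluing z x₀ (j, Equiv.swap 0 v) c := by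
    intro j v
    exact sc_connected T S (⟨0, hN⟩, 0) (j, v) 1 (Equiv.swap 0 v) rfl (by simp)
  choose μ hμ using hex
  have hμ' : ∀ (j : Fin N) (σ : Equiv.Perm (Fin 4)),
      ScPth T.toGluing z x₀ (j, σ) (μ j (σ 0)) := fun j σ =>
    pth_same S (hμ j (σ 0)) (by simp)
  have hμ0 : ∀ j v, μ j v ≠ 0 := fun j v => pth_ne_zero S (hμ j v)
  have hcross : ∀ j v a, v ≠ a → μ (T.adj j a) (T.glue j a v) *
      scD z (T.adj j a) (T.glue j a v) (T.glue j a a) = -(μ j v * scD z j v a) := by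
    intro j v a hva
    obtain ⟨ρ, hρ0, hρ2⟩ : ∃ ρ : Equiv.Perm (Fin 4), ρ 0 = v ∧ ρ 2 = a := by
      have : ∀ v a : Fin 4, v ≠ a → ∃ ρ : Equiv.Perm (Fin 4), ρ 0 = v ∧ ρ 2 = a := by decide
      exact this v a hva
    have h1 := (hμ' j ρ).trans (ScPth.step T.toGluing z true (j, ρ))
    have h2 := hμ' (scStep T.toGluing true (j, ρ)).1 (scStep T.toGluing true (j, ρ)).2
    have h3 := pth_unique S h1 h2
    have e1 : (scStep T.toGluing true (j, ρ)).1 = T.adj j a := by
      show T.adj j (ρ 2) = _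
      rw [hρ2]
    have e2 : (scStep T.toGluing true (j, ρ)).2 0 = T.glue j a v := by
      rw [scStep_zero]
      show T.glue j (ρ 2) (ρ 0) = _
      rw [hρ2, hρ0]
    rw [e1, e2, hρ0] at h3
    rw [← h3]
    unfold scM
    simp only [hρ0, hρ2]
    have hne : scD z (T.adj j a) (T.glue j a v) (T.glue j a a) ≠ 0 :=
      scD_ne S.ne_zero S.ne_one _ fun h => hva ((T.glue j a).injective h)
    field_simp
  refine ⟨fun j v => (μ j v)⁻¹, fun j v => inv_ne_zero (hμ0 j v), fun j v a hva => ?_⟩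
  have hdis : ∀ (j : Fin N) (v x y : Fin 4), dis (z j) (fun v => (μ j v)⁻¹) v x y =
      μ j v * dis (z j) (fun _ => 1) v x y := by
    intro j v x y
    unfold dis
    rw [one_mul, mul_assoc, div_mul_eq_div_div, div_inv_eq_mul]
    ring
  rw [hdis, hdis]
  obtain ⟨g1, g2⟩ := lft_rgt_glue (T.glue j a) (T.odd j a) v a hva
  rw [← g1, ← g2, dis_antisymm]
  have := hcross j v a hva
  unfold scD at this
  linear_combination -this


end Run7.h360
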