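import Pool.Agent.H15_OneLoop.Main
import Pool.Agent.Run7.h360.Scale

/-!
# The torsion formula for nondegenerate, not necessarily positive, shapes
-/

set_option autoImplicit false

namespace Run7.h360

open Matrix Pool.Agent.H15_OneLoop

variable {N : ℕ}

/-- In a torsion datum the kernel of `d₂` is spanned by `h₂`. -/
theorem ker_of_torsion {C₂ C₁ C₀ ι₂ ι₁ ι₀ : Type} [AddCommGroup C₂] [Module ℂ C₂]
    [AddCommGroup C₁] [Module ℂ C₁] [AddCommGroup C₀] [Module ℂ C₀] [Fintype ι₂]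
    [DecidableEq ι₂] [Fintype ι₁] [DecidableEq ι₁] [Fintype ι₀] [DecidableEq ι₀]
    (c₂ : C₂ →ₗ[ℂ] ι₂ → ℂ)
    (c₁ : C₁ →ₗ[ℂ] ι₁ → ℂ) (c₀ : C₀ →ₗ[ℂ] ι₀ → ℂ) (d₂ : C₂ →ₗ[ℂ] C₁) (d₁ : C₁ →ₗ[ℂ] C₀)
    (h₂ : C₂) (h₁ : C₁) (τ : ℂ) (hτ : IsTorsion c₂ c₁ c₀ d₂ d₁ h₂ h₁ τ) (x : C₂)
    (hx : d₂ x = 0) : ∃ u : ℂ, x = u • h₂ := by
  classical
  obtain ⟨hc₂, -, -, hdh, -, -, κ₂, κ₁, b₂, b₁, e₂, e₁, e₀, hD₂, hD₁, hD₀, -⟩ := hτ
  have : Finite (Unit ⊕ κ₂) := Finite.of_equiv ι₂ e₂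
  have : Finite κ₂ := Finite.of_injective (Sum.inr : κ₂ → Unit ⊕ κ₂) Sum.inr_injective
  have : Fintype κ₂ := Fintype.ofFinite κ₂
  have : Finite κ₁ := Finite.of_equiv ι₀ e₀
  have : Fintype κ₁ := Fintype.ofFinite κ₁
  have s₂ := vol_sq c₂ (Sum.elim (fun _ : Unit => h₂) b₂) e₂
  have s₁ := vol_sq c₁ (Sum.elim (d₂ ∘ b₂) (Sum.elim (fun _ : Unit => h₁) b₁)) e₁
  have n₂ : sqdet (cm c₂ (Sum.elim (fun _ : Unit => h₂) b₂)) ≠ 0 := by
    rw [← s₂]; exact pow_ne_zero 2 hD₂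
  obtain ⟨u, hu⟩ := exists_mulVec_eq _ (Fintype.card_congr e₂) n₂ (c₂ x)
  have hexp : x = u (Sum.inl ()) • h₂ + ∑ k', u (Sum.inr k') • b₂ k' := by
    apply hc₂.1
    rw [← hu, map_add, map_smul, map_sum]
    ext i
    simp only [Matrix.mulVec, dotProduct, cm, Matrix.of_apply, Fintype.sum_sum_type,
      Sum.elim_inl, Sum.elim_inr, Finset.univ_unique, Finset.sum_singleton, Pi.add_apply,
      Pi.smul_apply, smul_eq_mul, Finset.sum_apply, map_smul]
    congr 1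
    · exact mul_comm _ _
    · exact Finset.sum_congr rfl fun k' _ => mul_comm _ _
  have hd : ∑ k', u (Sum.inr k') • d₂ (b₂ k') = 0 := by
    rw [hexp, map_add, map_smul, hdh, smul_zero, zero_add, map_sum] at hx
    simpa only [map_smul] using hx
  -- linear independence
  set M : Matrix ι₁ ι₁ ℂ := Matrix.of fun i k => c₁ ((Sum.elim (d₂ ∘ b₂)
    (Sum.elim (fun _ : Unit => h₁) b₁) ∘ e₁) k) i with hM
  have hMdet : M.det ≠ 0 := hD₁
  have hMinj : Function.Injective M.mulVec :=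
    Matrix.mulVec_injective_iff_isUnit.2 ((Matrix.isUnit_iff_isUnit_det _).2 hMdet.isUnit)
  let w : ι₁ → ℂ := fun k => Sum.elim (fun k' => u (Sum.inr k')) (fun _ => 0) (e₁ k)
  have hw : M *ᵥ w = 0 := by
    ext i
    simp only [Matrix.mulVec, dotProduct, hM, Matrix.of_apply, Function.comp_apply, w,
      Pi.zero_apply]
    rw [← Equiv.sum_comp e₁.symm]
    simp only [Equiv.apply_symm_apply, Fintype.sum_sum_type, Sum.elim_inl, Sum.elim_inr,
      mul_zero, Finset.sum_const_zero, add_zero, Function.comp_apply]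
    have h3 := congrFun (congrArg c₁ hd) i
    rw [map_sum, Finset.sum_apply, map_zero] at h3
    simp only [map_smul, Pi.smul_apply, smul_eq_mul, Pi.zero_apply] at h3
    rw [← h3]
    exact Finset.sum_congr rfl fun k' _ => mul_comm _ _
  have hw0 : w = 0 := hMinj (by rw [hw, Matrix.mulVec_zero])
  have hu0 : ∀ k', u (Sum.inr k') = 0 := by
    intro k'
    have h4 := congrFun hw0 (e₁.symm (Sum.inl k'))
    simpa [w] using h4
  refine ⟨u (Sum.inl ()), ?_⟩
  rw [hexp]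
  simp [hu0]

/-- In a torsion datum `d₁` is onto. -/
theorem surj_of_torsion {C₂ C₁ C₀ ι₂ ι₁ ι₀ : Type} [AddCommGroup C₂] [Module ℂ C₂]
    [AddCommGroup C₁] [Module ℂ C₁] [AddCommGroup C₀] [Module ℂ C₀] [Fintype ι₂]
    [DecidableEq ι₂] [Fintype ι₁] [DecidableEq ι₁] [Fintype ι₀] [DecidableEq ι₀]
    (c₂ : C₂ →ₗ[ℂ] ι₂ → ℂ)
    (c₁ : C₁ →ₗ[ℂ] ι₁ → ℂ) (c₀ : C₀ →ₗ[ℂ] ι₀ → ℂ) (d₂ : C₂ →ₗ[ℂ] C₁) (d₁ : C₁ →ₗ[ℂ] C₀)
    (h₂ : C₂) (h₁ : C₁) (τ : ℂ) (hτ : IsTorsion c₂ c₁ c₀ d₂ d₁ h₂ h₁ τ) :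
    Function.Surjective d₁ := by
  classical
  obtain ⟨-, -, hc₀, -, -, -, κ₂, κ₁, b₂, b₁, e₂, e₁, e₀, hD₂, hD₁, hD₀, -⟩ := hτ
  have : Finite κ₁ := Finite.of_equiv ι₀ e₀
  have : Fintype κ₁ := Fintype.ofFinite κ₁
  have s₀ := vol_sq c₀ (d₁ ∘ b₁) e₀
  have n₀ : sqdet (cm c₀ (d₁ ∘ b₁)) ≠ 0 := by
    rw [← s₀]; exact pow_ne_zero 2 hD₀
  intro x
  obtain ⟨u, hu⟩ := exists_mulVec_eq _ (Fintype.card_congr e₀) n₀ (c₀ x)
  refine ⟨∑ k, u k • b₁ k, ?_⟩
  apply hc₀.1
  rw [← hu, map_sum, map_sum]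
  ext i
  simp only [Matrix.mulVec, dotProduct, cm, Matrix.of_apply, Finset.sum_apply, map_smul,
    Pi.smul_apply, smul_eq_mul, Function.comp_apply]
  exact Finset.sum_congr rfl fun k' _ => mul_comm _ _

/-- A traceless matrix which is orthogonal to all traceless matrices vanishes. -/
theorem eq_zero_of_trace (Y : Mat2) (hY : Y.trace = 0)
    (h : ∀ X : Mat2, X.trace = 0 → (Y * X).trace = 0) : Y = 0 := by
  have h1 := h !![0, 1; 0, 0] (by simp [Matrix.trace_fin_two])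
  have h2 := h !![0, 0; 1, 0] (by simp [Matrix.trace_fin_two])
  have h3 := h !![1, 0; 0, -1] (by simp [Matrix.trace_fin_two])
  simp only [Matrix.trace_fin_two, Matrix.mul_apply, Fin.sum_univ_two, Matrix.of_apply,
    Matrix.cons_val', Matrix.cons_val_zero, Matrix.cons_val_one, Matrix.cons_val_fin_one,
    mul_zero, mul_one, add_zero, zero_add, mul_neg] at h1 h2 h3 hY
  ext i j
  fin_cases i <;> fin_cases j
  · show Y 0 0 = 0
    linear_combination (1 / 2) * h3 + (1 / 2) * hY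
  · exact h2
  · exact h1
  · show Y 1 1 = 0
    linear_combination (1 / 2) * hY - (1 / 2) * h3

theorem trace_conj (A X Y : Mat2) (hA : IsUnit A.det) :
    ((A * Y * A⁻¹) * (A * X * A⁻¹)).trace = (Y * X).trace := by
  have : (A * Y * A⁻¹) * (A * X * A⁻¹) = A * (Y * X) * A⁻¹ := by
    rw [Matrix.mul_assoc (A * Y), ← Matrix.mul_assoc A⁻¹, ← Matrix.mul_assoc A⁻¹,
      Matrix.nonsing_inv_mul _ hA, Matrix.one_mul, ← Matrix.mul_assoc, ← Matrix.mul_assoc]
  rw [this, Matrix.trace_mul_comm, ← Matrix.mul_assoc, Matrix.nonsing_inv_mul _ hA,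
    Matrix.one_mul]

/-- If the torsion is defined, each cusp invariant is parabolic. -/
theorem parabolic_of_torsion (T : IdealTriangulation N) {z : Fin N → ℂ}
    {A X P : Fin N → Fin 4 → Mat2} {s : Fin N → Fin 4 → ℂ} (H : Setup T.toGluing z A X s)
    (hP : IsCuspInvariant T.toGluing A P)
    (φ : Fin (2 * N) → Fin N × Fin 4) (hφ : IsFaceChoice T.toGluing φ)
    (ε : Fin N → Fin N × Fin 4 × Fin 4) (hε : IsEdgeChoice T ε) (θ : NormalCurve T.toGluing)
    (τ : ℂ) (hτ : IsTorsion (coord₂ T.toGluing A ε) (coord₁ T.toGluing A φ) (coord₀ N)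
      (bd₂ T.toGluing A) (bd₁ T.toGluing A) (classTwo hP) (classOne hP θ) τ) :
    ∃ s' : Fin N → Fin 4 → ℂ, (∀ j v, s' j v ≠ 0) ∧
      ∀ j v, P j v = s' j v • nilM (pos (z j) v) := by
  obtain ⟨cls, hcls, -, -, -⟩ := exists_cornerClass T ε hε
  obtain ⟨u, hu⟩ := ker_of_torsion _ _ _ _ _ _ _ τ hτ (classTwo H.hP)
    (bd₂_classTwo H.hP cls hcls)
  have hsurj := surj_of_torsion _ _ _ _ _ _ _ τ hτ
  have hdiff : ∀ j v w, X j v - X j w = u • (P j v - P j w) := by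
    intro j v w
    have h1 := congrArg (fun t : chain₂ T.toGluing A => t.1 j v w) hu
    exact h1
  -- the global invariant
  set Y : Fin N → Mat2 := fun j => X j 0 - u • P j 0 with hY
  have hYv : ∀ j v, X j v - u • P j v = Y j := by
    intro j v
    have h1 := hdiff j v 0
    rw [smul_sub] at h1
    simp only [hY]
    rw [sub_eq_sub_iff_add_eq_add] at h1 ⊢
    rw [h1, add_comm]
  have hYpar : ∀ j a, Y (T.adj j a) = A j a * Y j * (A j a)⁻¹ := by
    intro j a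
    obtain ⟨v, hv⟩ : ∃ v : Fin 4, v ≠ a := (by decide : ∀ a : Fin 4, ∃ v : Fin 4, v ≠ a) a
    rw [← hYv (T.adj j a) (T.glue j a v), ← hYv j v, H.hP.parallel j a v hv,
      hP.parallel j a v hv, Matrix.mul_sub, Matrix.sub_mul]
    simp only [Matrix.mul_smul, Matrix.smul_mul]
  have hYtr : ∀ j, (Y j).trace = 0 := by
    intro j
    simp only [hY, Matrix.trace_sub, Matrix.trace_smul, H.hP.trace_eq, hP.trace_eq, smul_zero,
      sub_zero]
  have hpair : ∀ y : chain₁ T.toGluing A, ∑ j, (Y j * (bd₁ T.toGluing A y).1 j).trace = 0 := by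
    intro y
    have h1 : ∀ j, (Y j * (bd₁ T.toGluing A y).1 j).trace =
        -∑ a, (Y j * y.1 j a).trace := by
      intro j
      show (Y j * -∑ a, y.1 j a).trace = _
      rw [Matrix.mul_neg, Matrix.mul_sum, Matrix.trace_neg, Matrix.trace_sum]
    simp only [h1, Finset.sum_neg_distrib, neg_eq_zero]
    rw [← Fintype.sum_prod_type' (f := fun j a => (Y j * y.1 j a).trace)]
    let ι : Fin N × Fin 4 → Fin N × Fin 4 := fun x => (T.adj x.1 x.2, T.glue x.1 x.2 x.2)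
    have hι : Function.Involutive ι := by
      rintro ⟨j, a⟩
      simp only [ι]
      rw [T.adj_adj, T.toGluing.glue_apply_glue]
    have h2 : ∀ x : Fin N × Fin 4, (Y (ι x).1 * y.1 (ι x).1 (ι x).2).trace =
        -(Y x.1 * y.1 x.1 x.2).trace := by
      rintro ⟨j, a⟩
      simp only [ι]
      rw [y.2.2 j a, hYpar j a, Matrix.mul_neg, Matrix.trace_neg,
        trace_conj _ _ _ (H.hA j a).1]
    have h3 : ∑ x : Fin N × Fin 4, (Y (ι x).1 * y.1 (ι x).1 (ι x).2).trace =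
        ∑ x : Fin N × Fin 4, (Y x.1 * y.1 x.1 x.2).trace :=
      Equiv.sum_comp (Function.Involutive.toPerm ι hι)
        (fun x : Fin N × Fin 4 => (Y x.1 * y.1 x.1 x.2).trace)
    have h4 : ∑ x : Fin N × Fin 4, (Y (ι x).1 * y.1 (ι x).1 (ι x).2).trace =
        -∑ x : Fin N × Fin 4, (Y x.1 * y.1 x.1 x.2).trace := by
      rw [← Finset.sum_neg_distrib]
      exact Finset.sum_congr rfl fun x _ => h2 x
    rw [h4] at h3
    exact self_eq_neg.1 h3.symm
  have hY0 : ∀ j, Y j = 0 := by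
    intro j
    refine eq_zero_of_trace _ (hYtr j) fun Z hZ => ?_
    obtain ⟨y, hy⟩ := hsurj ⟨Pi.single j Z, fun k => by
      by_cases h : k = j
      · subst h; simpa using hZ
      · simp [Pi.single_eq_of_ne h]⟩
    have h1 := hpair y
    rw [hy] at h1
    rw [Finset.sum_eq_single j] at h1
    · simpa using h1
    · intro k _ hk
      simp [Pi.single_eq_of_ne hk]
    · intro h; exact absurd (Finset.mem_univ _) h
  have hX : ∀ j v, X j v = u • P j v := by
    intro j v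
    have h1 := hYv j v
    rw [hY0 j, sub_eq_zero] at h1
    exact h1
  have hu0 : ∀ _ : Fin N, u ≠ 0 := by
    intro j h0
    have h1 := hX j 0
    rw [h0, zero_smul, H.hPs] at h1
    exact smul_ne_zero (H.hs j 0) (nilM_ne_zero (pos_ne_zero _ _)) h1
  refine ⟨fun j v => u⁻¹ * s j v, fun j v => mul_ne_zero (inv_ne_zero (hu0 j)) (H.hs j v),
    fun j v => ?_⟩
  rw [mul_smul, ← H.hPs, hX, smul_smul, inv_mul_cancel₀ (hu0 j), one_smul]

/-- The intersection number vanishes only if the torsion is not defined. -/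
theorem sqdet_eq_zero_of_inter {T : IdealTriangulation N} {z : Fin N → ℂ}
    {A P : Fin N → Fin 4 → Mat2}
    {s : Fin N → Fin 4 → ℂ} (H : Setup T.toGluing z A P s) (φ : Fin (2 * N) → Fin N × Fin 4)
    (hφ : IsFaceChoice T.toGluing φ)
    (cls : Fin N → Fin 4 → Fin 4 → Fin N × Fin 2) (hcls : IsCornerClass T.toGluing cls)
    (c₀ : Fin N × Fin 2) (r : Fin N) (θ : NormalCurve T.toGluing)
    (hI : res φ (disFlow z s) ⬝ᵥ (cuspΩ T.toGluing φ).map (Int.cast : ℤ → ℂ) *ᵥ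
        (res φ fun j v a => (θ.crossing j v a : ℂ)) = 0)
    {κ : Type} [Fintype κ] [DecidableEq κ]
    (b₁ : κ → chain₁ T.toGluing A) (hκ : Fintype.card κ = 3 * N) :
    sqdet (cm (coord₁ T.toGluing A φ) (Sum.elim (bd₂ T.toGluing A ∘ bfam H cls hcls c₀ r)
        (Sum.elim (fun _ : Unit => classOne H.hP θ) b₁))) = 0 := by
  choose η hη using fun k => H.exists_rep (b₁ k)
  have hN : 0 < N := lt_of_le_of_lt (Nat.zero_le _) r.2
  have hr : Fintype.card {E // E ≠ r} + 1 = N := by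
    rw [Fintype.card_subtype_compl, Fintype.card_subtype_eq, Fintype.card_fin]
    omega
  have hcard : Fintype.card (Fin (2 * N) × Fin 3) =
      Fintype.card (Fin N × Fin 2) + Fintype.card (Fin N × Fin 4) := by
    simp only [Fintype.card_prod, Fintype.card_fin]; ring
  have hxd : (cuspD₁ T.toGluing φ).map (Int.cast : ℤ → ℂ) *ᵥ res φ (disFlow z s) = 0 := by
    ext t
    rw [div_res T.toGluing φ hφ _ (disFlow_isFlow H) t, disFlow_sum H.h0 H.h1 H.hs]
    simp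
  have hyd : (cuspD₁ T.toGluing φ).map (Int.cast : ℤ → ℂ) *ᵥ
      (res φ fun j v a => (θ.crossing j v a : ℂ)) = 0 := by
    ext t
    rw [div_res T.toGluing φ hφ _ (crossing_isFlow θ ℂ) t, ← Int.cast_sum, crossing_div]
    simp
  have hcol : ∀ i, ∑ c, cuspD₂ φ cls i c = 0 := by
    intro i
    simp [cuspD₂, Finset.sum_sub_distrib]
  have hrow : ∀ i, ∑ t, cuspD₁ T.toGluing φ t i = 0 := by
    intro i
    simp [cuspD₁, Finset.sum_sub_distrib]
  have key := torus_core (cuspD₂ φ cls) (cuspD₁ T.toGluing φ) (cuspΩ T.toGluing φ) c₀ (r, 0)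
    hcard (cusp_D₁D₂ T.toGluing φ hφ cls hcls) hcol hrow
    (fun c => cusp_prim T.toGluing T.one_cusp φ hφ cls hcls c c₀)
    (fun t => cusp_dual T.toGluing T.one_cusp φ hφ t (r, 0))
    (cusp_omega_self T.toGluing φ hφ) (cusp_omega_exact T.toGluing φ hφ cls hcls)
    (cusp_omega_dual T.toGluing φ hφ cls hcls)
    (res φ (disFlow z s)) (res φ fun j v a => (θ.crossing j v a : ℂ)) hxd hyd
    (gamMat T z s φ r η) (by
      rw [Fintype.card_sum, hκ]
      simp only [Fintype.card_prod, Fintype.card_fin]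
      omega)
    (Pi.single (r, 0) 1)
  rw [hI] at key
  have hsum : ∑ t : Fin N × Fin 4, (Pi.single (r, 0) (1 : ℂ) : Fin N × Fin 4 → ℂ) t = 1 := by
    simp
  rw [hsum] at key
  set R := fromCols
        (((cuspD₂ φ cls).submatrix id (Subtype.val : {c // c ≠ c₀} → Fin N × Fin 2)).map
          (Int.cast : ℤ → ℂ))
        (fromCols (replicateCol Unit (res φ (disFlow z s)))
          (fromCols (replicateCol Unit (res φ fun j v a => (θ.crossing j v a : ℂ)))
            (gamMat T z s φ r η))) with hR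
  have key2 : sqdet R = 0 := by
    have h5 : (1 : ℂ) ^ 2 * sqdet R = 0 := by
      rw [key]; ring
    simpa using h5
  have hcards : Fintype.card ({c // c ≠ c₀} ⊕ (Unit ⊕ (Unit ⊕ ({E // E ≠ r} ⊕ κ)))) =
      Fintype.card (Fin (2 * N) × Fin 3) := by
    simp only [Fintype.card_sum, Fintype.card_unit, hκ, Fintype.card_prod, Fintype.card_fin]
    rw [Fintype.card_subtype_compl, Fintype.card_subtype_eq]
    simp only [Fintype.card_prod, Fintype.card_fin]
    omega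
  rw [← sqdet_reindex _ (Equiv.refl _) (chainCol {c // c ≠ c₀} {E // E ≠ r} κ),
      coord₁_factor H φ cls hcls c₀ r θ b₁ η hη, sqdet_mul _ _ rfl hcards.symm, key2, mul_zero]

/-- The torsion formula, without positivity. -/
theorem torsion_formula' (T : IdealTriangulation N) {z : Fin N → ℂ} {A P : Fin N → Fin 4 → Mat2}
    {s : Fin N → Fin 4 → ℂ} (H : Setup T.toGluing z A P s)
    (φ : Fin (2 * N) → Fin N × Fin 4) (hφ : IsFaceChoice T.toGluing φ)
    (ε : Fin N → Fin N × Fin 4 × Fin 4) (hε : IsEdgeChoice T ε) (θ : NormalCurve T.toGluing)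
    (f : Fin 3 → Fin N → ℤ) (hf : IsFlattening T f) (r : Fin N)
    (τ : ℂ) (hτ : IsTorsion (coord₂ T.toGluing A ε) (coord₁ T.toGluing A φ) (coord₀ N)
      (bd₂ T.toGluing A) (bd₁ T.toGluing A) (classTwo H.hP) (classOne H.hP θ) τ) :
    τ = oneLoop T z θ f r ∨ τ = -oneLoop T z θ f r := by
  obtain ⟨cls, hcls, h1, h2, h3⟩ := exists_cornerClass T ε hε
  have hb := bfam_sqdet H ε hε cls hcls h1 h2 h3 (r, 0) r
  have hE := lam_prod_ne H ε hε
  obtain ⟨κ, hfin, hdec, b₁, hκ, -, hq0, hq1, hsq⟩ := torsion_sq _ _ _ _ _ _ _ τ hτ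
    (bfam H cls hcls (r, 0) r) (kappa_card (r, 0) r) (by rw [hb]; exact hE)
  have hκ' : Fintype.card κ = 3 * N := by
    rw [hκ]
    simp only [Fintype.card_prod, Fintype.card_fin]
    ring
  have hcurve := curve_identity H φ hφ θ
  have hI : res φ (disFlow z s) ⬝ᵥ (cuspΩ T.toGluing φ).map (Int.cast : ℤ → ℂ) *ᵥ
      (res φ fun j v a => (θ.crossing j v a : ℂ)) ≠ 0 := by
    intro h0
    exact hq1 (sqdet_eq_zero_of_inter H φ hφ cls hcls (r, 0) r θ h0 b₁ hκ')
  have hmain := assembly H φ hφ cls hcls (r, 0) r θ (crossing_div θ) hcurve hI b₁ hκ'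
  rw [← hsq, hb] at hmain
  have hpf := product_formula T H φ hφ ε hε f hf
  have hF : ∏ F, (Setup.faceMat P (φ F).1 (φ F).2).det ^ 2 ≠ 0 :=
    Finset.prod_ne_zero_iff.2 fun F _ => pow_ne_zero 2 (H.faceMat_det_ne _ _)
  have hZ : ∏ k, ∏ j, zeta (z j) k ^ f k j ≠ 0 := by
    refine Finset.prod_ne_zero_iff.2 fun k _ => Finset.prod_ne_zero_iff.2 fun j _ =>
      zpow_ne_zero _ ?_
    have e0 := H.h0 j
    have e1 : (1 : ℂ) - z j ≠ 0 := sub_ne_zero.2 (H.h1 j).symm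
    have e2 : z j - 1 ≠ 0 := sub_ne_zero.2 (H.h1 j)
    fin_cases k <;> simp [zeta, e0, e1, e2]
  set D := (numMat T z θ r).det with hD
  set Z := ∏ k, ∏ j, zeta (z j) k ^ f k j with hZdef
  have key : 4 * τ ^ 2 * Z ^ 2 = D ^ 2 := by
    refine mul_left_cancel₀ hF (mul_right_cancel₀ hq0 ?_)
    rw [← hmain]
    linear_combination (4 * τ ^ 2 *
      sqdet (cm (coord₀ N) (bd₁ T.toGluing A ∘ b₁))) * hpf
  have hone : oneLoop T z θ f r = D / (2 * Z) := rfl
  rw [hone]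
  have : (τ - D / (2 * Z)) * (τ + D / (2 * Z)) = 0 := by
    field_simp
    linear_combination key
  rcases mul_eq_zero.1 this with h | h
  · left; linear_combination h
  · right; linear_combination h

/-- The 1-loop formula for every nondegenerate solution of the gluing and completeness
equations: each value of the torsion is the 1-loop invariant up to sign. -/
theorem regular_formula (T : IdealTriangulation N) {z : Fin N → ℂ} (S : Reg T z)
    (θ : NormalCurve T.toGluing) (f : Fin 3 → Fin N → ℤ) (hf : IsFlattening T f) (r : Fin N)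
    (τ : ℂ) (hτ : IsAdjointTorsion T z θ τ) :
    τ = oneLoop T z θ f r ∨ τ = -oneLoop T z θ f r := by
  obtain ⟨s, hs, hdis⟩ := exists_scale T S
  obtain ⟨A, P, hA, hP, φ, ε, hφ, hε, hτ⟩ := hτ
  have H := setup_of_scale T.toGluing z S.ne_zero S.ne_one A hA s hs hdis r
  obtain ⟨s', hs', hP'⟩ := parabolic_of_torsion T H hP φ hφ ε hε θ τ hτ
  have H' : Setup T.toGluing z A P s' := ⟨S.ne_zero, S.ne_one, hA, hP, hs', hP'⟩
  exact torsion_formula' T H' φ hφ ε hε θ f hf r τ hτ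

end Run7.h360
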