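import Pool.Agent.Run7.h360.Pach

/-!
# Invariance of the torsion of triangulated manifolds with flat bundles
-/

set_option autoImplicit false

namespace Run7.h360

open Matrix Pool.Agent.H15_OneLoop

namespace Framed

/-- `t` is the square of a value of the torsion. -/
def Sq (X : Framed) (t : ℂ) : Prop := ∃ τ, τ ^ 2 = t ∧ X.IsTorsion τ

/-- The identity. -/
def Iso.refl (X : Framed) : Framed.Iso X X where
  e := Equiv.refl _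
  ρ _ := 1
  even _ := Equiv.Perm.sign_one
  adj _ _ := rfl
  glue _ _ := rfl
  g _ := 1
  unit _ := by simp
  s _ _ := 1
  s_ne _ _ := one_ne_zero
  bundle j a := by
    show X.A j a = (1 : ℂ) • ((1 : Mat2) * X.A j a * (1 : Mat2)⁻¹)
    simp
  h _ _ _ := 0
  h_glue _ _ _ _ _ _ _ := rfl
  cycle _ _ _ := by simp

variable {X Y : Framed}

theorem tor_of_sq {t : ℂ} (h : X.Sq t) : ∃ (P : X.J → Fin 4 → Mat2) (hP : X.tri.IsCuspInv X.A P)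
    (n₀ n₁ n₂ : ℕ) (ν : Fin n₀ ≃ X.J) (φ : Fin n₁ → X.J × Fin 4)
    (ε : Fin n₂ → X.J × Fin 4 × Fin 4), X.tri.IsFaceSel φ ∧ X.tri.IsEdgeSel ε ∧
      Tor X.tri X.A P hP X.c X.cycle ν φ ε t := by
  obtain ⟨τ, hτ, P, n₀, n₁, n₂, ν, φ, ε, hP, hφ, hε, hb⟩ := h
  refine ⟨P, hP, n₀, n₁, n₂, ν, φ, ε, hφ, hε, ?_⟩
  rw [← hτ]
  exact LT.of_torsion _ _ _ _ _ _ _ _ ((based_iff X.tri hP X.cycle ν φ ε τ).1 hb)

theorem sq_of_tor {P : X.J → Fin 4 → Mat2} {hP : X.tri.IsCuspInv X.A P}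
    {n₀ n₁ n₂ : ℕ} {ν : Fin n₀ ≃ X.J} {φ : Fin n₁ → X.J × Fin 4}
    {ε : Fin n₂ → X.J × Fin 4 × Fin 4} (hφ : X.tri.IsFaceSel φ) (hε : X.tri.IsEdgeSel ε) {t : ℂ}
    (h : Tor X.tri X.A P hP X.c X.cycle ν φ ε t) : X.Sq t := by
  obtain ⟨τ, hτ, hb⟩ := LT.torsion h
  exact ⟨τ, hτ, P, n₀, n₁, n₂, ν, φ, ε, hP, hφ, hε, (based_iff X.tri hP X.cycle ν φ ε τ).2 hb⟩

theorem Iso.tor_of_sq (i : Framed.Iso X Y) {t : ℂ} (h : Y.Sq t) {V Φ E : Type} [Fintype V]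
    [DecidableEq V] [Fintype Φ] [DecidableEq Φ] [Fintype E] [DecidableEq E]
    (ν : V → X.J) (φ : Φ → X.J × Fin 4) (ε : E → X.J × Fin 4 × Fin 4)
    (hν : Function.Bijective ν) (hφ : X.tri.IsFaceSel φ) (hε : X.tri.IsEdgeSel ε) :
    ∃ (P : X.J → Fin 4 → Mat2) (hP : X.tri.IsCuspInv X.A P),
      Tor X.tri X.A P hP X.c X.cycle ν φ ε t := by
  obtain ⟨P, hP, n₀, n₁, n₂, ν', φ', ε', hφ', hε', hT⟩ := Framed.tor_of_sq h
  exact ⟨i.bP P, i.bP_inv hP, i.tor hP ν φ ε ν' φ' ε' hν hφ hε ν'.bijective hφ' hε' hT⟩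

theorem finite_of_sq {t : ℂ} (h : X.Sq t) : Finite X.J := by
  obtain ⟨τ, -, P, n₀, n₁, n₂, ν, -⟩ := h
  exact Finite.of_equiv _ ν

/-- Selections exist. -/
theorem exists_sels (X : Framed) (hX : Finite X.J) : ∃ (n₀ n₁ n₂ : ℕ) (_ : Fin n₀ ≃ X.J)
    (φ : Fin n₁ → X.J × Fin 4) (ε : Fin n₂ → X.J × Fin 4 × Fin 4), X.tri.IsFaceSel φ ∧
      X.tri.IsEdgeSel ε := by
  obtain ⟨n₀, ⟨ν⟩⟩ := Finite.exists_equiv_fin X.J
  obtain ⟨n₁, φ, hφ⟩ := exists_sel X.tri.FR (fun _ => True) X.tri.FR_equiv inferInstance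
  obtain ⟨n₂, ε, hε⟩ := exists_sel X.tri.ER (fun p => p.2.1 ≠ p.2.2) X.tri.ER_equiv inferInstance
  exact ⟨n₀, n₁, n₂, ν.symm, φ, ε, (X.tri.faceSel_iff φ).2 hφ, (X.tri.edgeSel_iff ε).2 hε⟩

/-- A torsion computed with arbitrary index types. -/
theorem sq_of_tor' {P : X.J → Fin 4 → Mat2} {hP : X.tri.IsCuspInv X.A P} {V Φ E : Type}
    [Fintype V] [DecidableEq V] [Fintype Φ] [DecidableEq Φ] [Fintype E] [DecidableEq E]
    {ν : V → X.J} {φ : Φ → X.J × Fin 4} {ε : E → X.J × Fin 4 × Fin 4}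
    (hν : Function.Bijective ν) (hφ : X.tri.IsFaceSel φ) (hε : X.tri.IsEdgeSel ε) {t : ℂ}
    (h : Tor X.tri X.A P hP X.c X.cycle ν φ ε t) : X.Sq t := by
  obtain ⟨n₀, n₁, n₂, ν', φ', ε', hφ', hε'⟩ :=
    exists_sels X (Finite.of_surjective ν hν.surjective)
  exact sq_of_tor (ν := ν') hφ' hε'
    ((Iso.refl X).tor hP ν' φ' ε' ν φ ε ν'.bijective hφ' hε' hν hφ hε h)

theorem Iso.sq (i : Framed.Iso X Y) {t : ℂ} (h : Y.Sq t) : X.Sq t := by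
  have hY := finite_of_sq h
  obtain ⟨n₀, n₁, n₂, ν, φ, ε, hφ, hε⟩ := exists_sels X (Finite.of_equiv _ i.e.symm)
  obtain ⟨P, hP, hT⟩ := i.tor_of_sq h ν φ ε ν.bijective hφ hε
  exact sq_of_tor (ν := ν) hφ hε hT

theorem pachner_sq {ρ : Type} {T : Tri (ρ ⊕ Fin 2)} {T' : Tri (ρ ⊕ Fin 3)}
    {A : ρ ⊕ Fin 2 → Fin 4 → Mat2} {A' : ρ ⊕ Fin 3 → Fin 4 → Mat2}
    {c : ρ ⊕ Fin 2 → Fin 4 → Fin 4 → ℤ} {c' : ρ ⊕ Fin 3 → Fin 4 → Fin 4 → ℤ}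
    {hA : ∀ j a, IsUnit (A j a).det} {hA' : ∀ j a, IsUnit (A' j a).det}
    {hc : T.IsCycle c} {hc' : T'.IsCycle c'} (h : IsPachner T T' A A' c c') (t : ℂ) :
    (⟨ρ ⊕ Fin 2, T, A, hA, c, hc⟩ : Framed).Sq t ↔
      (⟨ρ ⊕ Fin 3, T', A', hA', c', hc'⟩ : Framed).Sq t := by
  classical
  have hg := h.gd
  have sels : ∀ [Finite ρ], ∃ (n₁ n₂ : ℕ) (oc : Fin n₁ → Od ρ 2 3)
      (ε : Fin n₂ → (ρ ⊕ Fin 2) × Fin 4 × Fin 4),
      Sel (OR top low T) (fun _ => True) oc ∧ T.IsEdgeSel ε := by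
    intro hρ
    obtain ⟨n₁, oc, hoc⟩ := exists_sel (OR top low T : Od ρ 2 3 → _) (fun _ => True)
      (OR_equiv hg.part) inferInstance
    obtain ⟨n₂, ε, hε⟩ := exists_sel T.ER (fun p => p.2.1 ≠ p.2.2) T.ER_equiv inferInstance
    exact ⟨n₁, n₂, oc, ε, hoc, (T.edgeSel_iff ε).2 hε⟩
  constructor
  · intro hS
    have hf := finite_of_sq hS
    have hf : Finite (ρ ⊕ Fin 2) := hf
    have hρ : Finite ρ := Finite.of_injective (Sum.inl : ρ → ρ ⊕ Fin 2) Sum.inl_injective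
    have := Fintype.ofFinite ρ
    obtain ⟨n₁, n₂, oc, ε, hoc, hε⟩ := sels
    obtain ⟨P, hP, hT⟩ := (Iso.refl _).tor_of_sq hS (id : ρ ⊕ Fin 2 → ρ ⊕ Fin 2)
      (Sum.elim (dX top low ∘ oc) (iX top orT)) ε Function.bijective_id
      (oriT.faceSel hg.inn hg.part hoc) hε
    obtain ⟨π, hπ⟩ := hg.exists_mkP hP
    revert hP
    rw [hπ]
    intro hP hT
    have hP' : T'.IsCuspInv A' (mkP low (fun r => P (Sum.inl r)) π) := hg.symm.mkP_inv hP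
    have h1 := (tor_pachner hg hP hP' hc hc' oc ε t).1 hT
    exact sq_of_tor' (X := ⟨ρ ⊕ Fin 3, T', A', hA', c', hc'⟩) (hP := hP')
      (ν := (id : ρ ⊕ Fin 3 → ρ ⊕ Fin 3)) Function.bijective_id (faceL hg hoc) (edgeL hg hε) h1
  · intro hS
    have hf := finite_of_sq hS
    have hf : Finite (ρ ⊕ Fin 3) := hf
    have hρ : Finite ρ := Finite.of_injective (Sum.inl : ρ → ρ ⊕ Fin 3) Sum.inl_injective
    have := Fintype.ofFinite ρ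
    obtain ⟨n₁, n₂, oc, ε, hoc, hε⟩ := sels
    obtain ⟨P, hP, hT⟩ := (Iso.refl _).tor_of_sq hS (id : ρ ⊕ Fin 3 → ρ ⊕ Fin 3)
      (Sum.elim (dY top low ∘ oc) (iX low orL)) (Sum.elim (tr top low pkL ∘ ε) (nw ρ))
      Function.bijective_id (faceL hg hoc) (edgeL hg hε)
    obtain ⟨π, hπ⟩ := hg.symm.exists_mkP hP
    revert hP
    rw [hπ]
    intro hP hT
    have hP' : T.IsCuspInv A (mkP top (fun r => P (Sum.inl r)) π) := hg.mkP_inv hP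
    have h1 := (tor_pachner hg hP' hP hc hc' oc ε t).2 hT
    exact sq_of_tor' (X := ⟨ρ ⊕ Fin 2, T, A, hA, c, hc⟩) (hP := hP')
      (ν := (id : ρ ⊕ Fin 2 → ρ ⊕ Fin 2)) Function.bijective_id
      (oriT.faceSel hg.inn hg.part hoc) hε h1

theorem Step.sq (h : Framed.Step X Y) (t : ℂ) : X.Sq t ↔ Y.Sq t := by
  cases h with
  | iso i => exact ⟨fun h => i.symm.sq h, fun h => i.sq h⟩
  | pachner h => exact pachner_sq h t

theorem Equiv.sq (h : X.Equiv Y) (t : ℂ) : X.Sq t ↔ Y.Sq t := by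
  induction h with
  | rel X Y h => exact h.sq t
  | refl X => exact Iff.rfl
  | symm X Y _ ih => exact ih.symm
  | trans X Y Z _ _ ih ih' => exact ih.trans ih'

end Framed

end Run7.h360
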