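import Pool.Agent.Run7.h360.Start
import Pool.Agent.Run7.h360.Sq
import Pool.Agent.Run7.h360.Regular

/-!
# The 1-loop formula for the torsion computed from an arbitrary ideal triangulation
-/

set_option autoImplicit false

namespace Run7.h360

open Matrix Pool.Agent.H15_OneLoop

variable {N : ℕ}

theorem classOne_eq {T : Gluing N} {A P : Fin N → Fin 4 → Mat2} (hP : IsCuspInvariant T A P)
    (hP' : (Tri.ofGluing T).IsCuspInv A P) (θ : NormalCurve T) :
    (classOne hP θ).1 = (cOne hP' (crossing_cycle θ)).1 := by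
  funext j a
  exact (rep_classOne hP θ).2 j a

theorem bridge {T : Gluing N} {A P : Fin N → Fin 4 → Mat2} (hP : IsCuspInvariant T A P)
    (hP' : (Tri.ofGluing T).IsCuspInv A P) (θ : NormalCurve T)
    (φ : Fin (2 * N) → Fin N × Fin 4) (ε : Fin N → Fin N × Fin 4 × Fin 4) (τ : ℂ) :
    IsTorsion (coord₂ T A ε) (coord₁ T A φ) (coord₀ N) (bd₂ T A) (bd₁ T A) (classTwo hP)
      (classOne hP θ) τ ↔
    IsTorsion (cc₂ (Tri.ofGluing T) A ε) (cc₁ (Tri.ofGluing T) A φ) (cc₀ id)
      (D₂ (Tri.ofGluing T) A) (D₁ (Tri.ofGluing T) A) (cTwo hP') (cOne hP' (crossing_cycle θ))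
      τ := by
  have h : classOne hP θ = (⟨(cOne hP' (crossing_cycle θ)).1, (cOne hP' (crossing_cycle θ)).2⟩ :
      chain₁ T A) := Subtype.ext (classOne_eq hP hP' θ)
  rw [h]
  exact Iff.rfl

theorem faceSel_iff' (T : Gluing N) (φ : Fin (2 * N) → Fin N × Fin 4) :
    (Tri.ofGluing T).IsFaceSel φ ↔ IsFaceChoice T φ := Iff.rfl

theorem step_iff (T : Gluing N) (p q : Fin N × Fin 4 × Fin 4) :
    (Tri.ofGluing T).EdgeStep p q ↔ T.EdgeStep p q := by
  constructor
  · intro h
    cases h with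
    | flip j v w => exact .flip _ _ _
    | cross j a v w hv hw => exact Gluing.EdgeStep.cross (T := T) j a v w hv hw
  · intro h
    cases h with
    | flip j v w => exact .flip _ _ _
    | cross j a v w hv hw => exact Tri.EdgeStep.cross (T := Tri.ofGluing T) j a v w hv hw

theorem edgeSel_of (T : IdealTriangulation N) {ε : Fin N → Fin N × Fin 4 × Fin 4}
    (hε : IsEdgeChoice T ε) : (Tri.ofGluing T.toGluing).IsEdgeSel ε := by
  have h : (Tri.ofGluing T.toGluing).EdgeStep = T.toGluing.EdgeStep := by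
    funext p q
    exact propext (step_iff _ p q)
  refine ⟨fun e => (hε e).1, fun j v w hvw => ?_⟩
  rw [h]
  refine ⟨T.edge j v w, ?_, fun e he => ?_⟩
  · exact (T.edge_eq_iff (hε _).1 hvw).1 (hε _).2
  · have h2 := (T.edge_eq_iff (hε e).1 hvw).2 he
    rw [(hε e).2] at h2
    exact h2

theorem Solution.reg {T : IdealTriangulation N} {z : Fin N → ℂ} (h : Solution T z) : Reg T z :=
  ⟨h.ne_zero, h.ne_one, h.complete⟩

/-- The values of the torsion for the triangulation with shapes. -/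
theorem sq_ofShapes (T : IdealTriangulation N) (z : Fin N → ℂ) (hz : Solution T z)
    (A : Fin N → Fin 4 → Mat2) (hA : IsHolonomy T.toGluing z A) (θ : NormalCurve T.toGluing)
    (f : Fin 3 → Fin N → ℤ) (hf : IsFlattening T f) (r : Fin N) (t : ℂ)
    (h : (ofShapes T z A hA θ).Sq t) : t = oneLoop T z θ f r ^ 2 := by
  obtain ⟨φ, hφ⟩ := exists_faceChoice T.toGluing
  choose je ve we hne he using T.edge_surj
  have hε : IsEdgeChoice T (fun e => (je e, ve e, we e)) := fun e => ⟨hne e, he e⟩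
  obtain ⟨P, hP, hT⟩ := (Framed.Iso.refl _).tor_of_sq h (id : Fin N → Fin N) φ _
    Function.bijective_id hφ (edgeSel_of T hε)
  obtain ⟨τ, hτ, hb⟩ := LT.torsion hT
  have hP0 : IsCuspInvariant T.toGluing A P := ⟨hP.trace_eq, hP.parallel, hP.ne_zero⟩
  have h1 := (bridge hP0 hP θ φ _ τ).2 hb
  have h2 : IsAdjointTorsion T z θ τ := ⟨A, P, hA, hP0, φ, _, hφ, hε, h1⟩
  rcases regular_formula T hz.reg θ f hf r τ h2 with h3 | h3
  · rw [← hτ, h3]
  · rw [← hτ, h3, neg_sq]

/-- The torsion is defined if the shapes have positive imaginary parts. -/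
theorem exists_ofShapes (T : IdealTriangulation N) (z : Fin N → ℂ) (hz : Solution T z)
    (hpos : ∀ j, 0 < (z j).im)
    (A : Fin N → Fin 4 → Mat2) (hA : IsHolonomy T.toGluing z A) (θ : NormalCurve T.toGluing)
    (hθ : ¬ θ.NullHomologous) (r : Fin N) : ∃ t, (ofShapes T z A hA θ).Sq t := by
  obtain ⟨s, hs, hdis⟩ := exists_scale T hz.reg
  have H := setup_of_scale T.toGluing z hz.ne_zero hz.ne_one A hA s hs hdis r
  obtain ⟨φ, hφ⟩ := exists_faceChoice T.toGluing
  choose je ve we hne he using T.edge_surj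
  have hε : IsEdgeChoice T (fun e => (je e, ve e, we e)) := fun e => ⟨hne e, he e⟩
  obtain ⟨τ, hτ⟩ := torsion_exists T H hpos φ hφ _ hε θ hθ r
  have hP' := H.hP
  have hP : (Tri.ofGluing T.toGluing).IsCuspInv A _ := ⟨hP'.trace_eq, hP'.parallel, hP'.ne_zero⟩
  have h1 := (bridge hP' hP θ φ _ τ).1 hτ
  have h2 := LT.of_torsion _ _ _ _ _ _ _ _ h1
  exact ⟨τ ^ 2, Framed.sq_of_tor' (X := ofShapes T z A hA θ) (hP := hP)
    (ν := (id : Fin N → Fin N)) Function.bijective_id hφ (edgeSel_of T hε) h2⟩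

/-- The 1-loop formula for the torsion computed from an arbitrary ideal triangulation of the same
manifold. -/
theorem main (T : IdealTriangulation N) (z : Fin N → ℂ) (hz : Solution T z)
    (A : Fin N → Fin 4 → Mat2) (hA : IsHolonomy T.toGluing z A) (θ : NormalCurve T.toGluing)
    (f : Fin 3 → Fin N → ℤ) (hf : IsFlattening T f) (r : Fin N) (X : Framed)
    (hX : X.Equiv (ofShapes T z A hA θ)) :
    (∀ τ, X.IsTorsion τ → τ = oneLoop T z θ f r ∨ τ = -oneLoop T z θ f r) ∧
      ((∀ j, 0 < (z j).im) → ¬ θ.NullHomologous → ∃ τ, X.IsTorsion τ) := by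
  constructor
  · intro τ hτ
    have h1 : X.Sq (τ ^ 2) := ⟨τ, rfl, hτ⟩
    have h2 := sq_ofShapes T z hz A hA θ f hf r _ ((Framed.Equiv.sq hX _).1 h1)
    exact sq_eq_sq_iff_eq_or_eq_neg.1 h2
  · intro hpos hθ
    obtain ⟨t, ht⟩ := exists_ofShapes T z hz hpos A hA θ hθ r
    obtain ⟨τ, -, hτ⟩ := (Framed.Equiv.sq hX t).2 ht
    exact ⟨τ, hτ⟩

end Run7.h360
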