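import Pool.Agent.Run7.h360.Kron

/-!
# The faces inside the bipyramid
-/

set_option autoImplicit false

namespace Run7.h360

open Matrix Pool.Agent.H15_OneLoop

/-- Selections of a union. -/
theorem Sel.sum {S S₀ E E' : Type} {r : S → S → Prop} (hr : Equivalence r) {r₀ : S₀ → S₀ → Prop}
    {D : S → Prop} {D₀ : S₀ → Prop} (d : S₀ → S) (hd : ∀ p, D₀ p → D (d p))
    (h₀ : ∀ p q, D₀ p → D₀ q → (r₀ p q ↔ r (d p) (d q))) {oc : E → S₀} (hoc : Sel r₀ D₀ oc)
    (ι : E' → S) (hι : ∀ e, D (ι e))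
    (hc : ∀ p, D p → (∃ p₀, D₀ p₀ ∧ r (d p₀) p) ∨ ∃! e, r (ι e) p)
    (hn : ∀ p₀ e, D₀ p₀ → ¬ r (ι e) (d p₀)) : Sel r D (Sum.elim (d ∘ oc) ι) := by
  refine ⟨?_, fun p hp => ?_⟩
  · rintro (e | e)
    · exact hd _ (hoc.1 e)
    · exact hι e
  · rcases hc p hp with ⟨p₀, hp₀, h1⟩ | ⟨e, he, hu⟩
    · obtain ⟨e, he, hu⟩ := hoc.2 p₀ hp₀
      refine ⟨Sum.inl e, hr.trans ((h₀ _ _ (hoc.1 e) hp₀).1 he) h1, ?_⟩
      rintro (e' | e') h2
      · have h3 : r (d (oc e')) (d p₀) := hr.trans h2 (hr.symm h1)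
        rw [hu e' ((h₀ _ _ (hoc.1 e') hp₀).2 h3)]
      · exact absurd (hr.trans h2 (hr.symm h1)) (hn p₀ e' hp₀)
    · refine ⟨Sum.inr e, he, ?_⟩
      rintro (e' | e') h2
      · exact absurd (hr.trans he (hr.symm h2)) (hn (oc e') e (hoc.1 e'))
      · rw [hu e' h2]

/-- An orientation of the inner faces. -/
structure Ori {n g : ℕ} (or : Fin g → Fin n × Fin n) (G : (Fin g → Mat2) → Fin n → Fin n → Mat2) :
    Prop where
  ne : ∀ k, (or k).1 ≠ (or k).2
  all : ∀ s s', s ≠ s' → ∃ k, or k = (s, s') ∨ or k = (s', s)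
  uniq : ∀ k k', or k = or k' ∨ or k = (or k').swap → k = k'
  anti : ∀ W s s', G W s' s = -G W s s'
  val : ∀ W k, G W (or k).1 (or k).2 = W k
  tr0 : ∀ W, (∀ k, (W k).trace = 0) → ∀ s s', (G W s s').trace = 0

variable {ρ : Type} {n n' g : ℕ} {m : Fin n → Fin 5} {m' : Fin n' → Fin 5}
  {T : Tri (ρ ⊕ Fin n)} {A : ρ ⊕ Fin n → Fin 4 → Mat2}
  {or : Fin g → Fin n × Fin n} {G : (Fin g → Mat2) → Fin n → Fin n → Mat2}

/-- The inner darts. -/
def iD (m : Fin n → Fin 5) (s s' : Fin n) : (ρ ⊕ Fin n) × Fin 4 :=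
  (Sum.inr s, unlab (m s) (m s'))

/-- The inner darts which have the chosen orientation. -/
def iX (m : Fin n → Fin 5) (or : Fin g → Fin n × Fin n) (k : Fin g) : (ρ ⊕ Fin n) × Fin 4 :=
  iD m (or k).1 (or k).2

theorem Inn.fp (hi : Inn m T A) (hm : Function.Injective m) {s s' : Fin n} (hs : s ≠ s') :
    T.fp (iD m s s') = iD m s' s := by
  have h1 : lab (m s) (unlab (m s) (m s')) = m s' := lab_unlab _ _ fun h => hs (hm h).symm
  obtain ⟨h2, h3, -⟩ := hi s s' hs _ h1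
  show (T.adj (Sum.inr s) (unlab (m s) (m s')), T.glue (Sum.inr s) (unlab (m s) (m s'))
    (unlab (m s) (m s'))) = (Sum.inr s', unlab (m s') (m s))
  rw [h2, h3]
  congr 1
  refine lab_inj (m := m s') ?_
  rw [lab_kap_of_eq h1, lab_unlab _ _ fun h => hs (hm h)]

theorem iD_inj (hm : Function.Injective m) {s s' t t' : Fin n} (hs : s ≠ s') (ht : t ≠ t')
    (h : (iD m s s' : (ρ ⊕ Fin n) × Fin 4) = iD m t t') : (s, s') = (t, t') := by
  have h1 : (Sum.inr s : ρ ⊕ Fin n) = Sum.inr t := congrArg Prod.fst h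
  have h2 : unlab (m s) (m s') = unlab (m t) (m t') := congrArg Prod.snd h
  obtain rfl := Sum.inr_injective h1
  rw [hm (unlab_inj (fun h => hs (hm h).symm) (fun h => ht (hm h).symm) h2)]

theorem Part.iD_ne (h : Part m m') {s s' : Fin n} (hs : s ≠ s') (o : Od ρ n n') :
    iD m s s' ≠ dX m m' o := by
  rcases o with p | p
  · intro h1
    have h2 : (Sum.inr s : ρ ⊕ Fin n) = Sum.inl p.1 := congrArg Prod.fst h1
    exact Sum.inr_ne_inl h2
  · intro h1
    have h1' : (Sum.inr s : ρ ⊕ Fin n) = Sum.inr p.1 := congrArg Prod.fst h1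
    have h2 : unlab (m s) (m s') = unlab (m p.1) (m' p.2) := congrArg Prod.snd h1
    have h3 := Sum.inr_injective h1'
    rw [← h3] at h2
    exact h.disj _ _ (unlab_inj (fun h' => hs (h.inj h').symm) (h.disj _ _).symm h2)

theorem Part.dart' (h : Part m m') (p : (ρ ⊕ Fin n) × Fin 4) :
    (∃ o, p = dX m m' o) ∨ ∃ s s', s ≠ s' ∧ p = iD m s s' := by
  obtain ⟨j, a⟩ := p
  rcases h.dart j a with ⟨j', κ, hm⟩ | ⟨s, s', hs, rfl, ha⟩
  · obtain ⟨o, h1, -⟩ := h.of_mt hm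
    exact Or.inl ⟨o, h1⟩
  · refine Or.inr ⟨s, s', hs, ?_⟩
    show (Sum.inr s, a) = (Sum.inr s, unlab (m s) (m s'))
    rw [← ha, unlab_lab]

theorem Ori.fr (hO : Ori or G) (hi : Inn m T A) (hm : Function.Injective m) {s s' : Fin n}
    (hs : s ≠ s') : ∃! k, T.FR (iX m or k) (iD m s s') := by
  obtain ⟨k, hk⟩ := hO.all s s' hs
  have key : ∀ k', T.FR (iX m or k') (iD m s s') → or k' = (s, s') ∨ or k' = (s', s) := by
    intro k' h
    rcases h with h | h
    · exact Or.inl (iD_inj (ρ := ρ) hm hs (hO.ne k') h).symm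
    · have h2 : (iD m s s' : (ρ ⊕ Fin n) × Fin 4) = iD m (or k').2 (or k').1 :=
        h.trans (hi.fp hm (hO.ne k'))
      have h3 := iD_inj hm hs (hO.ne k').symm h2
      refine Or.inr (Prod.ext (congrArg Prod.snd h3).symm (congrArg Prod.fst h3).symm)
  refine ⟨k, ?_, fun k' hk' => ?_⟩
  · rcases hk with hk | hk
    · refine Or.inl ?_
      show _ = iD m (or k).1 (or k).2
      rw [hk]
    · refine Or.inr ?_
      show _ = T.fp (iD m (or k).1 (or k).2)
      rw [hk, hi.fp hm hs.symm]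
  · refine hO.uniq _ _ ?_
    rcases key k' hk' with h1 | h1 <;> rcases hk with h2 | h2 <;> rw [h1, h2]
    · exact Or.inl rfl
    · exact Or.inr rfl
    · exact Or.inr rfl
    · exact Or.inl rfl

/-- The selection of faces. -/
theorem Ori.faceSel (hO : Ori or G) (hi : Inn m T A) (h : Part m m')
    {Φ : Type} {oc : Φ → Od ρ n n'} (hoc : Sel (OR m m' T) (fun _ => True) oc) :
    T.IsFaceSel (Sum.elim (dX m m' ∘ oc) (iX m or)) := by
  refine (T.faceSel_iff _).2 (Sel.sum T.FR_equiv _ (fun _ _ => trivial)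
    (fun p q _ _ => OR_iff h p q) hoc _ (fun _ => trivial) (fun p _ => ?_) fun o k _ hk => ?_)
  · rcases h.dart' p with ⟨o, rfl⟩ | ⟨s, s', hs, rfl⟩
    · exact Or.inl ⟨o, trivial, Or.inl rfl⟩
    · exact Or.inr (hO.fr hi h.inj hs)
  · rcases hk with hk | hk
    · exact h.iD_ne (hO.ne k) o hk.symm
    · exact h.iD_ne (hO.ne k).symm o (hk.trans (hi.fp h.inj (hO.ne k))).symm

/-- A `1`-chain with given values on the outer and inner faces. -/
def mkY (m : Fin n → Fin 5) (ix : Fin 5 → Fin n ⊕ Fin n') (z : Od ρ n n' → Mat2)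
    (w : Fin n → Fin n → Mat2) : ρ ⊕ Fin n → Fin 4 → Mat2 :=
  Sum.elim (fun r a => z (Sum.inl (r, a)))
    fun s a => Sum.elim (w s) (fun i => z (Sum.inr (s, i))) (ix (lab (m s) a))

/-- The inverse numbering of the labels. -/
structure Inv (m : Fin n → Fin 5) (m' : Fin n' → Fin 5) (ix : Fin 5 → Fin n ⊕ Fin n') : Prop where
  left : ∀ s, ix (m s) = Sum.inl s
  right : ∀ i, ix (m' i) = Sum.inr i

theorem mkY_dX (h : Part m m') {ix : Fin 5 → Fin n ⊕ Fin n'} (hx : Inv m m' ix)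
    (z : Od ρ n n' → Mat2) (w : Fin n → Fin n → Mat2) (o : Od ρ n n') :
    mkY m ix z w (dX m m' o).1 (dX m m' o).2 = z o := by
  rcases o with p | p
  · rfl
  · show Sum.elim (w p.1) (fun i => z (Sum.inr (p.1, i)))
      (ix (lab (m p.1) (unlab (m p.1) (m' p.2)))) = _
    rw [lab_unlab _ _ (h.disj _ _).symm, hx.right]
    rfl

theorem mkY_iD (h : Part m m') {ix : Fin 5 → Fin n ⊕ Fin n'} (hx : Inv m m' ix)
    (z : Od ρ n n' → Mat2) (w : Fin n → Fin n → Mat2) {s s' : Fin n} (hs : s ≠ s') :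
    mkY m ix z w (iD m s s' : (ρ ⊕ Fin n) × Fin 4).1 (iD m s s' : (ρ ⊕ Fin n) × Fin 4).2 =
      w s s' := by
  show Sum.elim (w s) (fun i => z (Sum.inr (s, i)))
      (ix (lab (m s) (unlab (m s) (m s')))) = _
  rw [lab_unlab _ _ fun e => hs (h.inj e).symm, hx.left]
  rfl

theorem mkY_mem (h : Part m m') (hi : Inn m T A) {ix : Fin 5 → Fin n ⊕ Fin n'}
    (hx : Inv m m' ix) (z : Out m m' T A) (w : Fin n → Fin n → Mat2)
    (hw : ∀ s s', (w s s').trace = 0) (hw' : ∀ s s', w s' s = -w s s')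
    (hfl : ∀ o, ∃ o', T.fp (dX m m' o : (ρ ⊕ Fin n) × Fin 4) = dX m m' o') :
    mkY m ix z.1 w ∈ ch₁ T A := by
  refine ⟨fun j a => ?_, fun j a => ?_⟩
  · rcases h.dart' (j, a) with ⟨o, ho⟩ | ⟨s, s', hs, ho⟩
    · have h1 := mkY_dX h hx z.1 w o
      rw [← ho] at h1
      show (mkY m ix z.1 w (j, a).1 (j, a).2).trace = 0
      rw [h1]
      exact z.2.1 o
    · have h1 := mkY_iD h hx z.1 w hs
      rw [← ho] at h1
      show (mkY m ix z.1 w (j, a).1 (j, a).2).trace = 0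
      rw [h1]
      exact hw _ _
  · show mkY m ix z.1 w (T.fp (j, a)).1 (T.fp (j, a)).2 =
      -(A (j, a).1 (j, a).2 * mkY m ix z.1 w (j, a).1 (j, a).2 * (A (j, a).1 (j, a).2)⁻¹)
    rcases h.dart' (j, a) with ⟨o, ho⟩ | ⟨s, s', hs, ho⟩
    · rw [ho]
      obtain ⟨o', ho'⟩ := hfl o
      rw [ho', mkY_dX h hx, mkY_dX h hx]
      exact z.2.2 o o' ho'
    · rw [ho, hi.fp h.inj hs, mkY_iD h hx _ _ hs, mkY_iD h hx _ _ hs.symm, hw' s s']
      have h1 : lab (m s) (unlab (m s) (m s')) = m s' := lab_unlab _ _ fun e => hs (h.inj e).symm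
      obtain ⟨-, -, h4⟩ := hi s s' hs _ h1
      show -w s s' = -(A (Sum.inr s) (unlab (m s) (m s')) * w s s' *
        (A (Sum.inr s) (unlab (m s) (m s')))⁻¹)
      rw [h4]
      simp

theorem Ori.j₁ (hO : Ori or G) (h : Part m m') (hi : Inn m T A) {ix : Fin 5 → Fin n ⊕ Fin n'}
    (hx : Inv m m' ix)
    (hfl : ∀ o, ∃ o', T.fp (dX m m' o : (ρ ⊕ Fin n) × Fin 4) = dX m m' o') :
    Function.Bijective fun y : ch₁ T A => (pX m m' T A y, cc₁ T A (iX m or) y) := by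
  constructor
  · intro y y' hy
    have h1 : pX m m' T A y = pX m m' T A y' := congrArg Prod.fst hy
    have h2 : cc₁ T A (iX m or) y = cc₁ T A (iX m or) y' := congrArg Prod.snd hy
    have h3 : ∀ k, y.1 (iX m or k).1 (iX m or k).2 = y'.1 (iX m or k).1 (iX m or k).2 := fun k =>
      coord_inj (y.2.1 _ _) (y'.2.1 _ _) (funext fun l => congrFun h2 (k, l))
    apply Subtype.ext
    funext j a
    rcases h.dart' (j, a) with ⟨o, ho⟩ | ⟨s, s', hs, ho⟩
    · show y.1 (j, a).1 (j, a).2 = y'.1 (j, a).1 (j, a).2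
      rw [ho]
      exact congrFun (congrArg Subtype.val h1) o
    · show y.1 (j, a).1 (j, a).2 = y'.1 (j, a).1 (j, a).2
      rw [ho]
      obtain ⟨k, hk | hk⟩ := hO.all s s' hs
      · have h4 := h3 k
        have h5 : (iX m or k : (ρ ⊕ Fin n) × Fin 4) = iD m s s' := by
          show iD m (or k).1 (or k).2 = _
          rw [hk]
        rwa [h5] at h4
      · have h4 := h3 k
        have h5 : (iX m or k : (ρ ⊕ Fin n) × Fin 4) = iD m s' s := by
          show iD m (or k).1 (or k).2 = _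
          rw [hk]
        rw [h5] at h4
        have h6 := y.2.2 (iD m s' s : (ρ ⊕ Fin n) × Fin 4).1 (iD m s' s : (ρ ⊕ Fin n) × Fin 4).2
        have h7 := y'.2.2 (iD m s' s : (ρ ⊕ Fin n) × Fin 4).1 (iD m s' s : (ρ ⊕ Fin n) × Fin 4).2
        rw [h4, ← h7] at h6
        have h8 : (T.adj (iD m s' s : (ρ ⊕ Fin n) × Fin 4).1 (iD m s' s : (ρ ⊕ Fin n) × Fin 4).2,
          T.glue (iD m s' s : (ρ ⊕ Fin n) × Fin 4).1 (iD m s' s : (ρ ⊕ Fin n) × Fin 4).2
            (iD m s' s : (ρ ⊕ Fin n) × Fin 4).2) = iD m s s' := hi.fp h.inj hs.symm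
        rw [← h8]
        exact h6
  · rintro ⟨z, w⟩
    refine ⟨⟨mkY m ix z.1 (G fun k => ucoord fun l => w (k, l)), mkY_mem h hi hx z _
      (hO.tr0 _ fun k => trace_ucoord _) (fun s s' => hO.anti _ s s') hfl⟩, ?_⟩
    refine Prod.ext (Subtype.ext (funext fun o => ?_)) (funext fun p => ?_)
    · exact mkY_dX h hx _ _ o
    · obtain ⟨k, l⟩ := p
      show coord (mkY m ix z.1 (G fun k => ucoord fun l => w (k, l))
        (iD m (or k).1 (or k).2 : (ρ ⊕ Fin n) × Fin 4).1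
        (iD m (or k).1 (or k).2 : (ρ ⊕ Fin n) × Fin 4).2) l = w (k, l)
      rw [mkY_iD h hx _ _ (hO.ne k), hO.val, coord_ucoord]

/-- The values of `1`-chains on inner darts. -/
theorem Inn.val (hi : Inn m T A) (hm : Function.Injective m) {s s' : Fin n} (hs : s ≠ s')
    {y : ρ ⊕ Fin n → Fin 4 → Mat2} (hy : T.Ch₁ A y) :
    y (Sum.inr s') (unlab (m s') (m s)) = -y (Sum.inr s) (unlab (m s) (m s')) := by
  have h1 := hy.2 (Sum.inr s) (unlab (m s) (m s'))
  have h2 : (T.adj (Sum.inr s) (unlab (m s) (m s')), T.glue (Sum.inr s) (unlab (m s) (m s'))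
    (unlab (m s) (m s'))) = (Sum.inr s', unlab (m s') (m s)) := hi.fp hm hs
  have h3 := congrArg Prod.fst h2
  have h4 := congrArg Prod.snd h2
  have h5 : lab (m s) (unlab (m s) (m s')) = m s' := lab_unlab _ _ fun e => hs (hm e).symm
  obtain ⟨-, -, h6⟩ := hi s s' hs _ h5
  simp only at h3 h4
  rw [h3, h4, h6] at h1
  rw [h1]
  simp

end Run7.h360
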