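import Pool.Agent.Run7.h360.Sel

/-!
# Invariance of the torsion under isomorphisms of triangulated manifolds with flat bundles
-/

set_option autoImplicit false

namespace Run7.h360

open Matrix Pool.Agent.H15_OneLoop

theorem papp_inv {α : Type} (σ : Equiv.Perm α) (v : α) : σ (σ⁻¹ v) = v :=
  σ.apply_symm_apply v

theorem inv_papp {α : Type} (σ : Equiv.Perm α) (v : α) : σ⁻¹ (σ v) = v :=
  σ.symm_apply_apply v

namespace Framed.Iso

variable {X Y : Framed} (i : Framed.Iso X Y)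

theorem glue_apply (j : X.J) (a v : Fin 4) :
    Y.tri.glue (i.e j) (i.ρ j a) (i.ρ j v) = i.ρ (X.tri.adj j a) (X.tri.glue j a v) :=
  congrArg (fun p : Equiv.Perm (Fin 4) => p v) (i.glue j a)

/-- The inverse isomorphism. -/
noncomputable def symm : Framed.Iso Y X where
  e := i.e.symm
  ρ j := (i.ρ (i.e.symm j))⁻¹
  even j := by rw [Equiv.Perm.sign_inv]; exact i.even _
  adj j a := by
    have h := i.adj (i.e.symm j) ((i.ρ (i.e.symm j))⁻¹ a)
    rw [Equiv.apply_symm_apply, papp_inv] at h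
    rw [h, Equiv.symm_apply_apply]
  glue j a := by
    have h := i.adj (i.e.symm j) ((i.ρ (i.e.symm j))⁻¹ a)
    have h' := i.glue (i.e.symm j) ((i.ρ (i.e.symm j))⁻¹ a)
    rw [Equiv.apply_symm_apply, papp_inv] at h h'
    have h2 : i.e.symm (Y.tri.adj j a) =
        X.tri.adj (i.e.symm j) ((i.ρ (i.e.symm j))⁻¹ a) := by
      rw [h, Equiv.symm_apply_apply]
    rw [h2]
    rw [mul_inv_eq_iff_eq_mul, mul_assoc, h', inv_mul_cancel_left]
  g j := (i.g (i.e.symm j))⁻¹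
  unit j := Matrix.isUnit_nonsing_inv_det _ (i.unit _)
  s j a := (i.s (i.e.symm j) ((i.ρ (i.e.symm j))⁻¹ a))⁻¹
  s_ne j a := inv_ne_zero (i.s_ne _ _)
  bundle j a := by
    have h := i.adj (i.e.symm j) ((i.ρ (i.e.symm j))⁻¹ a)
    have h' := i.bundle (i.e.symm j) ((i.ρ (i.e.symm j))⁻¹ a)
    rw [Equiv.apply_symm_apply, papp_inv] at h h'
    have h2 : i.e.symm (Y.tri.adj j a) =
        X.tri.adj (i.e.symm j) ((i.ρ (i.e.symm j))⁻¹ a) := by
      rw [h, Equiv.symm_apply_apply]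
    have u1 := i.unit (i.e.symm j)
    have u2 := i.unit (X.tri.adj (i.e.symm j) ((i.ρ (i.e.symm j))⁻¹ a))
    rw [h', h2, Matrix.nonsing_inv_nonsing_inv _ u1, Matrix.mul_smul, Matrix.smul_mul, smul_smul,
      inv_mul_cancel₀ (i.s_ne _ _), one_smul]
    have e1 := Matrix.nonsing_inv_mul _ u1
    have e2 := Matrix.nonsing_inv_mul _ u2
    set Q := i.g (X.tri.adj (i.e.symm j) ((i.ρ (i.e.symm j))⁻¹ a))
    set R := i.g (i.e.symm j)
    set B := X.A (i.e.symm j) ((i.ρ (i.e.symm j))⁻¹ a)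
    calc B = (Q⁻¹ * Q) * B * (R⁻¹ * R) := by rw [e1, e2, Matrix.one_mul, Matrix.mul_one]
      _ = Q⁻¹ * (Q * B * R⁻¹) * R := by simp only [Matrix.mul_assoc]
  h j v w := -i.h (i.e.symm j) ((i.ρ (i.e.symm j))⁻¹ v) ((i.ρ (i.e.symm j))⁻¹ w)
  h_glue j a v w hv hw hvw := by
    have h := i.adj (i.e.symm j) ((i.ρ (i.e.symm j))⁻¹ a)
    have h' := fun v => i.glue_apply (i.e.symm j) ((i.ρ (i.e.symm j))⁻¹ a)
      ((i.ρ (i.e.symm j))⁻¹ v)
    simp only [Equiv.apply_symm_apply, papp_inv] at h h'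
    have h2 : i.e.symm (Y.tri.adj j a) =
        X.tri.adj (i.e.symm j) ((i.ρ (i.e.symm j))⁻¹ a) := by
      rw [h, Equiv.symm_apply_apply]
    rw [h2, h', h', inv_papp, inv_papp,
      i.h_glue _ _ _ _ (fun e => hv ((i.ρ (i.e.symm j))⁻¹.injective e))
        (fun e => hw ((i.ρ (i.e.symm j))⁻¹.injective e))
        (fun e => hvw ((i.ρ (i.e.symm j))⁻¹.injective e))]
  cycle j σ hσ := by
    have h := i.cycle (i.e.symm j) ((i.ρ (i.e.symm j))⁻¹ * σ) (by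
      rw [Equiv.Perm.sign_mul, Equiv.Perm.sign_inv, i.even, hσ, one_mul])
    simp only [Equiv.Perm.mul_apply, papp_inv, Equiv.apply_symm_apply] at h
    rw [h]
    ring

/-! ### The maps of chains -/

/-- Conjugation by the gauge. -/
noncomputable def bw (j : X.J) (Z : Mat2) : Mat2 := (i.g j)⁻¹ * Z * i.g j

theorem bw_add (j : X.J) (Z W : Mat2) : i.bw j (Z + W) = i.bw j Z + i.bw j W := by
  simp only [bw, Matrix.mul_add, Matrix.add_mul]

theorem bw_smul (j : X.J) (c : ℂ) (Z : Mat2) : i.bw j (c • Z) = c • i.bw j Z := by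
  simp only [bw, Matrix.mul_smul, Matrix.smul_mul]

theorem bw_neg (j : X.J) (Z : Mat2) : i.bw j (-Z) = -i.bw j Z := by
  simp only [bw, Matrix.mul_neg, Matrix.neg_mul]

theorem bw_sum (j : X.J) {α : Type} (s : Finset α) (Z : α → Mat2) :
    i.bw j (∑ k ∈ s, Z k) = ∑ k ∈ s, i.bw j (Z k) := by
  simp only [bw, Matrix.mul_sum, Matrix.sum_mul]

theorem bw_trace (j : X.J) (Z : Mat2) : (i.bw j Z).trace = Z.trace := by
  unfold bw
  rw [Matrix.mul_assoc, Matrix.trace_mul_comm, Matrix.mul_assoc,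
    Matrix.mul_nonsing_inv _ (i.unit j), Matrix.mul_one]

theorem bw_conj (j : X.J) (a : Fin 4) (Z : Mat2) :
    i.bw (X.tri.adj j a) (Y.A (i.e j) (i.ρ j a) * Z * (Y.A (i.e j) (i.ρ j a))⁻¹) =
      X.A j a * i.bw j Z * (X.A j a)⁻¹ := by
  unfold bw
  rw [i.bundle]
  have u1 := i.unit j
  have u2 := i.unit (X.tri.adj j a)
  have e1 := Matrix.nonsing_inv_mul _ u2
  have hs := i.s_ne j a
  set Q := i.g (X.tri.adj j a)
  set R := i.g j
  set B := X.A j a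
  have uB : IsUnit B.det := X.unit j a
  have hM : IsUnit (Q * B * R⁻¹).det := by
    rw [Matrix.det_mul, Matrix.det_mul]
    exact (u2.mul uB).mul (Matrix.isUnit_nonsing_inv_det R u1)
  have h1 : (i.s j a • (Q * B * R⁻¹))⁻¹ = (i.s j a)⁻¹ • (Q * B * R⁻¹)⁻¹ := by
    have := Matrix.inv_smul' (A := Q * B * R⁻¹) (Units.mk0 _ hs) hM
    simpa [Units.smul_def] using this
  rw [h1, Matrix.smul_mul, Matrix.mul_smul, Matrix.smul_mul, smul_smul,
    inv_mul_cancel₀ hs, one_smul, Matrix.mul_inv_rev, Matrix.mul_inv_rev,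
    Matrix.nonsing_inv_nonsing_inv _ u1]
  calc Q⁻¹ * (Q * B * R⁻¹ * Z * (R * (B⁻¹ * Q⁻¹))) * Q =
      (Q⁻¹ * Q) * (B * (R⁻¹ * Z * R) * B⁻¹) * (Q⁻¹ * Q) := by simp only [Matrix.mul_assoc]
    _ = B * (R⁻¹ * Z * R) * B⁻¹ := by rw [e1, Matrix.one_mul, Matrix.mul_one]

/-- The map of `2`-chains. -/
noncomputable def B₂ : ch₂ Y.tri Y.A →ₗ[ℂ] ch₂ X.tri X.A where
  toFun y := ⟨fun j v w => i.bw j (y.1 (i.e j) (i.ρ j v) (i.ρ j w)), by
    refine ⟨fun j v w => ?_, fun j v w => ?_, fun j a v w hv hw => ?_⟩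
    · rw [bw_trace]; exact y.2.1 _ _ _
    · show i.bw j (y.1 (i.e j) (i.ρ j w) (i.ρ j v)) = -i.bw j (y.1 (i.e j) (i.ρ j v) (i.ρ j w))
      rw [y.2.2.1 _ (i.ρ j v) (i.ρ j w), bw_neg]
    · show i.bw (X.tri.adj j a) (y.1 (i.e (X.tri.adj j a)) (i.ρ (X.tri.adj j a)
        (X.tri.glue j a v)) (i.ρ (X.tri.adj j a) (X.tri.glue j a w))) = _
      rw [← i.adj, ← i.glue_apply, ← i.glue_apply, y.2.2.2 _ _ _ _
        (fun h => hv ((i.ρ j).injective h)) (fun h => hw ((i.ρ j).injective h)), bw_conj]⟩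
  map_add' x y := by
    apply Subtype.ext
    funext j v w
    exact i.bw_add _ _ _
  map_smul' c x := by
    apply Subtype.ext
    funext j v w
    exact i.bw_smul _ _ _

/-- The map of `1`-chains. -/
noncomputable def B₁ : ch₁ Y.tri Y.A →ₗ[ℂ] ch₁ X.tri X.A where
  toFun y := ⟨fun j a => i.bw j (y.1 (i.e j) (i.ρ j a)), by
    refine ⟨fun j a => ?_, fun j a => ?_⟩
    · rw [bw_trace]; exact y.2.1 _ _
    · show i.bw (X.tri.adj j a) (y.1 (i.e (X.tri.adj j a)) (i.ρ (X.tri.adj j a)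
        (X.tri.glue j a a))) = _
      rw [← i.adj, ← i.glue_apply, y.2.2, bw_neg, bw_conj]⟩
  map_add' x y := by
    apply Subtype.ext
    funext j v
    exact i.bw_add _ _ _
  map_smul' c x := by
    apply Subtype.ext
    funext j v
    exact i.bw_smul _ _ _

/-- The map of `0`-chains. -/
noncomputable def B₀ : ch₀ Y.J →ₗ[ℂ] ch₀ X.J where
  toFun y := ⟨fun j => i.bw j (y.1 (i.e j)), by
    intro j
    show (i.bw j (y.1 (i.e j))).trace = 0
    rw [bw_trace]; exact y.2 _⟩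
  map_add' x y := by
    apply Subtype.ext
    funext j
    exact i.bw_add _ _ _
  map_smul' c x := by
    apply Subtype.ext
    funext j
    exact i.bw_smul _ _ _

theorem D₂_B₂ (x : ch₂ Y.tri Y.A) : D₂ X.tri X.A (i.B₂ x) = i.B₁ (D₂ Y.tri Y.A x) := by
  apply Subtype.ext
  funext j a
  show ∑ σ ∈ evenAt a, i.bw j (x.1 (i.e j) (i.ρ j (σ 0)) (i.ρ j (σ 1))) =
    i.bw j (∑ σ ∈ evenAt (i.ρ j a), x.1 (i.e j) (σ 0) (σ 1))
  rw [bw_sum]
  refine Finset.sum_bij' (i := fun σ _ => i.ρ j * σ) (j := fun σ _ => (i.ρ j)⁻¹ * σ)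
    ?_ ?_ ?_ ?_ ?_
  · intro σ hσ
    simp only [evenAt, Finset.mem_filter, Finset.mem_univ, true_and] at hσ ⊢
    rw [Equiv.Perm.sign_mul, i.even, hσ.1, Equiv.Perm.mul_apply, hσ.2]
    exact ⟨rfl, rfl⟩
  · intro σ hσ
    simp only [evenAt, Finset.mem_filter, Finset.mem_univ, true_and] at hσ ⊢
    rw [Equiv.Perm.sign_mul, Equiv.Perm.sign_inv, i.even, hσ.1, Equiv.Perm.mul_apply, hσ.2,
      inv_papp]
    exact ⟨rfl, rfl⟩
  · intro σ _
    exact inv_mul_cancel_left _ _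
  · intro σ _
    exact mul_inv_cancel_left _ _
  · intro σ _
    rfl

theorem D₁_B₁ (x : ch₁ Y.tri Y.A) : D₁ X.tri X.A (i.B₁ x) = i.B₀ (D₁ Y.tri Y.A x) := by
  apply Subtype.ext
  funext j
  show -∑ a, i.bw j (x.1 (i.e j) (i.ρ j a)) = i.bw j (-∑ a, x.1 (i.e j) a)
  rw [bw_neg, bw_sum]
  exact congrArg Neg.neg (Equiv.sum_comp (i.ρ j) fun a => i.bw j (x.1 (i.e j) a))

theorem symm_g (j : Y.J) : i.symm.g j = (i.g (i.e.symm j))⁻¹ := rfl

theorem symm_bw (j : Y.J) (Z : Mat2) : i.symm.bw j (i.bw (i.e.symm j) Z) = Z := by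
  unfold bw
  rw [symm_g, Matrix.nonsing_inv_nonsing_inv _ (i.unit _), conj_conj_inv _ _ (i.unit _)]

theorem bw_symm (j : X.J) (Z : Mat2) : i.bw j (i.symm.bw (i.e j) Z) = Z := by
  unfold bw
  rw [symm_g, Matrix.nonsing_inv_nonsing_inv _ (i.unit _), Equiv.symm_apply_apply,
    conj_inv_conj _ _ (i.unit _)]

theorem B₂_bij : Function.Bijective i.B₂ := by
  refine Function.bijective_iff_has_inverse.2 ⟨i.symm.B₂, fun y => ?_, fun x => ?_⟩
  · apply Subtype.ext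
    funext j v w
    show i.symm.bw j (i.bw (i.e.symm j) (y.1 (i.e (i.e.symm j))
      (i.ρ (i.e.symm j) ((i.ρ (i.e.symm j))⁻¹ v)) (i.ρ (i.e.symm j) ((i.ρ (i.e.symm j))⁻¹ w)))) = _
    rw [symm_bw, Equiv.apply_symm_apply, papp_inv, papp_inv]
  · apply Subtype.ext
    funext j v w
    show i.bw j (i.symm.bw (i.e j) (x.1 (i.e.symm (i.e j))
      ((i.ρ (i.e.symm (i.e j)))⁻¹ (i.ρ j v)) ((i.ρ (i.e.symm (i.e j)))⁻¹ (i.ρ j w)))) = _
    rw [bw_symm, Equiv.symm_apply_apply, inv_papp, inv_papp]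

theorem B₁_bij : Function.Bijective i.B₁ := by
  refine Function.bijective_iff_has_inverse.2 ⟨i.symm.B₁, fun y => ?_, fun x => ?_⟩
  · apply Subtype.ext
    funext j v
    show i.symm.bw j (i.bw (i.e.symm j) (y.1 (i.e (i.e.symm j))
      (i.ρ (i.e.symm j) ((i.ρ (i.e.symm j))⁻¹ v)))) = _
    rw [symm_bw, Equiv.apply_symm_apply, papp_inv]
  · apply Subtype.ext
    funext j v
    show i.bw j (i.symm.bw (i.e j) (x.1 (i.e.symm (i.e j))
      ((i.ρ (i.e.symm (i.e j)))⁻¹ (i.ρ j v)))) = _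
    rw [bw_symm, Equiv.symm_apply_apply, inv_papp]

theorem B₀_bij : Function.Bijective i.B₀ := by
  refine Function.bijective_iff_has_inverse.2 ⟨i.symm.B₀, fun y => ?_, fun x => ?_⟩
  · apply Subtype.ext
    funext j
    show i.symm.bw j (i.bw (i.e.symm j) (y.1 (i.e (i.e.symm j)))) = _
    rw [symm_bw, Equiv.apply_symm_apply]
  · apply Subtype.ext
    funext j
    show i.bw j (i.symm.bw (i.e j) (x.1 (i.e.symm (i.e j)))) = _
    rw [bw_symm, Equiv.symm_apply_apply]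

/-! ### Cycles -/

/-- The cusp invariant. -/
noncomputable def bP (P : Y.J → Fin 4 → Mat2) : X.J → Fin 4 → Mat2 :=
  fun j v => i.bw j (P (i.e j) (i.ρ j v))

theorem bP_inv {P : Y.J → Fin 4 → Mat2} (hP : Y.tri.IsCuspInv Y.A P) :
    X.tri.IsCuspInv X.A (i.bP P) where
  trace_eq j v := by
    show (i.bw j _).trace = 0
    rw [bw_trace]; exact hP.trace_eq _ _
  parallel j a v hv := by
    show i.bw (X.tri.adj j a) (P (i.e (X.tri.adj j a)) (i.ρ (X.tri.adj j a)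
      (X.tri.glue j a v))) = _
    rw [← i.adj, ← i.glue_apply, hP.parallel _ _ _ (fun h => hv ((i.ρ j).injective h)), bw_conj]
    rfl
  ne_zero := by
    obtain ⟨j, v, h⟩ := hP.ne_zero
    refine ⟨i.e.symm j, (i.ρ (i.e.symm j))⁻¹ v, fun h0 => h ?_⟩
    have h1 : i.bw (i.e.symm j) (P (i.e (i.e.symm j)) (i.ρ (i.e.symm j)
      ((i.ρ (i.e.symm j))⁻¹ v))) = 0 := h0
    rw [Equiv.apply_symm_apply, papp_inv] at h1
    rw [← i.symm_bw j (P j v), h1]
    simp [bw]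

theorem B₂_cTwo {P : Y.J → Fin 4 → Mat2} (hP : Y.tri.IsCuspInv Y.A P) :
    i.B₂ (cTwo hP) = cTwo (i.bP_inv hP) := by
  apply Subtype.ext
  funext j v w
  show i.bw j (P (i.e j) (i.ρ j v) - P (i.e j) (i.ρ j w)) = i.bw j _ - i.bw j _
  rw [sub_eq_add_neg, bw_add, bw_neg, sub_eq_add_neg]

/-- The `2`-chain whose boundary is the difference of the peripheral cycles. -/
noncomputable def xi {P : X.J → Fin 4 → Mat2} (hP : X.tri.IsCuspInv X.A P) :
    ch₂ X.tri X.A :=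
  ⟨fun j v w => if v = w then 0 else (i.h j v w : ℂ) • P j v - (i.h j w v : ℂ) • P j w, by
    refine ⟨fun j v w => ?_, fun j v w => ?_, fun j a v w hv hw => ?_⟩ <;> beta_reduce
    · by_cases h : v = w
      · rw [if_pos h, Matrix.trace_zero]
      · rw [if_neg h, Matrix.trace_sub, Matrix.trace_smul, Matrix.trace_smul, hP.trace_eq,
          hP.trace_eq, smul_zero, smul_zero, sub_zero]
    · by_cases h : v = w
      · rw [if_pos h, if_pos h.symm, neg_zero]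
      · rw [if_neg h, if_neg (Ne.symm h), neg_sub]
    · by_cases h : v = w
      · rw [if_pos h, if_pos (by rw [h]), Matrix.mul_zero, Matrix.zero_mul]
      · rw [if_neg h, if_neg (fun h' => h ((X.tri.glue j a).injective h')),
          i.h_glue j a v w hv hw h, i.h_glue j a w v hw hv (Ne.symm h), hP.parallel j a v hv,
          hP.parallel j a w hw, Matrix.mul_sub, Matrix.sub_mul]
        simp only [Matrix.mul_smul, Matrix.smul_mul]⟩

theorem lft_two : ∀ v a : Fin 4, v ≠ a → ∃ σ : Equiv.Perm (Fin 4),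
    Equiv.Perm.sign σ = 1 ∧ σ 0 = v ∧ σ 2 = a ∧ σ 1 = lft v a ∧ σ 3 = rgt v a := by
  decide

theorem sum_xi {P : Fin 4 → Mat2} (h : Fin 4 → Fin 4 → ℤ) (a : Fin 4) :
    (∑ v : Fin 4, if v = a then 0 else (if v = lft v a then (0 : Mat2) else
      (h v (lft v a) : ℂ) • P v - (h (lft v a) v : ℂ) • P (lft v a))) =
    ∑ v, if v = a then 0 else ((h v (lft v a) - h v (rgt v a) : ℤ) : ℂ) • P v := by
  fin_cases a <;> simp [Fin.sum_univ_four, lft, rgt, sub_smul] <;> abel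

theorem B₁_cOne {P : Y.J → Fin 4 → Mat2} (hP : Y.tri.IsCuspInv Y.A P) :
    i.B₁ (cOne hP Y.cycle) =
      cOne (i.bP_inv hP) X.cycle + D₂ X.tri X.A (i.xi (i.bP_inv hP)) := by
  apply Subtype.ext
  funext j a
  show i.bw j (∑ v, (Y.c (i.e j) v (i.ρ j a) : ℂ) • P (i.e j) v) =
    ∑ v, (X.c j v a : ℂ) • i.bP P j v + ∑ σ ∈ evenAt a, (if σ 0 = σ 1 then (0 : Mat2) else
      (i.h j (σ 0) (σ 1) : ℂ) • i.bP P j (σ 0) - (i.h j (σ 1) (σ 0) : ℂ) • i.bP P j (σ 1))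
  rw [sum_evenAt (fun v w => if v = w then (0 : Mat2) else
    (i.h j v w : ℂ) • i.bP P j v - (i.h j w v : ℂ) • i.bP P j w), sum_xi, bw_sum,
    ← Equiv.sum_comp (i.ρ j), ← Finset.sum_add_distrib]
  refine Finset.sum_congr rfl fun v _ => ?_
  rw [bw_smul]
  show (Y.c (i.e j) (i.ρ j v) (i.ρ j a) : ℂ) • i.bP P j v = _
  by_cases hv : v = a
  · subst hv
    rw [Y.cycle.diag, X.cycle.diag]
    simp
  · obtain ⟨σ, h1, h2, h3, h4, h5⟩ := lft_two v a hv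
    have h6 := i.cycle j σ h1
    rw [h2, h3, h4, h5] at h6
    rw [if_neg hv, h6, ← add_smul]
    push_cast
    rfl

/-! ### The correspondence of faces and edges -/

/-- The bijection of the oriented edges of the tetrahedra. -/
def ptE (p : X.J × Fin 4 × Fin 4) : Y.J × Fin 4 × Fin 4 :=
  (i.e p.1, i.ρ p.1 p.2.1, i.ρ p.1 p.2.2)

/-- The bijection of the faces of the tetrahedra. -/
def ptF (p : X.J × Fin 4) : Y.J × Fin 4 := (i.e p.1, i.ρ p.1 p.2)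

theorem symm_ptE (p : X.J × Fin 4 × Fin 4) : i.symm.ptE (i.ptE p) = p := by
  obtain ⟨j, v, w⟩ := p
  show (i.e.symm (i.e j), (i.ρ (i.e.symm (i.e j)))⁻¹ (i.ρ j v),
    (i.ρ (i.e.symm (i.e j)))⁻¹ (i.ρ j w)) = (j, v, w)
  rw [Equiv.symm_apply_apply, inv_papp, inv_papp]

theorem ptE_symm (p : Y.J × Fin 4 × Fin 4) : i.ptE (i.symm.ptE p) = p := by
  obtain ⟨j, v, w⟩ := p
  show (i.e (i.e.symm j), (i.ρ (i.e.symm j)) ((i.ρ (i.e.symm j))⁻¹ v),
    (i.ρ (i.e.symm j)) ((i.ρ (i.e.symm j))⁻¹ w)) = (j, v, w)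
  rw [Equiv.apply_symm_apply, papp_inv, papp_inv]

theorem symm_ptF (p : X.J × Fin 4) : i.symm.ptF (i.ptF p) = p := by
  obtain ⟨j, v⟩ := p
  show (i.e.symm (i.e j), (i.ρ (i.e.symm (i.e j)))⁻¹ (i.ρ j v)) = (j, v)
  rw [Equiv.symm_apply_apply, inv_papp]

theorem ptF_symm (p : Y.J × Fin 4) : i.ptF (i.symm.ptF p) = p := by
  obtain ⟨j, v⟩ := p
  show (i.e (i.e.symm j), (i.ρ (i.e.symm j)) ((i.ρ (i.e.symm j))⁻¹ v)) = (j, v)
  rw [Equiv.apply_symm_apply, papp_inv]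

theorem ER_of {p q : X.J × Fin 4 × Fin 4} (h : X.tri.ER p q) : Y.tri.ER (i.ptE p) (i.ptE q) := by
  induction h with
  | rel p q h =>
    cases h with
    | flip j v w => exact Relation.EqvGen.rel _ _ (.flip _ _ _)
    | cross j a v w hv hw =>
      have h := Tri.EdgeStep.cross (T := Y.tri) (i.e j) (i.ρ j a) (i.ρ j v) (i.ρ j w)
        (fun h => hv ((i.ρ j).injective h)) (fun h => hw ((i.ρ j).injective h))
      rw [i.adj, i.glue_apply, i.glue_apply] at h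
      exact Relation.EqvGen.rel _ _ h
  | refl p => exact Relation.EqvGen.refl _
  | symm p q _ ih => exact ih.symm
  | trans p q r _ _ ih ih' => exact ih.trans _ _ _ ih'

theorem ER_iff (p q : X.J × Fin 4 × Fin 4) :
    X.tri.ER p q ↔ Y.tri.ER (i.ptE p) (i.ptE q) := by
  refine ⟨i.ER_of, fun h => ?_⟩
  have h' := i.symm.ER_of h
  rwa [symm_ptE, symm_ptE] at h'

theorem FR_of {p q : X.J × Fin 4} (h : X.tri.FR p q) : Y.tri.FR (i.ptF p) (i.ptF q) := by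
  rcases h with rfl | rfl
  · exact Or.inl rfl
  · refine Or.inr ?_
    show (i.e (X.tri.adj p.1 p.2), i.ρ (X.tri.adj p.1 p.2) (X.tri.glue p.1 p.2 p.2)) =
      (Y.tri.adj (i.e p.1) (i.ρ p.1 p.2), Y.tri.glue (i.e p.1) (i.ρ p.1 p.2) (i.ρ p.1 p.2))
    rw [i.adj, i.glue_apply]

theorem FR_iff (p q : X.J × Fin 4) : X.tri.FR p q ↔ Y.tri.FR (i.ptF p) (i.ptF q) := by
  refine ⟨i.FR_of, fun h => ?_⟩
  have h' := i.symm.FR_of h
  rwa [symm_ptF, symm_ptF] at h'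

/-! ### Coordinates -/

theorem smul_adM_det (s : ℂ) (Q : Mat2) (hs : s ^ 2 = 1) (hQ : IsUnit Q.det) :
    (s • adM Q).det ^ 2 = 1 := by
  rw [Matrix.det_smul, adM_det Q hQ, mul_one, Fintype.card_fin, ← pow_mul, mul_comm 3 2, pow_mul,
    hs, one_pow]

theorem bw_coord (j : X.J) (s : ℂ) (Q Z : Mat2) (hQ : IsUnit Q.det) (hZ : Z.trace = 0) :
    coord (i.bw j (s • (Q * Z * Q⁻¹))) = (s • adM ((i.g j)⁻¹ * Q)) *ᵥ coord Z := by
  have u := i.unit j
  have u' := Matrix.isUnit_nonsing_inv_det _ u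
  have h1 : i.bw j (s • (Q * Z * Q⁻¹)) = s • (((i.g j)⁻¹ * Q) * Z * ((i.g j)⁻¹ * Q)⁻¹) := by
    unfold bw
    rw [Matrix.mul_smul, Matrix.smul_mul]
    congr 1
    have h2 := conj_comp Q (i.g j)⁻¹ Z
    rw [Matrix.nonsing_inv_nonsing_inv _ u] at h2
    exact h2
  rw [h1, coord_smul', adM_mulVec _ _ (by rw [Matrix.det_mul]; exact u'.mul hQ) hZ,
    Matrix.smul_mulVec]

theorem tor {V Φ E V' Φ' E' : Type} [Fintype V] [DecidableEq V] [Fintype Φ] [DecidableEq Φ]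
    [Fintype E] [DecidableEq E] [Fintype V'] [DecidableEq V'] [Fintype Φ'] [DecidableEq Φ']
    [Fintype E'] [DecidableEq E'] {P : Y.J → Fin 4 → Mat2} (hP : Y.tri.IsCuspInv Y.A P)
    (ν : V → X.J) (φ : Φ → X.J × Fin 4) (ε : E → X.J × Fin 4 × Fin 4)
    (ν' : V' → Y.J) (φ' : Φ' → Y.J × Fin 4) (ε' : E' → Y.J × Fin 4 × Fin 4)
    (hν : Function.Bijective ν) (hφ : X.tri.IsFaceSel φ) (hε : X.tri.IsEdgeSel ε)
    (hν' : Function.Bijective ν') (hφ' : Y.tri.IsFaceSel φ') (hε' : Y.tri.IsEdgeSel ε') {t : ℂ}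
    (h : Tor Y.tri Y.A P hP Y.c Y.cycle ν' φ' ε' t) :
    Tor X.tri X.A (i.bP P) (i.bP_inv hP) X.c X.cycle ν φ ε t := by
  -- the bijections
  obtain ⟨f₂, hf₂⟩ := Sel.equiv (Y.tri.ER_equiv) i.ptE (fun q => ⟨_, i.ptE_symm q⟩) i.ER_iff
    (fun p => (i.ρ p.1).injective.ne_iff.symm) ((Tri.edgeSel_iff _ _).1 hε)
    ((Tri.edgeSel_iff _ _).1 hε')
  obtain ⟨f₁, hf₁⟩ := Sel.equiv (Y.tri.FR_equiv) i.ptF (fun q => ⟨_, i.ptF_symm q⟩) i.FR_iff
    (fun p => Iff.rfl) ((Tri.faceSel_iff _ _).1 hφ) ((Tri.faceSel_iff _ _).1 hφ')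
  let f₀ : V ≃ V' := ((Equiv.ofBijective ν hν).trans i.e).trans (Equiv.ofBijective ν' hν').symm
  have hf₀ : ∀ v, ν' (f₀ v) = i.e (ν v) := fun v =>
    (Equiv.ofBijective ν' hν').apply_symm_apply _
  have c₂ := fun e => Tri.edge_conj Y.tri Y.unit (hf₂ e)
  have c₁ := fun F => Tri.face_conj Y.tri Y.unit (hf₁ F)
  choose Q₂ u₂ s₂ hs₂ hc₂ using c₂
  choose Q₁ u₁ s₁ hs₁ hc₁ using c₁
  have U : ∀ (j : X.J) (Q : Mat2), IsUnit Q.det → IsUnit ((i.g j)⁻¹ * Q).det := fun j Q hQ => by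
    rw [Matrix.det_mul]
    exact (Matrix.isUnit_nonsing_inv_det _ (i.unit j)).mul hQ
  have key := LT.iso h (cc₂ X.tri X.A ε) (cc₁ X.tri X.A φ) (cc₀ ν) (D₂ X.tri X.A)
    (D₁ X.tri X.A) i.B₂ i.B₁ i.B₀ i.B₂_bij i.B₁_bij i.B₀_bij i.D₂_B₂ i.D₁_B₁
    (mono f₂ fun e => s₂ e • adM ((i.g (ε e).1)⁻¹ * Q₂ e))
    (mono f₁ fun F => s₁ F • adM ((i.g (φ F).1)⁻¹ * Q₁ F))
    (mono f₀ fun v => (1 : ℂ) • adM ((i.g (ν v))⁻¹ * 1))
    (by rw [Fintype.card_prod, Fintype.card_prod, Fintype.card_congr f₂])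
    (by rw [Fintype.card_prod, Fintype.card_prod, Fintype.card_congr f₁])
    (by rw [Fintype.card_prod, Fintype.card_prod, Fintype.card_congr f₀])
    (mono_sqdet _ _ fun e => smul_adM_det _ _ (hs₂ e) (U _ _ (u₂ e)))
    (mono_sqdet _ _ fun F => smul_adM_det _ _ (hs₁ F) (U _ _ (u₁ F)))
    (mono_sqdet _ _ fun v => smul_adM_det _ _ (one_pow 2) (U _ _ (by simp)))
    (fun x => by
      ext ⟨e, k⟩
      rw [mono_mulVec]
      show coord (i.bw (ε e).1 (x.1 (i.e (ε e).1) (i.ρ (ε e).1 (ε e).2.1)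
        (i.ρ (ε e).1 (ε e).2.2))) k = _
      have h1 := hc₂ e x.1 x.2
      simp only [ptE] at h1
      rw [h1, bw_coord _ _ _ _ _ (u₂ e) (x.2.1 _ _ _)]
      rfl)
    (fun x => by
      ext ⟨e, k⟩
      rw [mono_mulVec]
      show coord (i.bw (φ e).1 (x.1 (i.e (φ e).1) (i.ρ (φ e).1 (φ e).2))) k = _
      have h1 := hc₁ e x.1 x.2
      simp only [ptF] at h1
      rw [h1, bw_coord _ _ _ _ _ (u₁ e) (x.2.1 _ _)]
      rfl)
    (fun x => by
      ext ⟨v, k⟩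
      rw [mono_mulVec]
      show coord (i.bw (ν v) (x.1 (i.e (ν v)))) k = _
      have h1 : x.1 (i.e (ν v)) = (1 : ℂ) • ((1 : Mat2) * x.1 (ν' (f₀ v)) * (1 : Mat2)⁻¹) := by
        rw [hf₀]; simp
      rw [h1, bw_coord _ _ _ _ _ (by simp) (x.2 _)]
      rfl)
  rw [i.B₂_cTwo hP, i.B₁_cOne hP] at key
  have key' := key.add (-i.xi (i.bP_inv hP))
  rw [map_neg, add_neg_cancel_right] at key'
  exact key'

end Framed.Iso

end Run7.h360
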