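import Pool.Agent.Run7.h360.Outer

/-!
# Some matrices
-/

set_option autoImplicit false

namespace Run7.h360

open Matrix Pool.Agent.H15_OneLoop

/-! ### Permutation matrices -/

/-- The matrix of a renumbering. -/
def pm {ι κ : Type} [DecidableEq κ] (e : ι ≃ κ) : Matrix ι κ ℂ :=
  Matrix.of fun i k => if e i = k then 1 else 0

theorem pm_mulVec {ι κ : Type} [Fintype κ] [DecidableEq κ] (e : ι ≃ κ) (w : κ → ℂ) (i : ι) :
    (pm e *ᵥ w) i = w (e i) := by
  simp [pm, Matrix.mulVec, dotProduct]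

theorem pm_sqdet {ι κ : Type} [Fintype ι] [Fintype κ] [DecidableEq κ]
    (e : ι ≃ κ) : sqdet (pm e) = 1 := by
  have h : pm e = (1 : Matrix κ κ ℂ).submatrix e (Equiv.refl κ) := by
    ext i k
    simp [pm, Matrix.one_apply]
  rw [h, sqdet_reindex, sqdet_one]

/-! ### Kronecker products -/

/-- The Kronecker product with the identity. -/
def kr {I K : Type} (k : Matrix I K ℂ) : Matrix (I × Fin 3) (K × Fin 3) ℂ :=
  blockDiagonal fun _ => k

theorem kr_mulVec {I K : Type} [Fintype K] (k : Matrix I K ℂ) (w : K × Fin 3 → ℂ) (i : I)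
    (l : Fin 3) : (kr k *ᵥ w) (i, l) = ∑ j, k i j * w (j, l) := by
  simp only [kr, Matrix.mulVec, dotProduct, Fintype.sum_prod_type, Matrix.blockDiagonal_apply]
  refine Finset.sum_congr rfl fun j _ => ?_
  rw [Finset.sum_eq_single l]
  · simp
  · intro l' _ hl
    rw [if_neg (Ne.symm hl), zero_mul]
  · intro h; exact absurd (Finset.mem_univ _) h

theorem kr_mul_one {I K : Type} [Fintype K] [DecidableEq I] (k : Matrix I K ℂ)
    (b : Matrix K I ℂ) (h : k * b = 1) : kr k * kr b = 1 := by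
  unfold kr
  rw [← Matrix.blockDiagonal_mul]
  simp only [h]
  exact Matrix.blockDiagonal_one

theorem kr_sqdet {I A B : Type} [Fintype I] [Fintype A] [Fintype B]
    [DecidableEq A] [DecidableEq B] (k : Matrix I A ℂ) (b : Matrix I B ℂ)
    (hc : Fintype.card I = Fintype.card A + Fintype.card B) (h : sqdet (fromCols k b) = 1) :
    sqdet (fromCols (kr k) (kr b)) = 1 := by
  have h1 : fromCols (kr k) (kr b) = (blockDiagonal fun _ : Fin 3 => fromCols k b).submatrix
      (Equiv.refl _) (Equiv.sumProdDistrib A B (Fin 3)).symm := by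
    ext ⟨i, l⟩ j
    rcases j with ⟨j, l'⟩ | ⟨j, l'⟩ <;> simp [kr, Matrix.blockDiagonal_apply]
  rw [h1, sqdet_reindex, sqdet_blockDiagonal _ (by rw [Fintype.card_sum]; exact hc)]
  simp [h]

/-! ### Coordinates of `0`-chains -/

/-- The coordinates of the first tetrahedra of the bipyramid. -/
def s₀ (ρ : Type) (n : ℕ) : ch₀ (ρ ⊕ Fin (n + 1)) →ₗ[ℂ] (Fin n × Fin 3 → ℂ) :=
  cc₀ fun k => Sum.inr k.castSucc

/-- A renumbering. -/
def e₀ (ρ : Type) (n : ℕ) :
    ((ρ ⊕ Unit) × Fin 3) ⊕ (Fin n × Fin 3) ≃ (ρ ⊕ Fin (n + 1)) × Fin 3 :=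
  (Equiv.sumProdDistrib (ρ ⊕ Unit) (Fin n) (Fin 3)).symm.trans
    (Equiv.prodCongr ((Equiv.sumAssoc ρ Unit (Fin n)).trans (Equiv.sumCongr (Equiv.refl ρ)
      { toFun := Sum.elim (fun _ => Fin.last n) Fin.castSucc
        invFun := Fin.lastCases (Sum.inl ()) Sum.inr
        left_inv := by rintro (_ | k) <;> simp
        right_inv := by
          intro k
          refine Fin.lastCases ?_ (fun k => ?_) k <;> simp })) (Equiv.refl (Fin 3)))

/-- The shear which adds the coordinates in the bipyramid. -/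
def W₀ (ρ : Type) (n : ℕ) : Matrix ((ρ ⊕ Unit) × Fin 3) (Fin n × Fin 3) ℂ :=
  Matrix.of fun p q => Sum.elim (fun _ => 0) (fun _ => if p.2 = q.2 then 1 else 0) p.1

/-- The change of coordinates. -/
noncomputable def G₀ (ρ : Type) [Fintype ρ] [DecidableEq ρ] (n : ℕ) :
    Matrix (((ρ ⊕ Unit) × Fin 3) ⊕ (Fin n × Fin 3)) ((ρ ⊕ Fin (n + 1)) × Fin 3) ℂ :=
  (fromBlocks (1 : Matrix ((ρ ⊕ Unit) × Fin 3) ((ρ ⊕ Unit) × Fin 3) ℂ) (W₀ ρ n) 0
    (1 : Matrix (Fin n × Fin 3) (Fin n × Fin 3) ℂ) :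
    Matrix (((ρ ⊕ Unit) × Fin 3) ⊕ (Fin n × Fin 3)) (((ρ ⊕ Unit) × Fin 3) ⊕ (Fin n × Fin 3)) ℂ) *
    pm (e₀ ρ n)

theorem coord_sum {α : Type} (s : Finset α) (X : α → Mat2) (k : Fin 3) :
    coord (∑ i ∈ s, X i) k = ∑ i ∈ s, coord (X i) k := by
  have : coord (∑ i ∈ s, X i) = ∑ i ∈ s, coord (X i) := by
    rw [← coordL_apply, map_sum]
    rfl
  rw [this, Finset.sum_apply]

theorem coord_neg (X : Mat2) (k : Fin 3) : coord (-X) k = -coord X k := by
  have : coord (-X) = -coord X := by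
    rw [← coordL_apply, map_neg]
    rfl
  rw [this, Pi.neg_apply]

theorem G₀_sqdet (ρ : Type) [Fintype ρ] [DecidableEq ρ] (n : ℕ) : sqdet (G₀ ρ n) = 1 := by
  unfold G₀
  rw [sqdet_mul _ _ rfl (Fintype.card_congr (e₀ ρ n)), pm_sqdet, mul_one,
    sqdet_fromBlocks_zero₂₁ _ _ _ rfl rfl, sqdet_one, sqdet_one, one_mul]

theorem G₀_mulVec (ρ : Type) [Fintype ρ] [DecidableEq ρ] (n : ℕ) (u : ch₀ (ρ ⊕ Fin (n + 1))) :
    Sum.elim (cc₀ (id : ρ ⊕ Unit → ρ ⊕ Unit) (p₀ ρ (n + 1) u)) (s₀ ρ n u) =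
      G₀ ρ n *ᵥ cc₀ (id : ρ ⊕ Fin (n + 1) → ρ ⊕ Fin (n + 1)) u := by
  unfold G₀
  rw [← Matrix.mulVec_mulVec]
  have h1 : pm (e₀ ρ n) *ᵥ cc₀ (id : ρ ⊕ Fin (n + 1) → ρ ⊕ Fin (n + 1)) u =
      Sum.elim (fun p => coord (Sum.elim (fun r => u.1 (Sum.inl r))
        (fun _ => u.1 (Sum.inr (Fin.last n))) p.1) p.2)
        (fun p => coord (u.1 (Sum.inr p.1.castSucc)) p.2) := by
    ext i
    rw [pm_mulVec]
    rcases i with ⟨r | _, l⟩ | ⟨k, l⟩ <;> rfl
  rw [h1, fromBlocks_mulVec]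
  ext i
  rcases i with ⟨r | x, l⟩ | ⟨k, l⟩
  · simp only [Sum.elim_inl, Sum.elim_comp_inl, Sum.elim_comp_inr, Matrix.one_mulVec,
      Pi.add_apply]
    have : (W₀ ρ n *ᵥ
        fun p => coord (u.1 (Sum.inr p.1.castSucc)) p.2) (Sum.inl r, l) = 0 := by
      simp [Matrix.mulVec, dotProduct, W₀]
    rw [this, add_zero]
    rfl
  · simp only [Sum.elim_inl, Sum.elim_inr, Sum.elim_comp_inl, Sum.elim_comp_inr,
      Matrix.one_mulVec, Pi.add_apply]
    have : (W₀ ρ n *ᵥ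
        fun p => coord (u.1 (Sum.inr p.1.castSucc)) p.2) (Sum.inr x, l) =
        ∑ k : Fin n, coord (u.1 (Sum.inr k.castSucc)) l := by
      simp [Matrix.mulVec, dotProduct, Fintype.sum_prod_type, W₀]
    rw [this]
    show coord (∑ s, u.1 (Sum.inr s)) l = _
    rw [coord_sum, Fin.sum_univ_castSucc, add_comm]
  · simp only [Sum.elim_inr, Sum.elim_comp_inl, Sum.elim_comp_inr, Matrix.one_mulVec,
      Matrix.zero_mulVec, zero_add]
    rfl

theorem coord_inj {X Y : Mat2} (hX : X.trace = 0) (hY : Y.trace = 0) (h : coord X = coord Y) :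
    X = Y := by
  have h0 := congrFun h 0
  have h1 := congrFun h 1
  have h2 := congrFun h 2
  rw [Matrix.trace_fin_two] at hX hY
  have h0 : X 0 0 = Y 0 0 := h0
  have h1 : X 0 1 = Y 0 1 := h1
  have h2 : X 1 0 = Y 1 0 := h2
  ext i j
  fin_cases i <;> fin_cases j
  · exact h0
  · exact h1
  · exact h2
  · show X 1 1 = Y 1 1
    linear_combination hX - hY - h0

/-- The traceless matrix with given coordinates. -/
def ucoord (w : Fin 3 → ℂ) : Mat2 := !![w 0, w 1; w 2, -w 0]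

theorem coord_ucoord (w : Fin 3 → ℂ) : coord (ucoord w) = w := by
  ext k; fin_cases k <;> rfl

theorem trace_ucoord (w : Fin 3 → ℂ) : (ucoord w).trace = 0 := by
  rw [Matrix.trace_fin_two]
  simp [ucoord]

theorem j₀ (ρ : Type) (n : ℕ) :
    Function.Bijective fun u : ch₀ (ρ ⊕ Fin (n + 1)) => (p₀ ρ (n + 1) u, s₀ ρ n u) := by
  constructor
  · intro u u' h
    have h1 : p₀ ρ (n + 1) u = p₀ ρ (n + 1) u' := congrArg Prod.fst h
    have h2 : s₀ ρ n u = s₀ ρ n u' := congrArg Prod.snd h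
    have h3 : ∀ k : Fin n, u.1 (Sum.inr k.castSucc) = u'.1 (Sum.inr k.castSucc) := fun k =>
      coord_inj (u.2 _) (u'.2 _) (funext fun l => congrFun h2 (k, l))
    have h4 : ∑ s, u.1 (Sum.inr s) = ∑ s, u'.1 (Sum.inr s) :=
      congrFun (congrArg Subtype.val h1) (Sum.inr ())
    rw [Fin.sum_univ_castSucc, Fin.sum_univ_castSucc, Finset.sum_congr rfl fun k _ => h3 k] at h4
    apply Subtype.ext
    funext j
    rcases j with r | s
    · exact congrFun (congrArg Subtype.val h1) (Sum.inl r)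
    · refine Fin.lastCases ?_ (fun k => ?_) s
      · exact add_left_cancel h4
      · exact h3 k
  · rintro ⟨v, w⟩
    refine ⟨⟨Sum.elim (fun r => v.1 (Sum.inl r)) (Fin.lastCases
      (v.1 (Sum.inr ()) - ∑ k : Fin n, ucoord fun l => w (k, l))
        fun k => ucoord fun l => w (k, l)), ?_⟩, ?_⟩
    · rintro (r | s)
      · exact v.2 _
      · show (Fin.lastCases _ _ s : Mat2).trace = 0
        refine Fin.lastCases ?_ (fun k => ?_) s
        · rw [Fin.lastCases_last, Matrix.trace_sub, v.2, Matrix.trace_sum,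
            Finset.sum_eq_zero fun k _ => trace_ucoord _, sub_zero]
        · rw [Fin.lastCases_castSucc, trace_ucoord]
    · refine Prod.ext (Subtype.ext (funext fun j => ?_)) (funext fun p => ?_)
      · rcases j with r | s
        · rfl
        · show ∑ s : Fin (n + 1), (Fin.lastCases (v.1 (Sum.inr ()) - ∑ k : Fin n, ucoord fun l => w (k, l))
            (fun k => ucoord fun l => w (k, l)) s : Mat2) = v.1 (Sum.inr ())
          rw [Fin.sum_univ_castSucc]
          simp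
      · obtain ⟨k, l⟩ := p
        show coord (Fin.lastCases (v.1 (Sum.inr ()) - ∑ k : Fin n, ucoord fun l => w (k, l))
            (fun k => ucoord fun l => w (k, l)) k.castSucc : Mat2) l = w (k, l)
        rw [Fin.lastCases_castSucc, coord_ucoord]

end Run7.h360
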