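import Pool.Agent.Run7.h360.Plain

/-!
# Invariance of the torsion under isomorphisms of complexes
-/

set_option autoImplicit false

namespace Run7.h360

open Matrix Pool.Agent.H15_OneLoop

section Abs

variable {C₂ C₁ C₀ ι₂ ι₁ ι₀ : Type} [AddCommGroup C₂] [Module ℂ C₂]
  [AddCommGroup C₁] [Module ℂ C₁] [AddCommGroup C₀] [Module ℂ C₀] [Fintype ι₂]
  [DecidableEq ι₂] [Fintype ι₁] [DecidableEq ι₁] [Fintype ι₀] [DecidableEq ι₀]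

theorem LT.add {c₂ : C₂ →ₗ[ℂ] ι₂ → ℂ} {c₁ : C₁ →ₗ[ℂ] ι₁ → ℂ} {c₀ : C₀ →ₗ[ℂ] ι₀ → ℂ}
    {d₂ : C₂ →ₗ[ℂ] C₁} {d₁ : C₁ →ₗ[ℂ] C₀} {h₂ : C₂} {h₁ : C₁} {t : ℂ}
    (h : LT c₂ c₁ c₀ d₂ d₁ h₂ h₁ t) (x : C₂) : LT c₂ c₁ c₀ d₂ d₁ h₂ (h₁ + d₂ x) t := by
  obtain ⟨D₂, D₁, e₂, e₁, hM⟩ := h.ex
  refine ⟨h.bij₂, h.bij₁, h.bij₀, D₂, D₁, e₂, e₁, ?_⟩
  rw [map_add, e₂]
  exact hM.add_boundary _

variable {C₂' C₁' C₀' ι₂' ι₁' ι₀' : Type} [AddCommGroup C₂'] [Module ℂ C₂']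
  [AddCommGroup C₁'] [Module ℂ C₁'] [AddCommGroup C₀'] [Module ℂ C₀'] [Fintype ι₂']
  [DecidableEq ι₂'] [Fintype ι₁'] [DecidableEq ι₁'] [Fintype ι₀'] [DecidableEq ι₀']

theorem bij_of_bij {C C' ι ι' : Type} [AddCommGroup C] [Module ℂ C] [AddCommGroup C']
    [Module ℂ C'] [Fintype ι] [DecidableEq ι] [Fintype ι'] [DecidableEq ι']
    (c : C →ₗ[ℂ] ι → ℂ) (c' : C' →ₗ[ℂ] ι' → ℂ) (F : C →ₗ[ℂ] C') (hF : Function.Bijective F)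
    (G : Matrix ι' ι ℂ) (hG : ∀ x, c' (F x) = G *ᵥ c x)
    (hc : Fintype.card ι' = Fintype.card ι) (hs : sqdet G = 1) (hb : Function.Bijective c) :
    Function.Bijective c' := by
  obtain ⟨H, hH, hH'⟩ := exists_inv G hc (by rw [hs]; exact one_ne_zero)
  constructor
  · rw [injective_iff_map_eq_zero]
    intro x hx
    obtain ⟨y, rfl⟩ := hF.2 x
    rw [hG] at hx
    have h1 : H *ᵥ (G *ᵥ c y) = 0 := by rw [hx, Matrix.mulVec_zero]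
    rw [Matrix.mulVec_mulVec, hH, Matrix.one_mulVec] at h1
    have h2 : y = 0 := hb.1 (by rw [h1, map_zero])
    rw [h2, map_zero]
  · intro w
    obtain ⟨y, hy⟩ := hb.2 (H *ᵥ w)
    refine ⟨F y, ?_⟩
    rw [hG, hy, Matrix.mulVec_mulVec, hH', Matrix.one_mulVec]

theorem LT.iso {c₂ : C₂ →ₗ[ℂ] ι₂ → ℂ} {c₁ : C₁ →ₗ[ℂ] ι₁ → ℂ} {c₀ : C₀ →ₗ[ℂ] ι₀ → ℂ}
    {d₂ : C₂ →ₗ[ℂ] C₁} {d₁ : C₁ →ₗ[ℂ] C₀} {h₂ : C₂} {h₁ : C₁} {t : ℂ}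
    (h : LT c₂ c₁ c₀ d₂ d₁ h₂ h₁ t)
    (c₂' : C₂' →ₗ[ℂ] ι₂' → ℂ) (c₁' : C₁' →ₗ[ℂ] ι₁' → ℂ) (c₀' : C₀' →ₗ[ℂ] ι₀' → ℂ)
    (d₂' : C₂' →ₗ[ℂ] C₁') (d₁' : C₁' →ₗ[ℂ] C₀')
    (F₂ : C₂ →ₗ[ℂ] C₂') (F₁ : C₁ →ₗ[ℂ] C₁') (F₀ : C₀ →ₗ[ℂ] C₀')
    (b₂ : Function.Bijective F₂) (b₁ : Function.Bijective F₁) (b₀ : Function.Bijective F₀)
    (k₂ : ∀ x, d₂' (F₂ x) = F₁ (d₂ x)) (k₁ : ∀ x, d₁' (F₁ x) = F₀ (d₁ x))
    (G₂ : Matrix ι₂' ι₂ ℂ) (G₁ : Matrix ι₁' ι₁ ℂ) (G₀ : Matrix ι₀' ι₀ ℂ)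
    (e₂ : Fintype.card ι₂' = Fintype.card ι₂) (e₁ : Fintype.card ι₁' = Fintype.card ι₁)
    (e₀ : Fintype.card ι₀' = Fintype.card ι₀)
    (g₂ : sqdet G₂ = 1) (g₁ : sqdet G₁ = 1) (g₀ : sqdet G₀ = 1)
    (hG₂ : ∀ x, c₂' (F₂ x) = G₂ *ᵥ c₂ x) (hG₁ : ∀ x, c₁' (F₁ x) = G₁ *ᵥ c₁ x)
    (hG₀ : ∀ x, c₀' (F₀ x) = G₀ *ᵥ c₀ x) :
    LT c₂' c₁' c₀' d₂' d₁' (F₂ h₂) (F₁ h₁) t := by
  obtain ⟨D₂, D₁, m₂, m₁, hM⟩ := h.ex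
  have hb₂ := bij_of_bij c₂ c₂' F₂ b₂ G₂ hG₂ e₂ g₂ h.bij₂
  have hb₁ := bij_of_bij c₁ c₁' F₁ b₁ G₁ hG₁ e₁ g₁ h.bij₁
  have hb₀ := bij_of_bij c₀ c₀' F₀ b₀ G₀ hG₀ e₀ g₀ h.bij₀
  obtain ⟨D₂', m₂'⟩ := exists_matrix c₂' hb₂ (c₁' ∘ₗ d₂')
  obtain ⟨D₁', m₁'⟩ := exists_matrix c₁' hb₁ (c₀' ∘ₗ d₁')
  have m₂' : ∀ x, c₁' (d₂' x) = D₂' *ᵥ c₂' x := m₂'
  have m₁' : ∀ x, c₀' (d₁' x) = D₁' *ᵥ c₁' x := m₁'
  have n₂ : D₂' * G₂ = G₁ * D₂ := matrix_unique c₂ h.bij₂ _ _ fun x => by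
    rw [← Matrix.mulVec_mulVec, ← Matrix.mulVec_mulVec, ← hG₂, ← m₂', k₂, hG₁, m₂]
  have n₁ : D₁' * G₁ = G₀ * D₁ := matrix_unique c₁ h.bij₁ _ _ fun x => by
    rw [← Matrix.mulVec_mulVec, ← Matrix.mulVec_mulVec, ← hG₁, ← m₁', k₁, hG₀, m₁]
  refine ⟨hb₂, hb₁, hb₀, D₂', D₁', m₂', m₁', ?_⟩
  rw [hG₂, hG₁]
  exact hM.base D₂' D₁' G₂ G₁ G₀ e₂ e₁ e₀ g₂ g₁ g₀ n₂ n₁

end Abs

/-! ### Monomial matrices -/

/-- The matrix with the blocks `R i'` at the places `(i', f i')`. -/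
noncomputable def mono {I I' : Type} [DecidableEq I] (f : I' ≃ I)
    (R : I' → Matrix (Fin 3) (Fin 3) ℂ) :
    Matrix (I' × Fin 3) (I × Fin 3) ℂ :=
  Matrix.of fun p q => if f p.1 = q.1 then R p.1 p.2 q.2 else 0

theorem mono_sqdet {I I' : Type} [Fintype I] [DecidableEq I] [Fintype I'] [DecidableEq I']
    (f : I' ≃ I) (R : I' → Matrix (Fin 3) (Fin 3) ℂ) (hR : ∀ i, (R i).det ^ 2 = 1) :
    sqdet (mono f R) = 1 := by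
  have h : mono f R = (blockDiagonal R).submatrix (Equiv.prodComm _ _)
      ((Equiv.prodComm _ _).trans (Equiv.prodCongr (Equiv.refl (Fin 3)) f.symm)) := by
    ext ⟨i, k⟩ ⟨j, l⟩
    simp only [mono, Matrix.of_apply, Matrix.submatrix_apply, Equiv.prodComm_apply, Prod.swap,
      Equiv.trans_apply, Equiv.prodCongr_apply, Prod.map, Equiv.refl_apply,
      Matrix.blockDiagonal_apply]
    by_cases h : f i = j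
    · have h' : i = f.symm j := by rw [← h, Equiv.symm_apply_apply]
      rw [if_pos h, if_pos h']
    · have h' : ¬ i = f.symm j := fun h' => h (by rw [h', Equiv.apply_symm_apply])
      rw [if_neg h, if_neg h']
  rw [h, sqdet_reindex, sqdet_blockDiagonal _ rfl]
  simp only [sqdet_square, hR, Finset.prod_const_one]

theorem mono_mulVec {I I' : Type} [Fintype I] [DecidableEq I]
    (f : I' ≃ I) (R : I' → Matrix (Fin 3) (Fin 3) ℂ) (w : I × Fin 3 → ℂ) (i : I') (k : Fin 3) :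
    (mono f R *ᵥ w) (i, k) = (R i *ᵥ fun l => w (f i, l)) k := by
  simp only [Matrix.mulVec, dotProduct, mono, Matrix.of_apply, Fintype.sum_prod_type]
  rw [Finset.sum_eq_single (f i)]
  · simp
  · intro j _ hj
    refine Finset.sum_eq_zero fun l _ => ?_
    rw [if_neg (Ne.symm hj), zero_mul]
  · intro h; exact absurd (Finset.mem_univ _) h

/-! ### The adjoint action -/

/-- The matrix of the adjoint action. -/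
noncomputable def adM (Q : Mat2) : Matrix (Fin 3) (Fin 3) ℂ :=
  (Q.det)⁻¹ • !![Q 0 0 * Q 1 1 + Q 0 1 * Q 1 0, -(Q 0 0 * Q 1 0), Q 0 1 * Q 1 1;
    -(2 * (Q 0 0 * Q 0 1)), Q 0 0 * Q 0 0, -(Q 0 1 * Q 0 1);
    2 * (Q 1 0 * Q 1 1), -(Q 1 0 * Q 1 0), Q 1 1 * Q 1 1]

theorem adM_mulVec (Q X : Mat2) (hQ : IsUnit Q.det) (hX : X.trace = 0) :
    coord (Q * X * Q⁻¹) = adM Q *ᵥ coord X := by
  have h11 : X 1 1 = -X 0 0 := by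
    rw [Matrix.trace_fin_two] at hX
    linear_combination hX
  have hd : Q.det ≠ 0 := hQ.ne_zero
  rw [Matrix.det_fin_two] at hd
  ext k
  rw [Matrix.inv_def, Ring.inverse_eq_inv', Matrix.adjugate_fin_two]
  fin_cases k <;>
    simp [coord, adM, Matrix.mulVec, dotProduct, Fin.sum_univ_three, Matrix.mul_apply,
      Fin.sum_univ_two, h11, Matrix.det_fin_two] <;> field_simp <;> ring

theorem adM_det (Q : Mat2) (hQ : IsUnit Q.det) : (adM Q).det = 1 := by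
  have hd : Q.det ≠ 0 := hQ.ne_zero
  rw [Matrix.det_fin_two] at hd
  rw [adM, Matrix.det_smul, Matrix.det_fin_three]
  simp [Matrix.det_fin_two]
  field_simp
  ring

end Run7.h360
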