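import Pool.Agent.Run7.h360.Collapse

/-!
# The combinatorics of the 4-simplex and of two divisions of the bipyramid
-/

set_option autoImplicit false

namespace Run7.h360

open Matrix Pool.Agent.H15_OneLoop

/-- The vertex of the facet `m` with a given label. -/
def unlab : Fin 5 → Fin 5 → Fin 4 :=
  ![![0, 0, 1, 2, 3], ![0, 0, 1, 3, 2], ![0, 1, 0, 2, 3], ![0, 1, 2, 0, 3], ![0, 1, 3, 2, 0]]

theorem lab_ne : ∀ m v, lab m v ≠ m := by decide

theorem unlab_lab : ∀ m v, unlab m (lab m v) = v := by decide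

theorem lab_unlab : ∀ m l, l ≠ m → lab m (unlab m l) = l := by decide

theorem lab_inj {m : Fin 5} {v w : Fin 4} (h : lab m v = lab m w) : v = w := by
  rw [← unlab_lab m v, h, unlab_lab]

theorem unlab_inj {m l l' : Fin 5} (hl : l ≠ m) (hl' : l' ≠ m) (h : unlab m l = unlab m l') :
    l = l' := by
  rw [← lab_unlab m l hl, h, lab_unlab m l' hl']

/-- The identification of the facets `p` and `q`. -/
def kap (p q : Fin 5) : Equiv.Perm (Fin 4) where
  toFun v := unlab q (Equiv.swap p q (lab p v))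
  invFun v := unlab p (Equiv.swap p q (lab q v))
  left_inv := by revert p q; decide
  right_inv := by revert p q; decide

theorem lab_kap : ∀ p q v, lab q (kap p q v) = Equiv.swap p q (lab p v) := by decide

theorem kap_inv (p q : Fin 5) : (kap p q)⁻¹ = kap q p := by
  refine Equiv.ext fun v => ?_
  show unlab p (Equiv.swap p q (lab q v)) = unlab p (Equiv.swap q p (lab q v))
  rw [Equiv.swap_comm]

theorem kap_eq {p q : Fin 5} {κ : Equiv.Perm (Fin 4)}
    (h : ∀ v, lab q (κ v) = Equiv.swap p q (lab p v)) : κ = kap p q := by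
  refine Equiv.ext fun v => lab_inj (m := q) ?_
  rw [h, lab_kap]

theorem lab_kap_of_ne {p q : Fin 5} {v : Fin 4} (h : lab p v ≠ q) :
    lab q (kap p q v) = lab p v := by
  rw [lab_kap, Equiv.swap_apply_of_ne_of_ne (lab_ne p v) h]

theorem lab_kap_of_eq {p q : Fin 5} {v : Fin 4} (h : lab p v = q) : lab q (kap p q v) = p := by
  rw [lab_kap, h, Equiv.swap_apply_right]

theorem kap_of_ne {p q : Fin 5} {v : Fin 4} (h : lab p v ≠ q) :
    kap p q v = unlab q (lab p v) := by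
  rw [← lab_kap_of_ne h, unlab_lab]

/-- The labels are divided into two parts. -/
structure Part {n n' : ℕ} (m : Fin n → Fin 5) (m' : Fin n' → Fin 5) : Prop where
  inj : Function.Injective m
  inj' : Function.Injective m'
  disj : ∀ s i, m s ≠ m' i
  cover : ∀ l, (∃ s, m s = l) ∨ ∃ i, m' i = l
  two : ∀ l, ∃ s, m s ≠ l
  two' : ∀ l, ∃ i, m' i ≠ l
  even : ∀ s i, Equiv.Perm.sign (kap (m s) (m' i)) = 1

theorem Part.symm {n n' : ℕ} {m : Fin n → Fin 5} {m' : Fin n' → Fin 5} (h : Part m m') :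
    Part m' m :=
  ⟨h.inj', h.inj, fun s i => (h.disj i s).symm, fun l => (h.cover l).symm, h.two', h.two,
    fun i s => by rw [← kap_inv, Equiv.Perm.sign_inv, h.even]⟩

set_option maxRecDepth 100000 in
theorem part_top_low : Part top low := by
  refine ⟨by decide, by decide, by decide, by decide, by decide, by decide, by decide⟩

section

variable {ρ : Type} {n n' : ℕ}

/-- The symmetric form of `Match`. -/
inductive Mt (m : Fin n → Fin 5) (m' : Fin n' → Fin 5) :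
    ρ ⊕ Fin n → ρ ⊕ Fin n' → Equiv.Perm (Fin 4) → Fin 4 → Prop
  | rest (r : ρ) (a : Fin 4) : Mt m m' (Sum.inl r) (Sum.inl r) 1 a
  | shell (s : Fin n) (i : Fin n') (a : Fin 4) (ha : lab (m s) a = m' i) :
      Mt m m' (Sum.inr s) (Sum.inr i) (kap (m s) (m' i)) a

theorem Mt.symm {m : Fin n → Fin 5} {m' : Fin n' → Fin 5} {j : ρ ⊕ Fin n} {j' : ρ ⊕ Fin n'}
    {κ : Equiv.Perm (Fin 4)} {a : Fin 4} (h : Mt m m' j j' κ a) : Mt m' m j' j κ⁻¹ (κ a) := by
  cases h with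
  | rest r a => rw [inv_one]; exact Mt.rest r a
  | shell s i a ha => rw [kap_inv]; exact Mt.shell i s _ (lab_kap_of_eq ha)

theorem match_iff (j : ρ ⊕ Fin 2) (j' : ρ ⊕ Fin 3) (κ : Equiv.Perm (Fin 4)) (a : Fin 4) :
    Match j j' κ a ↔ Mt top low j j' κ a := by
  constructor
  · intro h
    cases h with
    | rest r a => exact Mt.rest r a
    | shell s i κ a ha hκ => rw [kap_eq hκ]; exact Mt.shell s i a ha
  · intro h
    cases h with
    | rest r a => exact Match.rest r a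
    | shell s i a ha => exact Match.shell s i _ a ha (lab_kap _ _)

/-- The faces inside the bipyramid. -/
def Inn (m : Fin n → Fin 5) (T : Tri (ρ ⊕ Fin n)) (A : ρ ⊕ Fin n → Fin 4 → Mat2) : Prop :=
  ∀ s s', s ≠ s' → ∀ a, lab (m s) a = m s' → T.adj (Sum.inr s) a = Sum.inr s' ∧
    T.glue (Sum.inr s) a = kap (m s) (m s') ∧ A (Sum.inr s) a = 1

/-- Two triangulations with bundles and cycles which differ in the bipyramid. -/
structure Gd (m : Fin n → Fin 5) (m' : Fin n' → Fin 5) (T : Tri (ρ ⊕ Fin n))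
    (T' : Tri (ρ ⊕ Fin n')) (A : ρ ⊕ Fin n → Fin 4 → Mat2) (A' : ρ ⊕ Fin n' → Fin 4 → Mat2)
    (c : ρ ⊕ Fin n → Fin 4 → Fin 4 → ℤ) (c' : ρ ⊕ Fin n' → Fin 4 → Fin 4 → ℤ) : Prop where
  part : Part m m'
  inn : Inn m T A
  inn' : Inn m' T' A'
  step : ∀ j j' κ a, Mt m m' j j' κ a →
    ∃ κ₂, Mt m m' (T.adj j a) (T'.adj j' (κ a)) κ₂ (T.glue j a a) ∧
      T'.glue j' (κ a) * κ = κ₂ * T.glue j a
  bundle : ∀ j j' κ a, Mt m m' j j' κ a → A' j' (κ a) = A j a
  cyc : ∀ j j' κ a, Mt m m' j j' κ a → ∀ v, v ≠ a → c' j' (κ v) (κ a) = c j v a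

theorem Gd.symm {m : Fin n → Fin 5} {m' : Fin n' → Fin 5} {T : Tri (ρ ⊕ Fin n)}
    {T' : Tri (ρ ⊕ Fin n')} {A : ρ ⊕ Fin n → Fin 4 → Mat2} {A' : ρ ⊕ Fin n' → Fin 4 → Mat2}
    {c : ρ ⊕ Fin n → Fin 4 → Fin 4 → ℤ} {c' : ρ ⊕ Fin n' → Fin 4 → Fin 4 → ℤ}
    (h : Gd m m' T T' A A' c c') : Gd m' m T' T A' A c' c where
  part := h.part.symm
  inn := h.inn'
  inn' := h.inn
  step j' j κ' a' hm := by
    have hm2 := hm.symm
    obtain ⟨κ₂, h1, h2⟩ := h.step _ _ _ _ hm2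
    rw [inv_papp] at h1 h2
    refine ⟨κ₂⁻¹, ?_, ?_⟩
    · have h3 := h1.symm
      have h4 : κ₂ (T.glue j (κ' a') (κ' a')) = T'.glue j' a' a' := by
        have := congrArg (fun p : Equiv.Perm (Fin 4) => p (κ' a')) h2
        simp only [Equiv.Perm.mul_apply, inv_papp] at this
        exact this.symm
      rwa [h4] at h3
    · rw [eq_inv_mul_iff_mul_eq, ← mul_assoc, ← h2, mul_assoc, inv_mul_cancel, mul_one]
  bundle j' j κ' a' hm := by
    have h1 := h.bundle _ _ _ _ hm.symm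
    rw [inv_papp] at h1
    exact h1.symm
  cyc j' j κ' a' hm v' hv := by
    have h1 := h.cyc _ _ _ _ hm.symm (κ' v') (fun e => hv (κ'.injective e))
    rw [inv_papp, inv_papp] at h1
    exact h1.symm

theorem IsPachner.gd {T : Tri (ρ ⊕ Fin 2)} {T' : Tri (ρ ⊕ Fin 3)}
    {A : ρ ⊕ Fin 2 → Fin 4 → Mat2} {A' : ρ ⊕ Fin 3 → Fin 4 → Mat2}
    {c : ρ ⊕ Fin 2 → Fin 4 → Fin 4 → ℤ} {c' : ρ ⊕ Fin 3 → Fin 4 → Fin 4 → ℤ}
    (h : IsPachner T T' A A' c c') : Gd top low T T' A A' c c' where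
  part := part_top_low
  inn s s' hs a ha := by
    obtain ⟨h1, h2, h3⟩ := h.inner₂ s s' hs a ha
    exact ⟨h1, kap_eq h2, h3⟩
  inn' s s' hs a ha := by
    obtain ⟨h1, h2, h3⟩ := h.inner₃ s s' hs a ha
    exact ⟨h1, kap_eq h2, h3⟩
  step j j' κ a hm := by
    obtain ⟨⟨κ₂, h1, h2⟩, -, -⟩ := h.outer j j' κ a ((match_iff _ _ _ _).2 hm)
    exact ⟨κ₂, (match_iff _ _ _ _).1 h1, h2⟩
  bundle j j' κ a hm := (h.outer j j' κ a ((match_iff _ _ _ _).2 hm)).2.1
  cyc j j' κ a hm := (h.outer j j' κ a ((match_iff _ _ _ _).2 hm)).2.2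

/-- Each face is either outside or inside the bipyramid. -/
theorem Part.dart {m : Fin n → Fin 5} {m' : Fin n' → Fin 5} (h : Part m m') (j : ρ ⊕ Fin n)
    (a : Fin 4) : (∃ (j' : ρ ⊕ Fin n') (κ : _), Mt m m' j j' κ a) ∨
      ∃ s s', s ≠ s' ∧ j = Sum.inr s ∧ lab (m s) a = m s' := by
  rcases j with r | s
  · exact Or.inl ⟨_, _, Mt.rest r a⟩
  · rcases h.cover (lab (m s) a) with ⟨s', hs'⟩ | ⟨i, hi⟩
    · refine Or.inr ⟨s, s', ?_, rfl, hs'.symm⟩
      rintro rfl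
      exact lab_ne _ _ hs'.symm
    · exact Or.inl ⟨_, _, Mt.shell s i a hi.symm⟩

end

end Run7.h360
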