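import Pool.Agent.Run7.h360.Labels

/-!
# Transfer of edges, chains and cusp invariants between the two divisions
-/

set_option autoImplicit false

namespace Run7.h360

open Matrix Pool.Agent.H15_OneLoop

variable {ρ : Type} {n n' : ℕ} {m : Fin n → Fin 5} {m' : Fin n' → Fin 5}
  {T : Tri (ρ ⊕ Fin n)} {T' : Tri (ρ ⊕ Fin n')}
  {A : ρ ⊕ Fin n → Fin 4 → Mat2} {A' : ρ ⊕ Fin n' → Fin 4 → Mat2}
  {c : ρ ⊕ Fin n → Fin 4 → Fin 4 → ℤ} {c' : ρ ⊕ Fin n' → Fin 4 → Fin 4 → ℤ}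

/-! ### Inside the bipyramid -/

theorem Inn.glue (hi : Inn m T A) (hm : Function.Injective m) {s s' : Fin n} (hs : s ≠ s')
    {v : Fin 4} (hv : lab (m s) v ≠ m s') :
    T.adj (Sum.inr s) (unlab (m s) (m s')) = Sum.inr s' ∧
    T.glue (Sum.inr s) (unlab (m s) (m s')) v = unlab (m s') (lab (m s) v) ∧
    v ≠ unlab (m s) (m s') ∧ A (Sum.inr s) (unlab (m s) (m s')) = 1 := by
  have h1 : lab (m s) (unlab (m s) (m s')) = m s' := lab_unlab _ _ fun h => hs (hm h).symm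
  obtain ⟨h2, h3, h4⟩ := hi s s' hs _ h1
  refine ⟨h2, ?_, ?_, h4⟩
  · rw [h3, kap_of_ne hv]
  · rintro rfl
    exact hv h1

theorem Inn.cross (hi : Inn m T A) (hm : Function.Injective m) {s s' : Fin n} {v w : Fin 4}
    (hv : lab (m s) v ≠ m s') (hw : lab (m s) w ≠ m s') :
    T.ER (Sum.inr s, v, w) (Sum.inr s', unlab (m s') (lab (m s) v), unlab (m s') (lab (m s) w)) := by
  by_cases hs : s = s'
  · subst hs
    rw [unlab_lab, unlab_lab]
    exact Relation.EqvGen.refl _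
  · obtain ⟨h1, h2, h3, -⟩ := hi.glue hm hs hv
    obtain ⟨-, h2', h3', -⟩ := hi.glue hm hs hw
    have h := Tri.EdgeStep.cross (T := T) (Sum.inr s) (unlab (m s) (m s')) v w h3 h3'
    rw [h1, h2, h2'] at h
    exact Relation.EqvGen.rel _ _ h

theorem Inn.chain₂ (hi : Inn m T A) (hm : Function.Injective m) {s s' : Fin n} {v w : Fin 4}
    (hv : lab (m s) v ≠ m s') (hw : lab (m s) w ≠ m s') {x : ρ ⊕ Fin n → Fin 4 → Fin 4 → Mat2}
    (hx : T.Ch₂ A x) :
    x (Sum.inr s') (unlab (m s') (lab (m s) v)) (unlab (m s') (lab (m s) w)) =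
      x (Sum.inr s) v w := by
  by_cases hs : s = s'
  · subst hs
    rw [unlab_lab, unlab_lab]
  · obtain ⟨h1, h2, h3, h4⟩ := hi.glue hm hs hv
    obtain ⟨-, h2', h3', -⟩ := hi.glue hm hs hw
    have h := hx.2.2 (Sum.inr s) (unlab (m s) (m s')) v w h3 h3'
    rw [h1, h2, h2', h4] at h
    rw [h]
    simp

theorem Inn.chainP (hi : Inn m T A) (hm : Function.Injective m) {s s' : Fin n} {v : Fin 4}
    (hv : lab (m s) v ≠ m s') {P : ρ ⊕ Fin n → Fin 4 → Mat2}
    (hP : T.IsCuspInv A P) :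
    P (Sum.inr s') (unlab (m s') (lab (m s) v)) = P (Sum.inr s) v := by
  by_cases hs : s = s'
  · subst hs
    rw [unlab_lab]
  · obtain ⟨h1, h2, h3, h4⟩ := hi.glue hm hs hv
    have h := hP.parallel (Sum.inr s) (unlab (m s) (m s')) v h3
    rw [h1, h2, h4] at h
    rw [h]
    simp

/-! ### The edges -/

/-- A choice of a tetrahedron which contains a given edge. -/
structure Pick (m' : Fin n' → Fin 5) (pk : Fin 5 → Fin 5 → Fin n') : Prop where
  comm : ∀ u w, pk u w = pk w u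
  spec : ∀ u w i, m' i ≠ u → m' i ≠ w → m' (pk u w) ≠ u ∧ m' (pk u w) ≠ w

/-- The edge with given labels. -/
def tl (m' : Fin n' → Fin 5) (pk : Fin 5 → Fin 5 → Fin n') (u w : Fin 5) :
    (ρ ⊕ Fin n') × Fin 4 × Fin 4 :=
  (Sum.inr (pk u w), unlab (m' (pk u w)) u, unlab (m' (pk u w)) w)

/-- Transfer of edges. -/
def tr (m : Fin n → Fin 5) (m' : Fin n' → Fin 5) (pk : Fin 5 → Fin 5 → Fin n') :
    (ρ ⊕ Fin n) × Fin 4 × Fin 4 → (ρ ⊕ Fin n') × Fin 4 × Fin 4
  | (Sum.inl r, v, w) => (Sum.inl r, v, w)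
  | (Sum.inr s, v, w) => tl m' pk (lab (m s) v) (lab (m s) w)

/-- The edge also exists in the other division. -/
def Ok (m : Fin n → Fin 5) (m' : Fin n' → Fin 5) (p : (ρ ⊕ Fin n) × Fin 4 × Fin 4) : Prop :=
  ∀ s, p.1 = Sum.inr s → ∃ i, m' i ≠ lab (m s) p.2.1 ∧ m' i ≠ lab (m s) p.2.2

theorem tl_er {pk : Fin 5 → Fin 5 → Fin n'} (hpk : Pick m' pk) (hi : Inn m' T' A')
    (hm : Function.Injective m') {u w : Fin 5} {i : Fin n'} (hu : m' i ≠ u) (hw : m' i ≠ w) :
    T'.ER (tl m' pk u w) (Sum.inr i, unlab (m' i) u, unlab (m' i) w) := by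
  obtain ⟨h1, h2⟩ := hpk.spec u w i hu hw
  have h := hi.cross hm (s := pk u w) (s' := i) (v := unlab (m' (pk u w)) u)
    (w := unlab (m' (pk u w)) w) (by rw [lab_unlab _ _ h1.symm]; exact hu.symm)
    (by rw [lab_unlab _ _ h2.symm]; exact hw.symm)
  rw [lab_unlab _ _ h1.symm, lab_unlab _ _ h2.symm] at h
  exact h

theorem Mt.ne {j : ρ ⊕ Fin n} {j' : ρ ⊕ Fin n'} {κ : Equiv.Perm (Fin 4)} {a : Fin 4}
    (h : Mt m m' j j' κ a) {s : Fin n} (hs : j = Sum.inr s) :
    ∃ i, j' = Sum.inr i ∧ κ = kap (m s) (m' i) ∧ lab (m s) a = m' i := by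
  cases h with
  | rest r a => exact absurd hs Sum.inl_ne_inr
  | shell s' i a ha =>
    obtain rfl := Sum.inr_injective hs
    exact ⟨i, rfl, rfl, ha⟩

theorem Mt.er {pk : Fin 5 → Fin 5 → Fin n'} (hpk : Pick m' pk) (hi : Inn m' T' A')
    (hm : Function.Injective m') {j : ρ ⊕ Fin n} {j' : ρ ⊕ Fin n'} {κ : Equiv.Perm (Fin 4)}
    {a : Fin 4} (h : Mt m m' j j' κ a) {v w : Fin 4} (hv : v ≠ a) (hw : w ≠ a) :
    T'.ER (tr m m' pk (j, v, w)) (j', κ v, κ w) := by
  cases h with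
  | rest r a => exact Relation.EqvGen.refl _
  | shell s i a ha =>
    have e1 : lab (m s) v ≠ m' i := fun h => hv (lab_inj (h.trans ha.symm))
    have e2 : lab (m s) w ≠ m' i := fun h => hw (lab_inj (h.trans ha.symm))
    rw [kap_of_ne e1, kap_of_ne e2]
    exact tl_er hpk hi hm e1.symm e2.symm

theorem Mt.ok {j : ρ ⊕ Fin n} {j' : ρ ⊕ Fin n'} {κ : Equiv.Perm (Fin 4)}
    {a : Fin 4} (h : Mt m m' j j' κ a) {v w : Fin 4} (hv : v ≠ a) (hw : w ≠ a) :
    Ok m m' (j, v, w) := by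
  intro s hs
  obtain ⟨i, -, -, ha⟩ := h.ne hs
  exact ⟨i, fun h => hv (lab_inj (h.symm.trans ha.symm)),
    fun h => hw (lab_inj (h.symm.trans ha.symm))⟩

theorem Gd.ok_iff (h : Gd m m' T T' A A' c c') {p q : (ρ ⊕ Fin n) × Fin 4 × Fin 4}
    (hpq : T.ER p q) : Ok m m' p ↔ Ok m m' q := by
  induction hpq with
  | rel p q hpq =>
    cases hpq with
    | flip j v w =>
      exact ⟨fun h s hs => (h s hs).imp fun _ => And.symm, fun h s hs => (h s hs).imp fun _ =>
        And.symm⟩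
    | cross j a v w hv hw =>
      rcases h.part.dart j a with ⟨j', κ, hm⟩ | ⟨s, s', hs, rfl, ha⟩
      · obtain ⟨κ₂, h1, h2⟩ := h.step _ _ _ _ hm
        exact iff_of_true (hm.ok hv hw) (h1.ok (fun e => hv ((T.glue j a).injective e))
          (fun e => hw ((T.glue j a).injective e)))
      · obtain ⟨h1, h2, -⟩ := h.inn s s' hs a ha
        have e1 : lab (m s) v ≠ m s' := fun h => hv (lab_inj (h.trans ha.symm))
        have e2 : lab (m s) w ≠ m s' := fun h => hw (lab_inj (h.trans ha.symm))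
        rw [h1, h2]
        constructor
        · intro h3 s₂ hs₂
          obtain rfl := Sum.inr_injective hs₂
          show ∃ i, m' i ≠ lab (m s') (kap (m s) (m s') v) ∧ m' i ≠ lab (m s') (kap (m s) (m s') w)
          rw [lab_kap_of_ne e1, lab_kap_of_ne e2]
          exact h3 s rfl
        · intro h3 s₂ hs₂
          obtain rfl := Sum.inr_injective hs₂
          have h4 : ∃ i, m' i ≠ lab (m s') (kap (m s) (m s') v) ∧
            m' i ≠ lab (m s') (kap (m s) (m s') w) := h3 s' rfl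
          rw [lab_kap_of_ne e1, lab_kap_of_ne e2] at h4
          exact h4
  | refl p => exact Iff.rfl
  | symm p q _ ih => exact ih.symm
  | trans p q r _ _ ih ih' => exact ih.trans ih'

theorem tr_flip {pk : Fin 5 → Fin 5 → Fin n'} (hpk : Pick m' pk) (j : ρ ⊕ Fin n) (v w : Fin 4) :
    T'.ER (tr m m' pk (j, v, w)) (tr m m' pk (j, w, v)) := by
  rcases j with r | s
  · exact Relation.EqvGen.rel _ _ (.flip _ _ _)
  · show T'.ER (tl m' pk (lab (m s) v) (lab (m s) w)) (tl m' pk (lab (m s) w) (lab (m s) v))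
    unfold tl
    rw [hpk.comm (lab (m s) w)]
    exact Relation.EqvGen.rel _ _ (.flip _ _ _)

theorem Gd.er (h : Gd m m' T T' A A' c c') {pk : Fin 5 → Fin 5 → Fin n'} (hpk : Pick m' pk)
    {p q : (ρ ⊕ Fin n) × Fin 4 × Fin 4} (hpq : T.ER p q) :
    T'.ER (tr m m' pk p) (tr m m' pk q) := by
  induction hpq with
  | rel p q hpq =>
    cases hpq with
    | flip j v w => exact tr_flip hpk j v w
    | cross j a v w hv hw =>
      rcases h.part.dart j a with ⟨j', κ, hm⟩ | ⟨s, s', hs, rfl, ha⟩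
      · obtain ⟨κ₂, h1, h2⟩ := h.step _ _ _ _ hm
        have e1 := hm.er hpk h.inn' h.part.inj' hv hw
        have e2 := h1.er hpk h.inn' h.part.inj' (fun e => hv ((T.glue j a).injective e))
          (fun e => hw ((T.glue j a).injective e))
        refine e1.trans _ _ _ (Relation.EqvGen.trans _ _ _ ?_ e2.symm)
        have h3 := Tri.EdgeStep.cross (T := T') j' (κ a) (κ v) (κ w)
          (fun e => hv (κ.injective e)) (fun e => hw (κ.injective e))
        have h4 : ∀ u, T'.glue j' (κ a) (κ u) = κ₂ (T.glue j a u) := fun u =>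
          congrArg (fun p : Equiv.Perm (Fin 4) => p u) h2
        rw [h4, h4] at h3
        exact Relation.EqvGen.rel _ _ h3
      · obtain ⟨h1, h2, -⟩ := h.inn s s' hs a ha
        have e1 : lab (m s) v ≠ m s' := fun h => hv (lab_inj (h.trans ha.symm))
        have e2 : lab (m s) w ≠ m s' := fun h => hw (lab_inj (h.trans ha.symm))
        rw [h1, h2]
        show T'.ER (tl m' pk (lab (m s) v) (lab (m s) w)) (tl m' pk
          (lab (m s') (kap (m s) (m s') v)) (lab (m s') (kap (m s) (m s') w)))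
        rw [lab_kap_of_ne e1, lab_kap_of_ne e2]
        exact Relation.EqvGen.refl _
  | refl p => exact Relation.EqvGen.refl _
  | symm p q _ ih => exact ih.symm
  | trans p q r _ _ ih ih' => exact ih.trans _ _ _ ih'

theorem Gd.round (h : Gd m m' T T' A A' c c') {pk : Fin 5 → Fin 5 → Fin n'} (hpk : Pick m' pk)
    {pk₂ : Fin 5 → Fin 5 → Fin n} (hpk₂ : Pick m pk₂) {p : (ρ ⊕ Fin n) × Fin 4 × Fin 4}
    (hp : Ok m m' p) : T.ER (tr m' m pk₂ (tr m m' pk p)) p := by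
  obtain ⟨r | s, v, w⟩ := p
  · exact Relation.EqvGen.refl _
  · obtain ⟨i, hi1, hi2⟩ := hp s rfl
    have hi1 : m' i ≠ lab (m s) v := hi1
    have hi2 : m' i ≠ lab (m s) w := hi2
    obtain ⟨e1, e2⟩ := hpk.spec _ _ i hi1 hi2
    show T.ER (tl m pk₂ (lab (m' (pk (lab (m s) v) (lab (m s) w)))
      (unlab (m' (pk (lab (m s) v) (lab (m s) w))) (lab (m s) v)))
      (lab (m' (pk (lab (m s) v) (lab (m s) w)))
      (unlab (m' (pk (lab (m s) v) (lab (m s) w))) (lab (m s) w)))) _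
    rw [lab_unlab _ _ e1.symm, lab_unlab _ _ e2.symm]
    have h1 := tl_er hpk₂ h.inn h.part.inj (lab_ne (m s) v).symm (lab_ne (m s) w).symm
    rw [unlab_lab, unlab_lab] at h1
    exact h1

theorem Gd.er_iff (h : Gd m m' T T' A A' c c') {pk : Fin 5 → Fin 5 → Fin n'} (hpk : Pick m' pk)
    {pk₂ : Fin 5 → Fin 5 → Fin n} (hpk₂ : Pick m pk₂) {p q : (ρ ⊕ Fin n) × Fin 4 × Fin 4}
    (hp : Ok m m' p) (hq : Ok m m' q) :
    T.ER p q ↔ T'.ER (tr m m' pk p) (tr m m' pk q) := by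
  refine ⟨h.er hpk, fun h1 => ?_⟩
  have h2 := h.symm.er hpk₂ h1
  exact ((h.round hpk hpk₂ hp).symm.trans _ _ _ h2).trans _ _ _ (h.round hpk hpk₂ hq)

/-! ### Cusp invariants -/

/-- A function of the labelled vertices. -/
def mkP (m : Fin n → Fin 5) (r : ρ → Fin 4 → Mat2) (π : Fin 5 → Mat2) :
    ρ ⊕ Fin n → Fin 4 → Mat2 :=
  Sum.elim r fun s v => π (lab (m s) v)

theorem Mt.mkP {j : ρ ⊕ Fin n} {j' : ρ ⊕ Fin n'} {κ : Equiv.Perm (Fin 4)}
    {a : Fin 4} (h : Mt m m' j j' κ a) (r : ρ → Fin 4 → Mat2) (π : Fin 5 → Mat2) {v : Fin 4}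
    (hv : v ≠ a) : mkP m' r π j' (κ v) = mkP m r π j v := by
  cases h with
  | rest r a => rfl
  | shell s i a ha =>
    have e1 : lab (m s) v ≠ m' i := fun h => hv (lab_inj (h.trans ha.symm))
    show π (lab (m' i) (kap (m s) (m' i) v)) = π (lab (m s) v)
    rw [lab_kap_of_ne e1]

theorem Gd.mkP_inv (h : Gd m m' T T' A A' c c') {r : ρ → Fin 4 → Mat2} {π : Fin 5 → Mat2}
    (hP : T'.IsCuspInv A' (mkP m' r π)) : T.IsCuspInv A (mkP m r π) where
  trace_eq j v := by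
    rcases j with r' | s
    · exact hP.trace_eq (Sum.inl r') v
    · obtain ⟨i, hi⟩ := h.part.two' (lab (m s) v)
      have h1 := hP.trace_eq (Sum.inr i) (unlab (m' i) (lab (m s) v))
      have h2 : (π (lab (m' i) (unlab (m' i) (lab (m s) v)))).trace = 0 := h1
      rw [lab_unlab _ _ hi.symm] at h2
      exact h2
  parallel j a v hv := by
    rcases h.part.dart j a with ⟨j', κ, hm⟩ | ⟨s, s', hs, rfl, ha⟩
    · obtain ⟨κ₂, h1, h2⟩ := h.step _ _ _ _ hm
      have h4 : ∀ u, T'.glue j' (κ a) (κ u) = κ₂ (T.glue j a u) := fun u =>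
          congrArg (fun p : Equiv.Perm (Fin 4) => p u) h2
      rw [← hm.mkP r π hv, ← h1.mkP r π (fun e => hv ((T.glue j a).injective e)), ← h4,
        hP.parallel j' (κ a) (κ v) (fun e => hv (κ.injective e)), h.bundle _ _ _ _ hm]
    · obtain ⟨h1, h2, h3⟩ := h.inn s s' hs a ha
      have e1 : lab (m s) v ≠ m s' := fun h => hv (lab_inj (h.trans ha.symm))
      rw [h1, h2, h3]
      show π (lab (m s') (kap (m s) (m s') v)) = 1 * π (lab (m s) v) * (1 : Mat2)⁻¹
      rw [lab_kap_of_ne e1]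
      simp
  ne_zero := by
    obtain ⟨j, v, hj⟩ := hP.ne_zero
    rcases j with r' | i
    · exact ⟨Sum.inl r', v, hj⟩
    · obtain ⟨s, hs⟩ := h.part.two (lab (m' i) v)
      refine ⟨Sum.inr s, unlab (m s) (lab (m' i) v), ?_⟩
      show π (lab (m s) (unlab (m s) (lab (m' i) v))) ≠ 0
      rw [lab_unlab _ _ hs.symm]
      exact hj

theorem Gd.exists_mkP (h : Gd m m' T T' A A' c c') {P : ρ ⊕ Fin n → Fin 4 → Mat2}
    (hP : T.IsCuspInv A P) : ∃ π, P = mkP m (fun r => P (Sum.inl r)) π := by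
  choose pk hpk using h.part.two
  refine ⟨fun l => P (Sum.inr (pk l)) (unlab (m (pk l)) l), ?_⟩
  funext j v
  rcases j with r | s
  · rfl
  · exact (h.inn.chainP h.part.inj (s := s) (s' := pk (lab (m s) v)) (v := v) (hpk _).symm
      hP).symm

/-! ### `2`-chains -/

/-- A function of the labelled edges. -/
def mkX (m : Fin n → Fin 5) (r : ρ → Fin 4 → Fin 4 → Mat2) (b : Fin 5 → Fin 5 → Mat2) :
    ρ ⊕ Fin n → Fin 4 → Fin 4 → Mat2 :=
  Sum.elim r fun s v w => b (lab (m s) v) (lab (m s) w)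

theorem Mt.mkX {j : ρ ⊕ Fin n} {j' : ρ ⊕ Fin n'} {κ : Equiv.Perm (Fin 4)}
    {a : Fin 4} (h : Mt m m' j j' κ a) (r : ρ → Fin 4 → Fin 4 → Mat2) (b : Fin 5 → Fin 5 → Mat2)
    {v w : Fin 4} (hv : v ≠ a) (hw : w ≠ a) :
    mkX m' r b j' (κ v) (κ w) = mkX m r b j v w := by
  cases h with
  | rest r a => rfl
  | shell s i a ha =>
    have e1 : lab (m s) v ≠ m' i := fun h => hv (lab_inj (h.trans ha.symm))
    have e2 : lab (m s) w ≠ m' i := fun h => hw (lab_inj (h.trans ha.symm))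
    show b (lab (m' i) (kap (m s) (m' i) v)) (lab (m' i) (kap (m s) (m' i) w)) =
      b (lab (m s) v) (lab (m s) w)
    rw [lab_kap_of_ne e1, lab_kap_of_ne e2]

theorem Gd.mkX_mem (h : Gd m m' T T' A A' c c') {r : ρ → Fin 4 → Fin 4 → Mat2}
    {b : Fin 5 → Fin 5 → Mat2} (hb : ∀ u w, (b u w).trace = 0) (hb' : ∀ u w, b w u = -b u w)
    (hx : T'.Ch₂ A' (mkX m' r b)) : T.Ch₂ A (mkX m r b) := by
  refine ⟨fun j v w => ?_, fun j v w => ?_, fun j a v w hv hw => ?_⟩
  · rcases j with r' | s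
    · exact hx.1 (Sum.inl r') v w
    · exact hb _ _
  · rcases j with r' | s
    · exact hx.2.1 (Sum.inl r') v w
    · exact hb' _ _
  · rcases h.part.dart j a with ⟨j', κ, hm⟩ | ⟨s, s', hs, rfl, ha⟩
    · obtain ⟨κ₂, h1, h2⟩ := h.step _ _ _ _ hm
      have h4 : ∀ u, T'.glue j' (κ a) (κ u) = κ₂ (T.glue j a u) := fun u =>
          congrArg (fun p : Equiv.Perm (Fin 4) => p u) h2
      rw [← hm.mkX r b hv hw, ← h1.mkX r b (fun e => hv ((T.glue j a).injective e))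
        (fun e => hw ((T.glue j a).injective e)), ← h4, ← h4,
        hx.2.2 j' (κ a) (κ v) (κ w) (fun e => hv (κ.injective e)) (fun e => hw (κ.injective e)),
        h.bundle _ _ _ _ hm]
    · obtain ⟨h1, h2, h3⟩ := h.inn s s' hs a ha
      have e1 : lab (m s) v ≠ m s' := fun h => hv (lab_inj (h.trans ha.symm))
      have e2 : lab (m s) w ≠ m s' := fun h => hw (lab_inj (h.trans ha.symm))
      rw [h1, h2, h3]
      show b (lab (m s') (kap (m s) (m s') v)) (lab (m s') (kap (m s) (m s') w)) =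
        1 * b (lab (m s) v) (lab (m s) w) * (1 : Mat2)⁻¹
      rw [lab_kap_of_ne e1, lab_kap_of_ne e2]
      simp

theorem Part.kap_even (h : Part m m') {j : ρ ⊕ Fin n} {j' : ρ ⊕ Fin n'}
    {κ : Equiv.Perm (Fin 4)} {a : Fin 4} (hm : Mt m m' j j' κ a) : Equiv.Perm.sign κ = 1 := by
  cases hm with
  | rest r a => exact Equiv.Perm.sign_one
  | shell s i a ha => exact h.even s i

theorem Part.del₂_mkX (h : Part m m') {j : ρ ⊕ Fin n} {j' : ρ ⊕ Fin n'}
    {κ : Equiv.Perm (Fin 4)} {a : Fin 4} (hm : Mt m m' j j' κ a)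
    (r : ρ → Fin 4 → Fin 4 → Mat2) (b : Fin 5 → Fin 5 → Mat2) :
    del₂ (mkX m' r b) j' (κ a) = del₂ (mkX m r b) j a := by
  have hκ := h.kap_even hm
  unfold del₂
  symm
  refine Finset.sum_bij' (i := fun σ _ => κ * σ) (j := fun σ _ => κ⁻¹ * σ) ?_ ?_ ?_ ?_ ?_
  · intro σ hσ
    simp only [evenAt, Finset.mem_filter, Finset.mem_univ, true_and] at hσ ⊢
    rw [Equiv.Perm.sign_mul, hκ, hσ.1, Equiv.Perm.mul_apply, hσ.2]
    exact ⟨rfl, rfl⟩
  · intro σ hσ
    simp only [evenAt, Finset.mem_filter, Finset.mem_univ, true_and] at hσ ⊢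
    rw [Equiv.Perm.sign_mul, Equiv.Perm.sign_inv, hκ, hσ.1, Equiv.Perm.mul_apply, hσ.2,
      inv_papp]
    exact ⟨rfl, rfl⟩
  · intro σ _
    exact inv_mul_cancel_left _ _
  · intro σ _
    exact mul_inv_cancel_left _ _
  · intro σ hσ
    simp only [evenAt, Finset.mem_filter, Finset.mem_univ, true_and] at hσ
    have e0 : σ 0 ≠ a := by
      rw [← hσ.2]; exact fun h => absurd (σ.injective h) (by decide)
    have e1 : σ 1 ≠ a := by
      rw [← hσ.2]; exact fun h => absurd (σ.injective h) (by decide)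
    exact (hm.mkX r b e0 e1).symm

end Run7.h360
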