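import Pool.Agent.Run7.h360.Move

/-!
# The faces outside the interior of the bipyramid, and the reduced complex
-/

set_option autoImplicit false

namespace Run7.h360

open Matrix Pool.Agent.H15_OneLoop

variable {ρ : Type} {n n' : ℕ} {m : Fin n → Fin 5} {m' : Fin n' → Fin 5}
  {T : Tri (ρ ⊕ Fin n)} {T' : Tri (ρ ⊕ Fin n')}
  {A : ρ ⊕ Fin n → Fin 4 → Mat2} {A' : ρ ⊕ Fin n' → Fin 4 → Mat2}
  {c : ρ ⊕ Fin n → Fin 4 → Fin 4 → ℤ} {c' : ρ ⊕ Fin n' → Fin 4 → Fin 4 → ℤ}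

/-- The outer darts. -/
abbrev Od (ρ : Type) (n n' : ℕ) : Type := (ρ × Fin 4) ⊕ (Fin n × Fin n')

/-- The outer darts in the first triangulation. -/
def dX (m : Fin n → Fin 5) (m' : Fin n' → Fin 5) : Od ρ n n' → (ρ ⊕ Fin n) × Fin 4
  | Sum.inl p => (Sum.inl p.1, p.2)
  | Sum.inr p => (Sum.inr p.1, unlab (m p.1) (m' p.2))

/-- The outer darts in the second triangulation. -/
def dY (m : Fin n → Fin 5) (m' : Fin n' → Fin 5) : Od ρ n n' → (ρ ⊕ Fin n') × Fin 4
  | Sum.inl p => (Sum.inl p.1, p.2)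
  | Sum.inr p => (Sum.inr p.2, unlab (m' p.2) (m p.1))

/-- The identification of the tetrahedra at an outer dart. -/
def kO (m : Fin n → Fin 5) (m' : Fin n' → Fin 5) : Od ρ n n' → Equiv.Perm (Fin 4)
  | Sum.inl _ => 1
  | Sum.inr p => kap (m p.1) (m' p.2)

/-- The other side of a face. -/
def Tri.fp {J : Type} (T : Tri J) (p : J × Fin 4) : J × Fin 4 :=
  (T.adj p.1 p.2, T.glue p.1 p.2 p.2)

theorem Tri.fp_fp {J : Type} (T : Tri J) (p : J × Fin 4) : T.fp (T.fp p) = p := by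
  obtain ⟨j, a⟩ := p
  show (T.adj (T.adj j a) (T.glue j a a), T.glue (T.adj j a) (T.glue j a a) (T.glue j a a)) =
    (j, a)
  rw [T.adj_adj, T.glue_apply_glue]

theorem Tri.FR_def {J : Type} (T : Tri J) (p q : J × Fin 4) : T.FR p q ↔ q = p ∨ q = T.fp p :=
  Iff.rfl

theorem Part.kO_dX (h : Part m m') (o : Od ρ n n') : kO m m' o (dX m m' o).2 = (dY m m' o).2 := by
  rcases o with p | p
  · rfl
  · show kap (m p.1) (m' p.2) (unlab (m p.1) (m' p.2)) = unlab (m' p.2) (m p.1)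
    have h1 := lab_kap_of_eq (lab_unlab _ _ (h.disj p.1 p.2).symm)
    refine lab_inj (m := m' p.2) ?_
    rw [h1, lab_unlab _ _ (h.disj p.1 p.2)]

theorem Part.mt (h : Part m m') (o : Od ρ n n') :
    Mt m m' (dX m m' o).1 (dY m m' o).1 (kO m m' o) (dX m m' o).2 := by
  rcases o with p | p
  · exact Mt.rest _ _
  · exact Mt.shell _ _ _ (lab_unlab _ _ (h.disj p.1 p.2).symm)

theorem Part.of_mt (h : Part m m') {j : ρ ⊕ Fin n} {j' : ρ ⊕ Fin n'} {κ : Equiv.Perm (Fin 4)}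
    {a : Fin 4} (hm : Mt m m' j j' κ a) : ∃ o, (j, a) = dX m m' o ∧ (j', κ a) = dY m m' o := by
  cases hm with
  | rest r a => exact ⟨Sum.inl (r, a), rfl, rfl⟩
  | shell s i a ha =>
    refine ⟨Sum.inr (s, i), ?_, ?_⟩
    · show (Sum.inr s, a) = (Sum.inr s, unlab (m s) (m' i))
      rw [← ha, unlab_lab]
    · show (Sum.inr i, kap (m s) (m' i) a) = (Sum.inr i, unlab (m' i) (m s))
      congr 1
      refine lab_inj (m := m' i) ?_
      rw [lab_kap_of_eq ha, lab_unlab _ _ (h.disj s i)]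

theorem Part.dX_inj (h : Part m m') : Function.Injective (dX m m' : Od ρ n n' → _) := by
  rintro (⟨r, a⟩ | ⟨s, i⟩) (⟨r', a'⟩ | ⟨s', i'⟩) hab
  · have h1 := congrArg Prod.fst hab
    have h2 := congrArg Prod.snd hab
    have h1 : (Sum.inl r : ρ ⊕ Fin n) = Sum.inl r' := h1
    have h2 : a = a' := h2
    rw [Sum.inl_injective h1, h2]
  · have h1 : (Sum.inl r : ρ ⊕ Fin n) = Sum.inr s' := congrArg Prod.fst hab
    exact absurd h1 Sum.inl_ne_inr
  · have h1 : (Sum.inr s : ρ ⊕ Fin n) = Sum.inl r' := congrArg Prod.fst hab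
    exact absurd h1 Sum.inr_ne_inl
  · have h1 : (Sum.inr s : ρ ⊕ Fin n) = Sum.inr s' := congrArg Prod.fst hab
    have h2 : unlab (m s) (m' i) = unlab (m s') (m' i') := congrArg Prod.snd hab
    obtain rfl := Sum.inr_injective h1
    have h3 := h.inj' (unlab_inj (h.disj s i).symm (h.disj s i').symm h2)
    rw [h3]

theorem Part.dY_eq (o : Od ρ n n') :
    ∃ o' : Od ρ n' n, dY m m' o = dX m' m o' ∧ dX m m' o = dY m' m o' ∧
      o' = Sum.map id Prod.swap o := by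
  rcases o with p | p
  · exact ⟨Sum.inl p, rfl, rfl, rfl⟩
  · exact ⟨Sum.inr (p.2, p.1), rfl, rfl, rfl⟩

theorem Part.dY_inj (h : Part m m') : Function.Injective (dY m m' : Od ρ n n' → _) := by
  intro o o' ho
  obtain ⟨q, hq, -, hq'⟩ := Part.dY_eq (m := m) (m' := m') o
  obtain ⟨q₂, hq₂, -, hq₂'⟩ := Part.dY_eq (m := m) (m' := m') o'
  rw [hq, hq₂] at ho
  have h1 := h.symm.dX_inj ho
  rw [hq', hq₂'] at h1
  have h2 := congrArg (Sum.map id Prod.swap) h1
  simpa using h2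

theorem Gd.exists_fl (h : Gd m m' T T' A A' c c') (o : Od ρ n n') :
    ∃ o', T.fp (dX m m' o) = dX m m' o' ∧ T'.fp (dY m m' o) = dY m m' o' := by
  obtain ⟨κ₂, h1, h2⟩ := h.step _ _ _ _ (h.part.mt o)
  obtain ⟨o', h3, h4⟩ := h.part.of_mt h1
  refine ⟨o', h3, ?_⟩
  rw [← h4]
  have h5 := h.part.kO_dX o
  have h6 := congrArg (fun p : Equiv.Perm (Fin 4) => p (dX m m' o).2) h2
  simp only [Equiv.Perm.mul_apply] at h6
  unfold Tri.fp
  rw [← h6, h5]

/-- The involution of the outer darts, as a relation. -/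
def RX (m : Fin n → Fin 5) (m' : Fin n' → Fin 5) (T : Tri (ρ ⊕ Fin n)) (o o' : Od ρ n n') : Prop :=
  T.fp (dX m m' o) = dX m m' o'

theorem Gd.RX_iff (h : Gd m m' T T' A A' c c') (o o' : Od ρ n n') :
    RX m m' T o o' ↔ T'.fp (dY m m' o) = dY m m' o' := by
  obtain ⟨q, h1, h2⟩ := h.exists_fl o
  constructor
  · intro h3
    have h4 : q = o' := h.part.dX_inj (h1.symm.trans h3)
    rw [h2, h4]
  · intro h3
    have h4 : q = o' := h.part.dY_inj (h2.symm.trans h3)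
    show T.fp (dX m m' o) = _
    rw [h1, h4]

/-- The outer `1`-chains. -/
def Out (m : Fin n → Fin 5) (m' : Fin n' → Fin 5) (T : Tri (ρ ⊕ Fin n))
    (A : ρ ⊕ Fin n → Fin 4 → Mat2) : Submodule ℂ (Od ρ n n' → Mat2) where
  carrier := {z | (∀ o, (z o).trace = 0) ∧ ∀ o o', RX m m' T o o' →
    z o' = -(A (dX m m' o).1 (dX m m' o).2 * z o * (A (dX m m' o).1 (dX m m' o).2)⁻¹)}
  add_mem' := by
    rintro x y ⟨hx, hx'⟩ ⟨hy, hy'⟩
    refine ⟨fun o => by simp [Matrix.trace_add, hx o, hy o], fun o o' h => ?_⟩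
    simp only [Pi.add_apply, hx' o o' h, hy' o o' h, Matrix.mul_add, Matrix.add_mul]
    abel
  zero_mem' := by constructor <;> intros <;> simp
  smul_mem' := by
    rintro c x ⟨hx, hx'⟩
    refine ⟨fun o => by simp [Matrix.trace_smul, hx o], fun o o' h => ?_⟩
    simp only [Pi.smul_apply, hx' o o' h, Matrix.mul_smul, Matrix.smul_mul, smul_neg]

/-- The restriction of `1`-chains. -/
def pX (m : Fin n → Fin 5) (m' : Fin n' → Fin 5) (T : Tri (ρ ⊕ Fin n))
    (A : ρ ⊕ Fin n → Fin 4 → Mat2) : ch₁ T A →ₗ[ℂ] Out m m' T A where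
  toFun y := ⟨fun o => y.1 (dX m m' o).1 (dX m m' o).2, by
    refine ⟨fun o => y.2.1 _ _, fun o o' h => ?_⟩
    have h1 := y.2.2 (dX m m' o).1 (dX m m' o).2
    have h2 : (T.adj (dX m m' o).1 (dX m m' o).2,
      T.glue (dX m m' o).1 (dX m m' o).2 (dX m m' o).2) = dX m m' o' := h
    beta_reduce
    rw [← h2]
    exact h1⟩
  map_add' x y := rfl
  map_smul' c x := rfl

/-- The restriction of `1`-chains of the second triangulation. -/
def pY (h : Gd m m' T T' A A' c c') : ch₁ T' A' →ₗ[ℂ] Out m m' T A where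
  toFun y := ⟨fun o => y.1 (dY m m' o).1 (dY m m' o).2, by
    refine ⟨fun o => y.2.1 _ _, fun o o' ho => ?_⟩
    have h1 := y.2.2 (dY m m' o).1 (dY m m' o).2
    have h2 : (T'.adj (dY m m' o).1 (dY m m' o).2,
      T'.glue (dY m m' o).1 (dY m m' o).2 (dY m m' o).2) = dY m m' o' := (h.RX_iff o o').1 ho
    have h3 := h.bundle _ _ _ _ (h.part.mt o)
    rw [h.part.kO_dX] at h3
    beta_reduce
    rw [← h2, ← h3]
    exact h1⟩
  map_add' x y := rfl
  map_smul' c x := rfl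

/-- The sum over the bipyramid. -/
def p₀ (ρ : Type) (n : ℕ) : ch₀ (ρ ⊕ Fin n) →ₗ[ℂ] ch₀ (ρ ⊕ Unit) where
  toFun u := ⟨Sum.elim (fun r => u.1 (Sum.inl r)) fun _ => ∑ s, u.1 (Sum.inr s), by
    rintro (r | s)
    · exact u.2 _
    · show (∑ s, u.1 (Sum.inr s)).trace = 0
      rw [Matrix.trace_sum]
      exact Finset.sum_eq_zero fun s _ => u.2 _⟩
  map_add' x y := by
    apply Subtype.ext
    funext j
    rcases j with r | s
    · rfl
    · show ∑ s, (x.1 (Sum.inr s) + y.1 (Sum.inr s)) = _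
      rw [Finset.sum_add_distrib]
      rfl
  map_smul' c x := by
    apply Subtype.ext
    funext j
    rcases j with r | s
    · rfl
    · show ∑ s, (c • x.1 (Sum.inr s)) = _
      rw [← Finset.smul_sum]
      rfl

/-- The boundary of outer `1`-chains. -/
def q₁ (m : Fin n → Fin 5) (m' : Fin n' → Fin 5) (T : Tri (ρ ⊕ Fin n))
    (A : ρ ⊕ Fin n → Fin 4 → Mat2) : Out m m' T A →ₗ[ℂ] ch₀ (ρ ⊕ Unit) where
  toFun z := ⟨Sum.elim (fun r => -∑ a, z.1 (Sum.inl (r, a))) fun _ => -∑ p, z.1 (Sum.inr p), by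
    rintro (r | s)
    · show (-∑ a, z.1 (Sum.inl (r, a))).trace = 0
      rw [Matrix.trace_neg, Matrix.trace_sum, Finset.sum_eq_zero fun s _ => z.2.1 _, neg_zero]
    · show (-∑ p, z.1 (Sum.inr p)).trace = 0
      rw [Matrix.trace_neg, Matrix.trace_sum, Finset.sum_eq_zero fun s _ => z.2.1 _, neg_zero]⟩
  map_add' x y := by
    apply Subtype.ext
    funext j
    rcases j with r | s
    · show -∑ a, (x.1 (Sum.inl (r, a)) + y.1 (Sum.inl (r, a))) =
        -∑ a, x.1 (Sum.inl (r, a)) + -∑ a, y.1 (Sum.inl (r, a))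
      rw [Finset.sum_add_distrib, neg_add]
    · show -∑ p, (x.1 (Sum.inr p) + y.1 (Sum.inr p)) =
        -∑ p, x.1 (Sum.inr p) + -∑ p, y.1 (Sum.inr p)
      rw [Finset.sum_add_distrib, neg_add]
  map_smul' c x := by
    apply Subtype.ext
    funext j
    rcases j with r | s
    · show -∑ a, c • x.1 (Sum.inl (r, a)) = c • (-∑ a, x.1 (Sum.inl (r, a)))
      rw [← Finset.smul_sum, smul_neg]
    · show -∑ p, c • x.1 (Sum.inr p) = c • (-∑ p, x.1 (Sum.inr p))
      rw [← Finset.smul_sum, smul_neg]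

/-- Coordinates of outer `1`-chains. -/
def rO {m : Fin n → Fin 5} {m' : Fin n' → Fin 5} {T : Tri (ρ ⊕ Fin n)}
    {A : ρ ⊕ Fin n → Fin 4 → Mat2} {Φ : Type} (oc : Φ → Od ρ n n') :
    Out m m' T A →ₗ[ℂ] (Φ × Fin 3 → ℂ) where
  toFun z := fun p => coord (z.1 (oc p.1)) p.2
  map_add' x y := by
    ext p
    exact congrFun (coord_add' _ _) p.2
  map_smul' c x := by
    ext p
    exact congrFun (coord_smul' _ _) p.2

/-! ### Selections of outer faces -/

/-- The relation of being on the same face. -/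
def OR (m : Fin n → Fin 5) (m' : Fin n' → Fin 5) (T : Tri (ρ ⊕ Fin n)) (o o' : Od ρ n n') : Prop :=
  o' = o ∨ RX m m' T o o'

theorem OR_iff (h : Part m m') (o o' : Od ρ n n') :
    OR m m' T o o' ↔ T.FR (dX m m' o) (dX m m' o') := by
  constructor
  · rintro (rfl | h1)
    · exact Or.inl rfl
    · exact Or.inr h1.symm
  · rintro (h1 | h1)
    · exact Or.inl (h.dX_inj h1)
    · exact Or.inr h1.symm

theorem Gd.OR_iff' (h : Gd m m' T T' A A' c c') (o o' : Od ρ n n') :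
    OR m m' T o o' ↔ T'.FR (dY m m' o) (dY m m' o') := by
  constructor
  · rintro (rfl | h1)
    · exact Or.inl rfl
    · exact Or.inr ((h.RX_iff _ _).1 h1).symm
  · rintro (h1 | h1)
    · exact Or.inl (h.part.dY_inj h1)
    · exact Or.inr ((h.RX_iff _ _).2 h1.symm)

theorem OR_equiv (h : Part m m') : Equivalence (OR m m' T : Od ρ n n' → _ → Prop) := by
  refine ⟨fun o => Or.inl rfl, fun {o o'} h1 => ?_, fun {o o' o''} h1 h2 => ?_⟩
  · exact (OR_iff h _ _).2 (T.FR_equiv.symm ((OR_iff h _ _).1 h1))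
  · exact (OR_iff h _ _).2 (T.FR_equiv.trans ((OR_iff h _ _).1 h1) ((OR_iff h _ _).1 h2))

end Run7.h360
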