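import Pool.Agent.Run7.h360.Three

/-!
# Invariance of the torsion under 2-3 moves
-/

set_option autoImplicit false

namespace Run7.h360

open Matrix Pool.Agent.H15_OneLoop

variable {ρ : Type} {T : Tri (ρ ⊕ Fin 2)} {T' : Tri (ρ ⊕ Fin 3)}
  {A : ρ ⊕ Fin 2 → Fin 4 → Mat2} {A' : ρ ⊕ Fin 3 → Fin 4 → Mat2}
  {c : ρ ⊕ Fin 2 → Fin 4 → Fin 4 → ℤ} {c' : ρ ⊕ Fin 3 → Fin 4 → Fin 4 → ℤ}

/-- The reduction for the division into three tetrahedra. -/
theorem redL [Fintype ρ] [DecidableEq ρ] (h : Gd top low T T' A A' c c')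
    {P : ρ ⊕ Fin 3 → Fin 4 → Mat2} (hP : T'.IsCuspInv A' P)
    (hc : T'.IsCycle c') {Φ E : Type} [Fintype Φ]
    [DecidableEq Φ] [Fintype E] [DecidableEq E] (oc : Φ → Od ρ 2 3)
    (ε : E → (ρ ⊕ Fin 2) × Fin 4 × Fin 4) (t : ℂ) :
    Tor T' A' P hP c' hc id (Sum.elim (dY top low ∘ oc) (iX low orL))
        (Sum.elim (tr top low pkL ∘ ε) (nw ρ)) t ↔
      LT (cc₂ T A ε) (rO oc) (cc₀ (id : ρ ⊕ Unit → ρ ⊕ Unit)) (pX top low T A ∘ₗ D₂ T A)
        (q₁ top low T A) (res h (cTwo hP)) (pY h (cOne hP hc)) t := by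
  have hfl : ∀ o, ∃ o', T'.fp (dX low top o : (ρ ⊕ Fin 3) × Fin 4) = dX low top o' := by
    intro o
    obtain ⟨o', h1, -⟩ := h.symm.exists_fl o
    exact ⟨o', h1⟩
  refine LT.collapse (S₂ := Fin 1 × Fin 3) (S₁ := Fin 3 × Fin 3) (S₀ := Fin 2 × Fin 3)
    (res h) (pY h) (p₀ ρ 3) (cc₂ T' A' (nw ρ)) (cc₁ T' A' (iX low orL)) (s₀ ρ 2)
    (D₁_D₂ T' A') (D₂_cTwo hP) (D₁_cOne hP hc) (rel₂L h) (rel₁L h) (j₂L h)
    (h.j₁ _ (oriL.j₁ h.part.symm h.inn' invL hfl)) (j₀ ρ 2) (kr k₂L) (kr k₁L) (n₂L h) (n₁L h)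
    (kr b₁L) ?_ (kr_sqdet _ _ (by simp) sqL) ?_
    (pm (Equiv.sumProdDistrib E (Fin 1) (Fin 3)).symm)
    (pm (Equiv.sumProdDistrib Φ (Fin 3) (Fin 3)).symm) (G₀ ρ 2)
    (Fintype.card_congr (Equiv.sumProdDistrib E (Fin 1) (Fin 3)).symm)
    (Fintype.card_congr (Equiv.sumProdDistrib Φ (Fin 3) (Fin 3)).symm)
    (Fintype.card_congr (e₀ ρ 2)) (pm_sqdet _) (pm_sqdet _) (G₀_sqdet ρ 2) ?_ ?_ (G₀_mulVec ρ 2) t
  · refine kr_mul_one _ _ ?_
    ext i j
    fin_cases i <;> fin_cases j <;> simp [k₁L, b₁L, Matrix.mul_apply, Fin.sum_univ_three]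
  · simp
  · intro x
    ext i
    rw [pm_mulVec]
    rcases i with ⟨e, l⟩ | i
    · show coord ((res h x).1 (ε e).1 (ε e).2.1 (ε e).2.2) l =
        coord (x.1 (tr top low pkL (ε e)).1 (tr top low pkL (ε e)).2.1
          (tr top low pkL (ε e)).2.2) l
      rw [res_tr]
    · rfl
  · intro x
    ext i
    rw [pm_mulVec]
    rcases i with i | i <;> rfl

/-! ### The cycles -/

theorem res_cTwo (h : Gd top low T T' A A' c c') {r : ρ → Fin 4 → Mat2} {π : Fin 5 → Mat2}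
    (hP : T.IsCuspInv A (mkP top r π)) (hP' : T'.IsCuspInv A' (mkP low r π)) :
    res h (cTwo hP') = cTwo hP := by
  apply Subtype.ext
  funext j v w
  rcases j with r' | s
  · rfl
  · show mkP low r π (Sum.inr (pkL (lab (top s) v) (lab (top s) w)))
      (unlab (low (pkL (lab (top s) v) (lab (top s) w))) (lab (top s) v)) -
      mkP low r π (Sum.inr (pkL (lab (top s) v) (lab (top s) w)))
      (unlab (low (pkL (lab (top s) v) (lab (top s) w))) (lab (top s) w)) =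
      π (lab (top s) v) - π (lab (top s) w)
    obtain ⟨i, hi1, hi2⟩ := exL (lab (top s) v) (lab (top s) w)
    obtain ⟨h1, h2⟩ := pickL.spec _ _ i hi1 hi2
    show π (lab _ (unlab _ (lab (top s) v))) - π (lab _ (unlab _ (lab (top s) w))) = _
    rw [lab_unlab _ _ h1.symm, lab_unlab _ _ h2.symm]

theorem pY_cOne (h : Gd top low T T' A A' c c') {r : ρ → Fin 4 → Mat2} {π : Fin 5 → Mat2}
    (hP : T.IsCuspInv A (mkP top r π)) (hP' : T'.IsCuspInv A' (mkP low r π))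
    (hc : T.IsCycle c) (hc' : T'.IsCycle c') :
    pY h (cOne hP' hc') = pX top low T A (cOne hP hc) := by
  apply Subtype.ext
  funext o
  have hm := h.part.mt o
  show ∑ v, (c' (dY top low o).1 v (dY top low o).2 : ℂ) • mkP low r π (dY top low o).1 v =
    ∑ v, (c (dX top low o).1 v (dX top low o).2 : ℂ) • mkP top r π (dX top low o).1 v
  rw [← Equiv.sum_comp (kO top low o)]
  refine Finset.sum_congr rfl fun v _ => ?_
  rw [← h.part.kO_dX]
  by_cases hv : v = (dX top low o).2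
  · rw [hv, hc'.diag, hc.diag]
    simp
  · rw [h.cyc _ _ _ _ hm v hv, hm.mkP r π hv]

/-- The torsions agree. -/
theorem tor_pachner [Fintype ρ] [DecidableEq ρ] (h : Gd top low T T' A A' c c')
    {r : ρ → Fin 4 → Mat2} {π : Fin 5 → Mat2}
    (hP : T.IsCuspInv A (mkP top r π)) (hP' : T'.IsCuspInv A' (mkP low r π))
    (hc : T.IsCycle c) (hc' : T'.IsCycle c') {Φ E : Type} [Fintype Φ]
    [DecidableEq Φ] [Fintype E] [DecidableEq E] (oc : Φ → Od ρ 2 3)
    (ε : E → (ρ ⊕ Fin 2) × Fin 4 × Fin 4) (t : ℂ) :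
    Tor T A (mkP top r π) hP c hc id (Sum.elim (dX top low ∘ oc) (iX top orT)) ε t ↔
    Tor T' A' (mkP low r π) hP' c' hc' id (Sum.elim (dY top low ∘ oc) (iX low orL))
        (Sum.elim (tr top low pkL ∘ ε) (nw ρ)) t := by
  rw [redT h.inn (fun o => (h.exists_fl o).imp fun _ => And.left) hP hc oc ε t,
    redL h hP' hc' oc ε t, res_cTwo h hP hP', pY_cOne h hP hP' hc hc']

/-! ### The selections -/

theorem faceL (h : Gd top low T T' A A' c c') {Φ : Type} {oc : Φ → Od ρ 2 3}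
    (hoc : Sel (OR top low T) (fun _ => True) oc) :
    T'.IsFaceSel (Sum.elim (dY top low ∘ oc) (iX low orL)) := by
  have h1 : Sel (OR low top T') (fun _ => True) (sw ρ 2 3 ∘ oc) := by
    refine ⟨fun _ => trivial, fun o _ => ?_⟩
    obtain ⟨q, rfl⟩ := (sw ρ 2 3).surjective o
    obtain ⟨F, hF, hu⟩ := hoc.2 q trivial
    have key : ∀ F, OR low top T' ((sw ρ 2 3 ∘ oc) F) (sw ρ 2 3 q) ↔ OR top low T (oc F) q := by
      intro F
      rw [OR_iff h.part.symm, h.OR_iff', ← dX_sw, ← dX_sw]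
      rfl
    exact ⟨F, (key F).2 hF, fun F' hF' => hu F' ((key F').1 hF')⟩
  have h2 := oriL.faceSel h.inn' h.part.symm h1
  have h3 : (dX low top ∘ (sw ρ 2 3 ∘ oc) : Φ → (ρ ⊕ Fin 3) × Fin 4) = dY top low ∘ oc := by
    funext F
    exact dX_sw _ _ _
  rwa [h3] at h2

theorem okT (p : (ρ ⊕ Fin 2) × Fin 4 × Fin 4) : Ok top low p := fun _ _ => exL _ _

theorem notOk : ∀ i v w, v ≠ w → (∃ s, top s ≠ lab (low i) v ∧ top s ≠ lab (low i) w) ∨
    (lab (low i) v = 3 ∧ lab (low i) w = 4) ∨ (lab (low i) v = 4 ∧ lab (low i) w = 3) := by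
  decide

theorem low_lt : ∀ i, (3 : Fin 5) ≠ low i ∧ (4 : Fin 5) ≠ low i := by decide

theorem no_top : ∀ s : Fin 2, top s ≠ 3 → top s ≠ 4 → False := by decide

theorem nw_er (h : Gd top low T T' A A' c c') {p : (ρ ⊕ Fin 3) × Fin 4 × Fin 4}
    (hp : p.2.1 ≠ p.2.2) (hp' : ¬ Ok low top p) (k : Fin 1) : T'.ER (nw ρ k) p := by
  obtain ⟨r | i, v, w⟩ := p
  · exact absurd (fun s hs => absurd hs Sum.inl_ne_inr) hp'
  · rcases notOk i v w hp with h1 | h1 | h1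
    · refine absurd (fun s hs => ?_) hp'
      obtain rfl := Sum.inr_injective hs
      exact h1
    · have h2 := h.inn'.cross h.part.inj' (s := 0) (s' := i) (v := unlab 0 3) (w := unlab 0 4)
        (by
          rw [show low 0 = 0 from rfl, lab_unlab 0 3 (by decide)]
          exact (low_lt i).1)
        (by
          rw [show low 0 = 0 from rfl, lab_unlab 0 4 (by decide)]
          exact (low_lt i).2)
      rw [show low 0 = 0 from rfl, lab_unlab 0 3 (by decide), lab_unlab 0 4 (by decide),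
        ← h1.1, ← h1.2, unlab_lab, unlab_lab, h1.1, h1.2] at h2
      exact h2
    · have h2 := h.inn'.cross h.part.inj' (s := 0) (s' := i) (v := unlab 0 3) (w := unlab 0 4)
        (by
          rw [show low 0 = 0 from rfl, lab_unlab 0 3 (by decide)]
          exact (low_lt i).1)
        (by
          rw [show low 0 = 0 from rfl, lab_unlab 0 4 (by decide)]
          exact (low_lt i).2)
      rw [show low 0 = 0 from rfl, lab_unlab 0 3 (by decide), lab_unlab 0 4 (by decide),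
        ← h1.1, ← h1.2, unlab_lab, unlab_lab, h1.1, h1.2] at h2
      exact h2.trans _ _ _ (Relation.EqvGen.rel _ _ (.flip _ _ _))

theorem nw_not_ok (k : Fin 1) : ¬ Ok low top (nw ρ k) := by
  intro h
  obtain ⟨s, h1, h2⟩ := h 0 rfl
  exact no_top s h1 h2

theorem tr_ok (p : (ρ ⊕ Fin 2) × Fin 4 × Fin 4) : Ok low top (tr top low pkL p) := by
  obtain ⟨r | s, v, w⟩ := p
  · exact fun s hs => absurd hs Sum.inl_ne_inr
  · intro i hi
    have hi : (Sum.inr (pkL (lab (top s) v) (lab (top s) w)) : ρ ⊕ Fin 3) = Sum.inr i := hi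
    obtain rfl := Sum.inr_injective hi
    obtain ⟨i, hi1, hi2⟩ := exL (lab (top s) v) (lab (top s) w)
    obtain ⟨h1, h2⟩ := pickL.spec _ _ i hi1 hi2
    refine ⟨s, ?_, ?_⟩
    · intro e
      exact lab_ne (top s) v (e.trans (lab_unlab _ _ h1.symm)).symm
    · intro e
      exact lab_ne (top s) w (e.trans (lab_unlab _ _ h2.symm)).symm

theorem tr_ne {p : (ρ ⊕ Fin 2) × Fin 4 × Fin 4} (hp : p.2.1 ≠ p.2.2) :
    (tr top low pkL p).2.1 ≠ (tr top low pkL p).2.2 := by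
  obtain ⟨r | s, v, w⟩ := p
  · exact hp
  · obtain ⟨i, hi1, hi2⟩ := exL (lab (top s) v) (lab (top s) w)
    obtain ⟨h1, h2⟩ := pickL.spec _ _ i hi1 hi2
    intro h3
    exact hp (lab_inj (unlab_inj h1.symm h2.symm h3))

theorem tb_ne {p : (ρ ⊕ Fin 3) × Fin 4 × Fin 4} (hp : p.2.1 ≠ p.2.2) (hp' : Ok low top p) :
    (tr low top pkT p).2.1 ≠ (tr low top pkT p).2.2 := by
  obtain ⟨r | s, v, w⟩ := p
  · exact hp
  · obtain ⟨i, hi1, hi2⟩ := hp' s rfl
    obtain ⟨h1, h2⟩ := pickT.spec _ _ i hi1 hi2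
    intro h3
    exact hp (lab_inj (unlab_inj h1.symm h2.symm h3))

theorem edgeL (h : Gd top low T T' A A' c c') {E : Type}
    {ε : E → (ρ ⊕ Fin 2) × Fin 4 × Fin 4} (hε : T.IsEdgeSel ε) :
    T'.IsEdgeSel (Sum.elim (tr top low pkL ∘ ε) (nw ρ)) := by
  refine (T'.edgeSel_iff _).2 (Sel.sum (D := fun p => p.2.1 ≠ p.2.2)
    (D₀ := fun p => p.2.1 ≠ p.2.2) T'.ER_equiv (tr top low pkL) (fun p hp => tr_ne hp)
    (fun p q _ _ => h.er_iff pickL pickT (okT p) (okT q)) ((T.edgeSel_iff _).1 hε) _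
    (fun k => (by decide : (unlab 0 3 : Fin 4) ≠ unlab 0 4)) (fun p hp => ?_)
    fun p k _ hk => ?_)
  · by_cases hp' : Ok low top p
    · exact Or.inl ⟨tr low top pkT p, tb_ne hp hp', h.symm.round pickT pickL hp'⟩
    · exact Or.inr ⟨0, nw_er h hp hp' 0, fun k _ => Subsingleton.elim _ _⟩
  · exact nw_not_ok k ((h.symm.ok_iff hk).2 (tr_ok p))

end Run7.h360
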