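import Pool.Agent.Run7.h360.Alg

/-!
# Elimination of an acyclic part
-/

set_option autoImplicit false

namespace Run7.h360

open Matrix Pool.Agent.H15_OneLoop

variable {ι₂ ι₁ ι₀ S₂ S₁ S₀ : Type} [Fintype ι₂] [DecidableEq ι₂] [Fintype ι₁] [DecidableEq ι₁]
  [Fintype ι₀] [DecidableEq ι₀] [Fintype S₂] [DecidableEq S₂] [Fintype S₁] [DecidableEq S₁]
  [Fintype S₀] [DecidableEq S₀]

/-- The order of the columns. -/
def redCol (ι₂ S₂ ι₀ S₀ : Type) :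
    (ι₂ ⊕ (Unit ⊕ ι₀)) ⊕ (S₂ ⊕ S₀) ≃ (ι₂ ⊕ S₂) ⊕ (Unit ⊕ (ι₀ ⊕ S₀)) where
  toFun := Sum.elim (Sum.elim (fun a => Sum.inl (Sum.inl a)) (Sum.elim
    (fun _ => Sum.inr (Sum.inl ())) (fun k => Sum.inr (Sum.inr (Sum.inl k)))))
    (Sum.elim (fun a => Sum.inl (Sum.inr a)) (fun k => Sum.inr (Sum.inr (Sum.inr k))))
  invFun := Sum.elim (Sum.elim (fun a => Sum.inl (Sum.inl a)) (fun a => Sum.inr (Sum.inl a)))
    (Sum.elim (fun _ => Sum.inl (Sum.inr (Sum.inl ())))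
      (Sum.elim (fun k => Sum.inl (Sum.inr (Sum.inr k))) (fun k => Sum.inr (Sum.inr k))))
  left_inv := by rintro ((a | _ | b) | a | k) <;> rfl
  right_inv := by rintro ((a | a) | _ | b | k) <;> rfl

theorem bigM_reduce (D₂ : Matrix ι₁ ι₂ ℂ) (X : Matrix S₁ ι₂ ℂ) (K₂ : Matrix S₁ S₂ ℂ)
    (lam : ι₂ → ℂ) (η₁ : ι₁ → ℂ) (μ₁ : S₁ → ℂ) (B : Matrix ι₁ ι₀ ℂ) (C : Matrix S₁ ι₀ ℂ)
    (b : Matrix S₁ S₀ ℂ)
    (hc : 1 + Fintype.card ι₁ = Fintype.card ι₂ + (1 + Fintype.card ι₀))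
    (hS : Fintype.card S₁ = Fintype.card S₂ + Fintype.card S₀) :
    sqdet (bigM (fromBlocks D₂ 0 X K₂) (Sum.elim lam 0) (Sum.elim η₁ μ₁) (fromBlocks B 0 C b)) =
      sqdet (bigM D₂ lam η₁ B) * sqdet (fromCols K₂ b) := by
  rw [← sqdet_reindex (bigM (fromBlocks D₂ 0 X K₂) (Sum.elim lam 0) (Sum.elim η₁ μ₁)
    (fromBlocks B 0 C b)) (Equiv.sumAssoc Unit ι₁ S₁) (redCol ι₂ S₂ ι₀ S₀)]
  rw [← sqdet_fromBlocks_zero₁₂ (bigM D₂ lam η₁ B)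
    (fromCols X (fromCols (replicateCol Unit μ₁) C)) (fromCols K₂ b) (card_big hc) (by
      rw [Fintype.card_sum]; exact hS)]
  congr 1
  ext i j
  rcases i with (i | i) | i <;> rcases j with (j | j | j) | j | j <;> rfl

/-- Elimination. -/
theorem MT.reduce {D₂ : Matrix ι₁ ι₂ ℂ} {X : Matrix S₁ ι₂ ℂ} {K₂ : Matrix S₁ S₂ ℂ}
    {D₁ : Matrix ι₀ ι₁ ℂ} {Y : Matrix S₀ ι₁ ℂ} {K₁ : Matrix S₀ S₁ ℂ} {η₂ : ι₂ → ℂ} {μ₂ : S₂ → ℂ}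
    {η₁ : ι₁ → ℂ} {μ₁ : S₁ → ℂ} {t : ℂ}
    (h : MT (fromBlocks D₂ 0 X K₂) (fromBlocks D₁ 0 Y K₁) (Sum.elim η₂ μ₂) (Sum.elim η₁ μ₁) t)
    (b : Matrix S₁ S₀ ℂ) (hb : K₁ * b = 1) (hs : sqdet (fromCols K₂ b) = 1)
    (hS : Fintype.card S₁ = Fintype.card S₂ + Fintype.card S₀) :
    MT D₂ D₁ η₂ η₁ t := by
  obtain ⟨lam, B, hl, hB, ht⟩ := h.ex
  have hc : 1 + Fintype.card ι₁ = Fintype.card ι₂ + (1 + Fintype.card ι₀) := by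
    have := h.card
    simp only [Fintype.card_sum] at this
    omega
  have hdd : D₁ * D₂ = 0 := by
    have h1 := h.dd
    rw [fromBlocks_multiply] at h1
    ext i j
    have h2 := congrFun (congrFun h1 (Sum.inl i)) (Sum.inl j)
    simpa using h2
  have hz₂ : D₂ *ᵥ η₂ = 0 := by
    ext i
    have h1 := congrFun h.z₂ (Sum.inl i)
    simpa [Matrix.mulVec, dotProduct] using h1
  have hz₂' : X *ᵥ η₂ + K₂ *ᵥ μ₂ = 0 := by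
    ext i
    have h1 := congrFun h.z₂ (Sum.inr i)
    simpa [Matrix.mulVec, dotProduct] using h1
  have hz₁ : D₁ *ᵥ η₁ = 0 := by
    ext i
    have h1 := congrFun h.z₁ (Sum.inl i)
    simpa [Matrix.mulVec, dotProduct] using h1
  have hB₁ : D₁ * B.toBlocks₁₁ = 1 := by
    ext i j
    have h1 := congrFun (congrFun hB (Sum.inl i)) (Sum.inl j)
    simpa [Matrix.mul_apply, Matrix.one_apply, toBlocks₁₁] using h1
  -- the form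
  have hη₂ : η₂ ≠ 0 := by
    intro h0
    rw [h0, Matrix.mulVec_zero, zero_add] at hz₂'
    obtain ⟨H, hH, -⟩ := exists_inv (fromCols K₂ b) (by rw [Fintype.card_sum]; exact hS)
      (by rw [hs]; exact one_ne_zero)
    have h1 : fromCols K₂ b *ᵥ (Sum.elim μ₂ 0) = 0 := by
      rw [fromCols_mulVec]
      simp only [Sum.elim_comp_inl, Sum.elim_comp_inr, Matrix.mulVec_zero, add_zero]
      exact hz₂'
    have h2 : (Sum.elim μ₂ 0 : S₂ ⊕ S₀ → ℂ) = 0 := by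
      have h3 : H *ᵥ (fromCols K₂ b *ᵥ (Sum.elim μ₂ 0)) = 0 := by
        rw [h1, Matrix.mulVec_zero]
      rw [Matrix.mulVec_mulVec, hH, Matrix.one_mulVec] at h3
      exact h3
    have h3 : μ₂ = 0 := by
      ext i
      exact congrFun h2 (Sum.inl i)
    rw [h0, h3] at hl
    have : (Sum.elim (0 : ι₂ → ℂ) (0 : S₂ → ℂ)) = 0 := by
      ext i; rcases i with i | i <;> rfl
    rw [this, dotProduct_zero] at hl
    exact zero_ne_one hl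
  obtain ⟨i₀, hi₀⟩ := Function.ne_iff.1 hη₂
  rw [Pi.zero_apply] at hi₀
  set lam' : ι₂ → ℂ := Pi.single i₀ (η₂ i₀)⁻¹ with hlam'
  have hl' : lam' ⬝ᵥ η₂ = 1 := by
    rw [hlam', single_dotProduct, inv_mul_cancel₀ hi₀]
  refine ⟨hc, hdd, hz₂, hz₁, h.ne, lam', B.toBlocks₁₁, hl', hB₁, ?_⟩
  -- a convenient choice for the big complex
  have h1 : (Sum.elim lam' 0 : ι₂ ⊕ S₂ → ℂ) ⬝ᵥ Sum.elim η₂ μ₂ = 1 := by
    rw [sumElim_dotProduct_sumElim, hl', zero_dotProduct, add_zero]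
  have h2 : fromBlocks D₁ 0 Y K₁ * fromBlocks B.toBlocks₁₁ 0 (-(b * (Y * B.toBlocks₁₁))) b = 1 := by
    rw [fromBlocks_multiply, hB₁, Matrix.zero_mul, Matrix.zero_mul, Matrix.mul_zero,
      Matrix.mul_zero, add_zero, zero_add, zero_add, hb, Matrix.mul_neg, ← Matrix.mul_assoc K₁,
      hb, Matrix.one_mul, add_neg_cancel, fromBlocks_one]
  have h3 := h.all _ _ h1 h2
  rw [bigM_reduce _ _ _ _ _ _ _ _ _ hc hS, hs, mul_one] at h3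
  exact h3

/-- Introduction of an acyclic part. -/
theorem MT.expand {D₂ : Matrix ι₁ ι₂ ℂ} {X : Matrix S₁ ι₂ ℂ} {K₂ : Matrix S₁ S₂ ℂ}
    {D₁ : Matrix ι₀ ι₁ ℂ} {Y : Matrix S₀ ι₁ ℂ} {K₁ : Matrix S₀ S₁ ℂ} {η₂ : ι₂ → ℂ} {μ₂ : S₂ → ℂ}
    {η₁ : ι₁ → ℂ} {μ₁ : S₁ → ℂ} {t : ℂ} (h : MT D₂ D₁ η₂ η₁ t)
    (hdd : fromBlocks D₁ 0 Y K₁ * fromBlocks D₂ 0 X K₂ = 0)
    (hz₂ : fromBlocks D₂ 0 X K₂ *ᵥ Sum.elim η₂ μ₂ = 0)
    (hz₁ : fromBlocks D₁ 0 Y K₁ *ᵥ Sum.elim η₁ μ₁ = 0)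
    (b : Matrix S₁ S₀ ℂ) (hb : K₁ * b = 1) (hs : sqdet (fromCols K₂ b) = 1)
    (hS : Fintype.card S₁ = Fintype.card S₂ + Fintype.card S₀) :
    MT (fromBlocks D₂ 0 X K₂) (fromBlocks D₁ 0 Y K₁) (Sum.elim η₂ μ₂) (Sum.elim η₁ μ₁) t := by
  obtain ⟨lam, B, hl, hB, ht⟩ := h.ex
  refine ⟨by simp only [Fintype.card_sum]; have := h.card; omega, hdd, hz₂, hz₁, h.ne,
    Sum.elim lam 0, fromBlocks B 0 (-(b * (Y * B))) b, ?_, ?_, ?_⟩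
  · rw [sumElim_dotProduct_sumElim, hl, zero_dotProduct, add_zero]
  · rw [fromBlocks_multiply, hB, Matrix.zero_mul, Matrix.zero_mul, Matrix.mul_zero,
      Matrix.mul_zero, add_zero, zero_add, zero_add, hb, Matrix.mul_neg, ← Matrix.mul_assoc K₁,
      hb, Matrix.one_mul, add_neg_cancel, fromBlocks_one]
  · rw [bigM_reduce _ _ _ _ _ _ _ _ _ h.card hS, hs, mul_one, ht]

end Run7.h360
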