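import Pool.Agent.Run7.h360.LTiso

/-!
# Selections of faces and edges
-/

set_option autoImplicit false

namespace Run7.h360

open Matrix Pool.Agent.H15_OneLoop

/-- `ε` selects one element of each class of `r` in `D`. -/
def Sel {S E : Type} (r : S → S → Prop) (D : S → Prop) (ε : E → S) : Prop :=
  (∀ e, D (ε e)) ∧ ∀ p, D p → ∃! e, r (ε e) p

theorem Sel.equiv {S S' E E' : Type} {r : S → S → Prop} {r' : S' → S' → Prop}
    {D : S → Prop} {D' : S' → Prop} (hr' : Equivalence r')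
    (pt : S → S') (hpt : Function.Surjective pt) (h : ∀ p q, r p q ↔ r' (pt p) (pt q))
    (hD : ∀ p, D p ↔ D' (pt p)) {ε : E → S} {ε' : E' → S'} (hε : Sel r D ε)
    (hε' : Sel r' D' ε') : ∃ f : E ≃ E', ∀ e, r' (ε' (f e)) (pt (ε e)) := by
  have h1 : ∀ e, ∃ e', r' (ε' e') (pt (ε e)) := fun e => (hε'.2 _ ((hD _).1 (hε.1 e))).exists
  choose f hf using h1
  have hr : ∀ e, r (ε e) (ε e) := fun e => (h _ _).2 (hr'.refl _)
  refine ⟨Equiv.ofBijective f ⟨?_, ?_⟩, hf⟩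
  · intro e₁ e₂ he
    have h2 := hf e₁
    rw [he] at h2
    have h3 : r (ε e₁) (ε e₂) := (h _ _).2 (hr'.trans (hr'.symm h2) (hf e₂))
    exact (hε.2 _ (hε.1 e₂)).unique h3 (hr e₂)
  · intro e'
    obtain ⟨p, hp⟩ := hpt (ε' e')
    have h2 : D p := (hD p).2 (by rw [hp]; exact hε'.1 e')
    obtain ⟨e, he, -⟩ := hε.2 p h2
    refine ⟨e, ?_⟩
    have h3 : r' (pt (ε e)) (ε' e') := by rw [← hp]; exact (h _ _).1 he
    exact (hε'.2 _ (hε'.1 e')).unique (hr'.trans (hf e) h3) (hr'.refl _)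

theorem exists_sel {S : Type} (r : S → S → Prop) (D : S → Prop) (hr : Equivalence r)
    (hf : Finite S) : ∃ (n : ℕ) (ε : Fin n → S), Sel r D ε := by
  classical
  let s : Setoid {p // D p} :=
    { r := fun p q => r p.1 q.1
      iseqv := ⟨fun p => hr.refl _, fun h => hr.symm h, fun h h' => hr.trans h h'⟩ }
  have : Finite {p // D p} := inferInstance
  have : Finite (Quotient s) := Quotient.finite s
  obtain ⟨n, ⟨e⟩⟩ := Finite.exists_equiv_fin (Quotient s)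
  refine ⟨n, fun i => (e.symm i).out.1, fun i => (e.symm i).out.2, fun p hp => ?_⟩
  refine ⟨e (Quotient.mk s ⟨p, hp⟩), ?_, fun i hi => ?_⟩
  · show r ((e.symm (e (Quotient.mk s ⟨p, hp⟩))).out).1 p
    rw [Equiv.symm_apply_apply]
    exact Quotient.mk_out (s := s) ⟨p, hp⟩
  · have h1 : (e.symm i).out ≈ ⟨p, hp⟩ := hi
    have h2 := Quotient.sound h1
    rw [Quotient.out_eq] at h2
    rw [← h2, Equiv.apply_symm_apply]

variable {J : Type}

/-- Two darts on the same face. -/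
def Tri.FR (T : Tri J) (p q : J × Fin 4) : Prop :=
  q = p ∨ q = (T.adj p.1 p.2, T.glue p.1 p.2 p.2)

theorem Tri.FR_symm (T : Tri J) {p q : J × Fin 4} (h : T.FR p q) : T.FR q p := by
  rcases h with rfl | rfl
  · exact Or.inl rfl
  · refine Or.inr ?_
    obtain ⟨j, a⟩ := p
    show (j, a) = (T.adj (T.adj j a) (T.glue j a a), T.glue (T.adj j a) (T.glue j a a)
      (T.glue j a a))
    rw [T.adj_adj, T.glue_apply_glue]

theorem Tri.FR_equiv (T : Tri J) : Equivalence T.FR := by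
  refine ⟨fun p => Or.inl rfl, fun h => T.FR_symm h, ?_⟩
  intro p q r hpq hqr
  rcases hpq with rfl | rfl
  · exact hqr
  · rcases hqr with rfl | rfl
    · exact Or.inr rfl
    · left
      obtain ⟨j, a⟩ := p
      show (T.adj (T.adj j a) (T.glue j a a), T.glue (T.adj j a) (T.glue j a a)
        (T.glue j a a)) = (j, a)
      rw [T.adj_adj, T.glue_apply_glue]

theorem Tri.faceSel_iff (T : Tri J) {Φ : Type} (φ : Φ → J × Fin 4) :
    T.IsFaceSel φ ↔ Sel T.FR (fun _ => True) φ := by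
  have key : ∀ F j a, (φ F = (j, a) ∨ φ F = (T.adj j a, T.glue j a a)) ↔ T.FR (φ F) (j, a) := by
    intro F j a
    exact ⟨fun h => T.FR_symm (p := (j, a)) h, fun h => T.FR_symm h⟩
  constructor
  · intro h
    refine ⟨fun _ => trivial, fun p _ => ?_⟩
    obtain ⟨j, a⟩ := p
    obtain ⟨F, hF, hu⟩ := h j a
    exact ⟨F, (key _ _ _).1 hF, fun F' hF' => hu F' ((key _ _ _).2 hF')⟩
  · intro h j a
    obtain ⟨F, hF, hu⟩ := h.2 (j, a) trivial
    exact ⟨F, (key _ _ _).2 hF, fun F' hF' => hu F' ((key _ _ _).1 hF')⟩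

/-- Two edges of tetrahedra which are identified. -/
def Tri.ER (T : Tri J) (p q : J × Fin 4 × Fin 4) : Prop := Relation.EqvGen T.EdgeStep p q

theorem Tri.ER_equiv (T : Tri J) : Equivalence T.ER := Relation.EqvGen.is_equivalence _

theorem Tri.edgeSel_iff (T : Tri J) {E : Type} (ε : E → J × Fin 4 × Fin 4) :
    T.IsEdgeSel ε ↔ Sel T.ER (fun p => p.2.1 ≠ p.2.2) ε := by
  constructor
  · rintro ⟨h, h'⟩
    exact ⟨h, fun p hp => h' p.1 p.2.1 p.2.2 hp⟩
  · rintro ⟨h, h'⟩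
    exact ⟨h, fun j v w hvw => h' (j, v, w) hvw⟩

theorem conj_comp (Q R Z : Mat2) : R * (Q * Z * Q⁻¹) * R⁻¹ = (R * Q) * Z * (R * Q)⁻¹ := by
  rw [Matrix.mul_inv_rev]
  simp only [Matrix.mul_assoc]

theorem conj_inv_conj (Q Z : Mat2) (hQ : IsUnit Q.det) : Q⁻¹ * (Q * Z * Q⁻¹) * Q = Z := by
  have h1 : Q⁻¹ * Q = 1 := Matrix.nonsing_inv_mul Q hQ
  calc Q⁻¹ * (Q * Z * Q⁻¹) * Q = (Q⁻¹ * Q) * Z * (Q⁻¹ * Q) := by simp only [Matrix.mul_assoc]
    _ = Z := by rw [h1]; simp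

theorem conj_conj_inv (Q Z : Mat2) (hQ : IsUnit Q.det) : Q * (Q⁻¹ * Z * Q) * Q⁻¹ = Z := by
  have h1 : Q * Q⁻¹ = 1 := Matrix.mul_nonsing_inv Q hQ
  calc Q * (Q⁻¹ * Z * Q) * Q⁻¹ = (Q * Q⁻¹) * Z * (Q * Q⁻¹) := by simp only [Matrix.mul_assoc]
    _ = Z := by rw [h1]; simp

/-- A relation between values of chains: they are conjugate up to sign. -/
def Cj {C : Type} (K : C → Prop) (f g : C → Mat2) : Prop :=
  ∃ Q : Mat2, IsUnit Q.det ∧ ∃ s : ℂ, s ^ 2 = 1 ∧ ∀ x, K x → g x = s • (Q * f x * Q⁻¹)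

theorem Cj.refl {C : Type} (K : C → Prop) (f : C → Mat2) : Cj K f f :=
  ⟨1, by simp, 1, by simp, fun x _ => by simp⟩

theorem Cj.symm {C : Type} {K : C → Prop} {f g : C → Mat2} (h : Cj K f g) : Cj K g f := by
  obtain ⟨Q, hQ, s, hs, h⟩ := h
  refine ⟨Q⁻¹, Matrix.isUnit_nonsing_inv_det Q hQ, s, hs, fun x hx => ?_⟩
  rw [h x hx, Matrix.nonsing_inv_nonsing_inv Q hQ, Matrix.mul_smul, Matrix.smul_mul, smul_smul,
    ← pow_two, hs, one_smul, conj_inv_conj Q _ hQ]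

theorem Cj.trans {C : Type} {K : C → Prop} {f g k : C → Mat2} (h : Cj K f g) (h' : Cj K g k) :
    Cj K f k := by
  obtain ⟨Q, hQ, s, hs, h⟩ := h
  obtain ⟨Q', hQ', s', hs', h'⟩ := h'
  refine ⟨Q' * Q, by rw [Matrix.det_mul]; exact hQ'.mul hQ, s' * s, by rw [mul_pow, hs, hs',
    mul_one], fun x hx => ?_⟩
  rw [h' x hx, h x hx, ← conj_comp, Matrix.mul_smul, Matrix.smul_mul, smul_smul]

theorem Tri.edge_conj (T : Tri J) {A : J → Fin 4 → Mat2} (hA : ∀ j a, IsUnit (A j a).det)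
    {p q : J × Fin 4 × Fin 4} (h : T.ER p q) :
    Cj (T.Ch₂ A) (fun x => x p.1 p.2.1 p.2.2) (fun x => x q.1 q.2.1 q.2.2) := by
  induction h with
  | rel p q h =>
    cases h with
    | flip j v w =>
      exact ⟨1, by simp, -1, by norm_num, fun x hx => by
        show x j w v = _
        rw [hx.2.1 j v w]
        simp⟩
    | cross j a v w hv hw =>
      exact ⟨A j a, hA j a, 1, by norm_num, fun x hx => by
        show x (T.adj j a) (T.glue j a v) (T.glue j a w) = _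
        rw [hx.2.2 j a v w hv hw, one_smul]⟩
  | refl p => exact Cj.refl _ _
  | symm p q _ ih => exact ih.symm
  | trans p q r _ _ ih ih' => exact ih.trans ih'

theorem Tri.face_conj (T : Tri J) {A : J → Fin 4 → Mat2} (hA : ∀ j a, IsUnit (A j a).det)
    {p q : J × Fin 4} (h : T.FR p q) :
    Cj (T.Ch₁ A) (fun y => y p.1 p.2) (fun y => y q.1 q.2) := by
  rcases h with rfl | rfl
  · exact Cj.refl _ _
  · exact ⟨A p.1 p.2, hA _ _, -1, by norm_num, fun y hy => by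
      show y (T.adj p.1 p.2) (T.glue p.1 p.2 p.2) = _
      rw [hy.2 p.1 p.2, neg_smul, one_smul]⟩

end Run7.h360
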