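import Pool.Agent.Run7.h360.Defs
import Pool.Agent.H15_OneLoop.Intersection

/-!
# The triangulated manifold with the holonomy of a solution of the gluing equations
-/

set_option autoImplicit false

namespace Run7.h360

open Matrix Pool.Agent.H15_OneLoop

variable {N : ℕ}

/-- The underlying triangulation. -/
def Tri.ofGluing (T : Gluing N) : Tri (Fin N) where
  adj := T.adj
  glue := T.glue
  adj_adj := T.adj_adj
  glue_glue := T.glue_glue
  odd := T.odd
  ne_self := T.ne_self

theorem crossing_cycle {T : Gluing N} (θ : NormalCurve T) :
    (Tri.ofGluing T).IsCycle θ.crossing where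
  diag j a := by
    have := (crossing_isFlow θ ℤ).diag j a
    simpa using this
  anti j v a hv := by
    have h := (crossing_isFlow θ ℤ).anti j v a hv
    simp only [Int.cast_id] at h
    exact h
  div j v := crossing_div θ j v

/-- Nondegenerate shapes (`z j` is not `0` or `1`, of any argument) which solve the edge equations
and the completeness equations of all closed peripheral curves in normal position. (The product of
the shapes around an edge is the one of a small closed curve around an end of the edge.) -/
structure Solution (T : IdealTriangulation N) (z : Fin N → ℂ) : Prop where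
  ne_zero : ∀ j, z j ≠ 0
  ne_one : ∀ j, z j ≠ 1
  edge_prod : ∀ e, ∏ k, ∏ j, par (z j) k ^ T.G k e j = 1
  complete : ∀ γ : NormalCurve T.toGluing, ∏ k, ∏ j, par (z j) k ^ γ.C k j = 1

/-- The ideal triangulation `T`, the flat bundle given by the holonomy `A` of the shapes `z`, and
the peripheral cycle given by the curve `θ`. -/
def ofShapes (T : IdealTriangulation N) (z : Fin N → ℂ) (A : Fin N → Fin 4 → Mat2)
    (hA : IsHolonomy T.toGluing z A) (θ : NormalCurve T.toGluing) : Framed where
  J := Fin N
  tri := Tri.ofGluing T.toGluing
  A := A
  unit j a := (hA j a).1
  c := θ.crossing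
  cycle := crossing_cycle θ

end Run7.h360
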