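import Pool.Agent.Run7.h360.Two

/-!
# The division into three tetrahedra
-/

set_option autoImplicit false

namespace Run7.h360

open Matrix Pool.Agent.H15_OneLoop

section General

variable {ρ : Type} {n n' : ℕ} {m : Fin n → Fin 5} {m' : Fin n' → Fin 5}
  {T : Tri (ρ ⊕ Fin n)} {T' : Tri (ρ ⊕ Fin n')}
  {A : ρ ⊕ Fin n → Fin 4 → Mat2} {A' : ρ ⊕ Fin n' → Fin 4 → Mat2}
  {c : ρ ⊕ Fin n → Fin 4 → Fin 4 → ℤ} {c' : ρ ⊕ Fin n' → Fin 4 → Fin 4 → ℤ}

/-- The exchange of the two divisions. -/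
def sw (ρ : Type) (n n' : ℕ) : Od ρ n n' ≃ Od ρ n' n :=
  Equiv.sumCongr (Equiv.refl _) (Equiv.prodComm _ _)

theorem dX_sw (m : Fin n → Fin 5) (m' : Fin n' → Fin 5) (o : Od ρ n n') :
    dX m' m (sw ρ n n' o) = dY m m' o := by
  rcases o with p | p <;> rfl

theorem Gd.RX_sw (h : Gd m m' T T' A A' c c') (o o' : Od ρ n n') :
    RX m' m T' (sw ρ n n' o) (sw ρ n n' o') ↔ RX m m' T o o' := by
  rw [h.RX_iff]
  unfold RX
  rw [dX_sw, dX_sw]

/-- Outer chains of the second triangulation. -/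
theorem Gd.out_mem (h : Gd m m' T T' A A' c c') (z : Out m m' T A) :
    (fun o => z.1 ((sw ρ n n').symm o)) ∈ Out m' m T' A' := by
  refine ⟨fun o => z.2.1 _, fun o o' ho => ?_⟩
  obtain ⟨q, rfl⟩ := (sw ρ n n').surjective o
  obtain ⟨q', rfl⟩ := (sw ρ n n').surjective o'
  have h1 := z.2.2 q q' ((h.RX_sw q q').1 ho)
  have h3 := h.bundle _ _ _ _ (h.part.mt q)
  rw [h.part.kO_dX] at h3
  beta_reduce
  rw [Equiv.symm_apply_apply, Equiv.symm_apply_apply, dX_sw, h3]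
  exact h1

theorem Gd.j₁ (h : Gd m m' T T' A A' c c') {S : Type} (s₁ : ch₁ T' A' →ₗ[ℂ] (S → ℂ))
    (hj : Function.Bijective fun y : ch₁ T' A' => (pX m' m T' A' y, s₁ y)) :
    Function.Bijective fun y : ch₁ T' A' => (pY h y, s₁ y) := by
  constructor
  · intro y y' hy
    have h1 : pY h y = pY h y' := congrArg Prod.fst hy
    have h2 : s₁ y = s₁ y' := congrArg Prod.snd hy
    refine hj.1 (Prod.ext (Subtype.ext (funext fun o => ?_)) h2)
    obtain ⟨q, rfl⟩ := (sw ρ n n').surjective o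
    have h3 : y.1 (dY m m' q).1 (dY m m' q).2 = y'.1 (dY m m' q).1 (dY m m' q).2 :=
      congrFun (congrArg Subtype.val h1) q
    rw [← dX_sw] at h3
    exact h3
  · rintro ⟨z, w⟩
    obtain ⟨y, hy⟩ := hj.2 (⟨_, h.out_mem z⟩, w)
    have h1 : pX m' m T' A' y = ⟨_, h.out_mem z⟩ := congrArg Prod.fst hy
    have h2 : s₁ y = w := congrArg Prod.snd hy
    refine ⟨y, Prod.ext (Subtype.ext (funext fun o => ?_)) h2⟩
    have h3 : y.1 (dX m' m (sw ρ n n' o)).1 (dX m' m (sw ρ n n' o)).2 =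
      z.1 ((sw ρ n n').symm (sw ρ n n' o)) := congrFun (congrArg Subtype.val h1) (sw ρ n n' o)
    rw [dX_sw, Equiv.symm_apply_apply] at h3
    exact h3

/-- The values of a `2`-chain in terms of the labels. -/
def bb (m : Fin n → Fin 5) (pk : Fin 5 → Fin 5 → Fin n) (x : ρ ⊕ Fin n → Fin 4 → Fin 4 → Mat2)
    (u w : Fin 5) : Mat2 :=
  x (Sum.inr (pk u w)) (unlab (m (pk u w)) u) (unlab (m (pk u w)) w)

theorem bb_trace {x : ρ ⊕ Fin n → Fin 4 → Fin 4 → Mat2} (hx : T.Ch₂ A x)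
    (pk : Fin 5 → Fin 5 → Fin n) (u w : Fin 5) : (bb m pk x u w).trace = 0 :=
  hx.1 _ _ _

theorem bb_anti {x : ρ ⊕ Fin n → Fin 4 → Fin 4 → Mat2} (hx : T.Ch₂ A x)
    {pk : Fin 5 → Fin 5 → Fin n} (hpk : Pick m pk) (u w : Fin 5) :
    bb m pk x w u = -bb m pk x u w := by
  unfold bb
  rw [hpk.comm w u]
  exact hx.2.1 _ _ _

theorem Inn.mkX_bb (hi : Inn m T A) (hm : Function.Injective m)
    {x : ρ ⊕ Fin n → Fin 4 → Fin 4 → Mat2} (hx : T.Ch₂ A x)
    {pk : Fin 5 → Fin 5 → Fin n} (hpk : Pick m pk) :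
    mkX m (fun r => x (Sum.inl r)) (bb m pk x) = x := by
  funext j v w
  rcases j with r | s
  · rfl
  · obtain ⟨h1, h2⟩ := hpk.spec (lab (m s) v) (lab (m s) w) s (lab_ne _ _).symm (lab_ne _ _).symm
    exact hi.chain₂ hm h1.symm h2.symm hx

theorem bb_mkX (r : ρ → Fin 4 → Fin 4 → Mat2) (b : Fin 5 → Fin 5 → Mat2)
    {pk : Fin 5 → Fin 5 → Fin n} (hpk : Pick m pk) {u w : Fin 5} {i : Fin n} (hu : m i ≠ u)
    (hw : m i ≠ w) : bb m pk (mkX m r b) u w = b u w := by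
  obtain ⟨h1, h2⟩ := hpk.spec u w i hu hw
  show b (lab (m (pk u w)) (unlab (m (pk u w)) u)) (lab (m (pk u w)) (unlab (m (pk u w)) w)) = _
  rw [lab_unlab _ _ h1.symm, lab_unlab _ _ h2.symm]

end General

variable {ρ : Type} {T : Tri (ρ ⊕ Fin 2)} {T' : Tri (ρ ⊕ Fin 3)}
  {A : ρ ⊕ Fin 2 → Fin 4 → Mat2} {A' : ρ ⊕ Fin 3 → Fin 4 → Mat2}
  {c : ρ ⊕ Fin 2 → Fin 4 → Fin 4 → ℤ} {c' : ρ ⊕ Fin 3 → Fin 4 → Fin 4 → ℤ}

/-! ### Choices -/

def pkL (u w : Fin 5) : Fin 3 := if u ≠ 0 ∧ w ≠ 0 then 0 else if u ≠ 1 ∧ w ≠ 1 then 1 else 2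

def pkT (u w : Fin 5) : Fin 2 := if u ≠ 3 ∧ w ≠ 3 then 0 else 1

theorem pickL : Pick low pkL := ⟨by decide, by decide⟩

theorem pickT : Pick top pkT := ⟨by decide, by decide⟩

theorem exL : ∀ u w, ∃ i, low i ≠ u ∧ low i ≠ w := by decide

theorem exT : ∀ u w, (u = 3 ∧ w = 4) ∨ (u = 4 ∧ w = 3) ∨ ∃ s, top s ≠ u ∧ top s ≠ w := by decide

theorem topT : ∀ s v w, ¬ (lab (top s) v = 3 ∧ lab (top s) w = 4) ∧
    ¬ (lab (top s) v = 4 ∧ lab (top s) w = 3) := by decide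

/-- The inverse numbering of the labels. -/
def ixL : Fin 5 → Fin 3 ⊕ Fin 2 :=
  ![Sum.inl 0, Sum.inl 1, Sum.inl 2, Sum.inr 0, Sum.inr 1]

theorem invL : Inv low top ixL := by
  constructor
  · intro s; fin_cases s <;> rfl
  · intro s; fin_cases s <;> rfl

/-- The orientation of the inner faces. -/
def orL : Fin 3 → Fin 3 × Fin 3 := ![(0, 1), (1, 2), (2, 0)]

def gL (W : Fin 3 → Mat2) : Fin 3 → Fin 3 → Mat2 :=
  ![![0, W 0, -W 2], ![-W 0, 0, W 1], ![W 2, -W 1, 0]]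

theorem oriL : Ori orL gL where
  ne := by decide
  all := by decide
  uniq := by decide
  anti W s s' := by fin_cases s <;> fin_cases s' <;> simp [gL]
  val W k := by fin_cases k <;> rfl
  tr0 W h s s' := by
    have h0 := h 0
    have h1 := h 1
    have h2 := h 2
    fin_cases s <;> fin_cases s' <;> simp [gL, h0, h1, h2]

/-- The new edge. -/
def nw (ρ : Type) : Fin 1 → (ρ ⊕ Fin 3) × Fin 4 × Fin 4 :=
  fun _ => (Sum.inr 0, unlab 0 3, unlab 0 4)

/-! ### The restriction of `2`-chains -/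

/-- The restriction. -/
def res (h : Gd top low T T' A A' c c') : ch₂ T' A' →ₗ[ℂ] ch₂ T A where
  toFun x := ⟨mkX top (fun r => x.1 (Sum.inl r)) (bb low pkL x.1),
    h.mkX_mem (bb_trace x.2 pkL) (bb_anti x.2 pickL)
      (by rw [h.inn'.mkX_bb h.part.inj' x.2 pickL]; exact x.2)⟩
  map_add' x y := by
    apply Subtype.ext
    funext j v w
    rcases j with r | s <;> rfl
  map_smul' c x := by
    apply Subtype.ext
    funext j v w
    rcases j with r | s <;> rfl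

theorem res_tr (h : Gd top low T T' A A' c c') (x : ch₂ T' A') (p : (ρ ⊕ Fin 2) × Fin 4 × Fin 4) :
    (res h x).1 p.1 p.2.1 p.2.2 = x.1 (tr top low pkL p).1 (tr top low pkL p).2.1
      (tr top low pkL p).2.2 := by
  obtain ⟨r | s, v, w⟩ := p <;> rfl

/-- The values of an extension. -/
def bE (x : ρ ⊕ Fin 2 → Fin 4 → Fin 4 → Mat2) (W : Mat2) (u w : Fin 5) : Mat2 :=
  if u = 3 ∧ w = 4 then W else if u = 4 ∧ w = 3 then -W else bb top pkT x u w

theorem bE_trace {x : ρ ⊕ Fin 2 → Fin 4 → Fin 4 → Mat2} (hx : T.Ch₂ A x) {W : Mat2}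
    (hW : W.trace = 0) (u w : Fin 5) : (bE x W u w).trace = 0 := by
  unfold bE
  split_ifs
  · exact hW
  · rw [Matrix.trace_neg, hW, neg_zero]
  · exact bb_trace hx _ _ _

theorem bE_anti {x : ρ ⊕ Fin 2 → Fin 4 → Fin 4 → Mat2} (hx : T.Ch₂ A x) (W : Mat2)
    (u w : Fin 5) : bE x W w u = -bE x W u w := by
  unfold bE
  by_cases h1 : u = 3 ∧ w = 4
  · obtain ⟨rfl, rfl⟩ := h1
    simp
  · by_cases h2 : u = 4 ∧ w = 3
    · obtain ⟨rfl, rfl⟩ := h2
      simp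
    · rw [if_neg h1, if_neg h2, if_neg (fun e => h2 ⟨e.2, e.1⟩), if_neg (fun e => h1 ⟨e.2, e.1⟩)]
      exact bb_anti hx pickT _ _

theorem mkX_bE (h : Gd top low T T' A A' c c') {x : ρ ⊕ Fin 2 → Fin 4 → Fin 4 → Mat2}
    (hx : T.Ch₂ A x) (W : Mat2) : mkX top (fun r => x (Sum.inl r)) (bE x W) = x := by
  have h1 := h.inn.mkX_bb h.part.inj hx pickT
  conv_rhs => rw [← h1]
  funext j v w
  rcases j with r | s
  · rfl
  · show bE x W (lab (top s) v) (lab (top s) w) = bb top pkT x (lab (top s) v) (lab (top s) w)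
    unfold bE
    rw [if_neg (topT s v w).1, if_neg (topT s v w).2]

theorem j₂L (h : Gd top low T T' A A' c c') :
    Function.Bijective fun x : ch₂ T' A' => (res h x, cc₂ T' A' (nw ρ) x) := by
  constructor
  · show Function.Injective ((res h).prod (cc₂ T' A' (nw ρ)))
    rw [injective_iff_map_eq_zero]
    intro x hx
    have h1 : res h x = 0 := congrArg Prod.fst hx
    have h2 : cc₂ T' A' (nw ρ) x = 0 := congrArg Prod.snd hx
    have h3 : ∀ r, x.1 (Sum.inl r) = 0 := fun r => congrFun (congrArg Subtype.val h1) (Sum.inl r)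
    have h4 : bb low pkL x.1 3 4 = 0 :=
      coord_inj (x.2.1 _ _ _) (Matrix.trace_zero _ _) (funext fun l => by
        have h5 : coord (x.1 (Sum.inr 0) (unlab 0 3) (unlab 0 4)) l = 0 := congrFun h2 (0, l)
        rw [show bb low pkL x.1 3 4 = x.1 (Sum.inr 0) (unlab 0 3) (unlab 0 4) from rfl, h5]
        fin_cases l <;> rfl)
    have h5 : ∀ u w, bb low pkL x.1 u w = 0 := by
      intro u w
      rcases exT u w with ⟨rfl, rfl⟩ | ⟨rfl, rfl⟩ | ⟨s, hs1, hs2⟩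
      · exact h4
      · rw [bb_anti x.2 pickL 3 4, h4, neg_zero]
      · have h6 : (res h x).1 (Sum.inr s) (unlab (top s) u) (unlab (top s) w) = 0 := by
          rw [h1]; rfl
        have h7 : bb low pkL x.1 (lab (top s) (unlab (top s) u))
          (lab (top s) (unlab (top s) w)) = 0 := h6
        rwa [lab_unlab _ _ hs1.symm, lab_unlab _ _ hs2.symm] at h7
    apply Subtype.ext
    rw [← h.inn'.mkX_bb h.part.inj' x.2 pickL]
    funext j v w
    rcases j with r | s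
    · show x.1 (Sum.inl r) v w = 0
      rw [h3]; rfl
    · exact h5 _ _
  · rintro ⟨x, w⟩
    set W := ucoord fun l => w (0, l) with hW
    have e1 := mkX_bE h x.2 W
    have e2 : T'.Ch₂ A' (mkX low (fun r => x.1 (Sum.inl r)) (bE x.1 W)) :=
      h.symm.mkX_mem (bE_trace x.2 (trace_ucoord _)) (bE_anti x.2 W) (by rw [e1]; exact x.2)
    refine ⟨⟨_, e2⟩, Prod.ext (Subtype.ext ?_) (funext fun p => ?_)⟩
    · show mkX top (fun r => x.1 (Sum.inl r))
        (bb low pkL (mkX low (fun r => x.1 (Sum.inl r)) (bE x.1 W))) = x.1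
      have e3 : bb low pkL (mkX low (fun r => x.1 (Sum.inl r)) (bE x.1 W)) = bE x.1 W := by
        funext u w
        obtain ⟨i, hi1, hi2⟩ := exL u w
        exact bb_mkX _ _ pickL hi1 hi2
      rw [e3, e1]
    · obtain ⟨k, l⟩ := p
      fin_cases k
      show coord (bE x.1 W 3 4) l = w (0, l)
      unfold bE
      rw [if_pos ⟨rfl, rfl⟩, hW, coord_ucoord]

theorem rel₂L (h : Gd top low T T' A A' c c') (x : ch₂ T' A') :
    pY h (D₂ T' A' x) = (pX top low T A ∘ₗ D₂ T A) (res h x) := by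
  apply Subtype.ext
  funext o
  have h1 := h.part.del₂_mkX (h.part.mt o) (fun r => x.1 (Sum.inl r)) (bb low pkL x.1)
  rw [h.inn'.mkX_bb h.part.inj' x.2 pickL, h.part.kO_dX] at h1
  exact h1

theorem rel₁L (h : Gd top low T T' A A' c c') (y : ch₁ T' A') :
    p₀ ρ 3 (D₁ T' A' y) = q₁ top low T A (pY h y) := by
  apply Subtype.ext
  funext j
  rcases j with r | s
  · rfl
  · show ∑ s, -∑ a, y.1 (Sum.inr s) a = -∑ p, y.1 (dY top low (Sum.inr p) : (ρ ⊕ Fin 3) × Fin 4).1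
      (dY top low (Sum.inr p) : (ρ ⊕ Fin 3) × Fin 4).2
    have h1 : y.1 (Sum.inr 1) 0 = -y.1 (Sum.inr 0) 0 :=
      h.inn'.val h.part.inj' (s := 0) (s' := 1) (by decide) y.2
    have h2 : y.1 (Sum.inr 2) 1 = -y.1 (Sum.inr 1) 1 :=
      h.inn'.val h.part.inj' (s := 1) (s' := 2) (by decide) y.2
    have h3 : y.1 (Sum.inr 0) 1 = -y.1 (Sum.inr 2) 0 :=
      h.inn'.val h.part.inj' (s := 2) (s' := 0) (by decide) y.2
    rw [Fintype.sum_prod_type]
    show _ = -∑ s, ∑ i, y.1 (Sum.inr i) (unlab (low i) (top s))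
    simp only [Fin.sum_univ_two, Fin.sum_univ_three, Fin.sum_univ_four]
    show _ = -(y.1 (Sum.inr 0) 2 + y.1 (Sum.inr 1) 3 + y.1 (Sum.inr 2) 2 +
      (y.1 (Sum.inr 0) 3 + y.1 (Sum.inr 1) 2 + y.1 (Sum.inr 2) 3))
    rw [h1, h2, h3]
    abel

/-- The matrix of the boundary of the inner faces. -/
def k₁L : Matrix (Fin 2) (Fin 3) ℂ := !![-1, 0, 1; 1, -1, 0]

def b₁L : Matrix (Fin 3) (Fin 2) ℂ := !![0, 0; 0, -1; 1, 0]

def k₂L : Matrix (Fin 3) (Fin 1) ℂ := !![1; 1; 1]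

theorem n₁L (h : Gd top low T T' A A' c c') (y : ch₁ T' A') (hy : pY h y = 0) :
    s₀ ρ 2 (D₁ T' A' y) = kr k₁L *ᵥ cc₁ T' A' (iX low orL) y := by
  ext ⟨k, l⟩
  rw [kr_mulVec]
  have h0 : ∀ o, y.1 (dY top low o : (ρ ⊕ Fin 3) × Fin 4).1
      (dY top low o : (ρ ⊕ Fin 3) × Fin 4).2 = 0 :=
    fun o => congrFun (congrArg Subtype.val hy) o
  have e1 : y.1 (Sum.inr 0) 2 = 0 := h0 (Sum.inr (0, 0))
  have e2 : y.1 (Sum.inr 0) 3 = 0 := h0 (Sum.inr (1, 0))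
  have e3 : y.1 (Sum.inr 1) 3 = 0 := h0 (Sum.inr (0, 1))
  have e4 : y.1 (Sum.inr 1) 2 = 0 := h0 (Sum.inr (1, 1))
  have h1 : y.1 (Sum.inr 1) 0 = -y.1 (Sum.inr 0) 0 :=
      h.inn'.val h.part.inj' (s := 0) (s' := 1) (by decide) y.2
  have h3 : y.1 (Sum.inr 0) 1 = -y.1 (Sum.inr 2) 0 :=
      h.inn'.val h.part.inj' (s := 2) (s' := 0) (by decide) y.2
  have e5 : ∑ j, k₁L k j * coord (y.1 (iX low orL j : (ρ ⊕ Fin 3) × Fin 4).1
      (iX low orL j : (ρ ⊕ Fin 3) × Fin 4).2) l =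
      k₁L k 0 * coord (y.1 (Sum.inr 0) 0) l + k₁L k 1 * coord (y.1 (Sum.inr 1) 1) l +
        k₁L k 2 * coord (y.1 (Sum.inr 2) 0) l := by
    rw [Fin.sum_univ_three]
    rfl
  refine Eq.trans ?_ e5.symm
  fin_cases k
  · show coord (-∑ a, y.1 (Sum.inr 0) a) l = -1 * coord (y.1 (Sum.inr 0) 0) l +
      0 * coord (y.1 (Sum.inr 1) 1) l + 1 * coord (y.1 (Sum.inr 2) 0) l
    rw [Fin.sum_univ_four, e1, e2, add_zero, add_zero, h3, coord_neg, coord_add', Pi.add_apply,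
      coord_neg]
    ring
  · show coord (-∑ a, y.1 (Sum.inr 1) a) l = 1 * coord (y.1 (Sum.inr 0) 0) l +
      -1 * coord (y.1 (Sum.inr 1) 1) l + 0 * coord (y.1 (Sum.inr 2) 0) l
    rw [Fin.sum_univ_four, e3, e4, add_zero, add_zero, h1, coord_neg, coord_add', Pi.add_apply,
      coord_neg]
    ring

theorem n₂L (h : Gd top low T T' A A' c c') (x : ch₂ T' A') (hx : res h x = 0) :
    cc₁ T' A' (iX low orL) (D₂ T' A' x) = kr k₂L *ᵥ cc₂ T' A' (nw ρ) x := by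
  ext ⟨k, l⟩
  rw [kr_mulVec]
  have h5 : ∀ u w s, top s ≠ u → top s ≠ w → bb low pkL x.1 u w = 0 := by
    intro u w s hs1 hs2
    have h6 : (res h x).1 (Sum.inr s) (unlab (top s) u) (unlab (top s) w) = 0 := by
      rw [hx]; rfl
    have h7 : bb low pkL x.1 (lab (top s) (unlab (top s) u))
      (lab (top s) (unlab (top s) w)) = 0 := h6
    rwa [lab_unlab _ _ hs1.symm, lab_unlab _ _ hs2.symm] at h7
  have h6 : ∀ i v w, x.1 (Sum.inr i) v w = bb low pkL x.1 (lab (low i) v) (lab (low i) w) := by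
    intro i v w
    conv_lhs => rw [← h.inn'.mkX_bb h.part.inj' x.2 pickL]
    rfl
  have h7 : ∀ i a, del₂ x.1 (Sum.inr i) a = ∑ v : Fin 4, if v = a then 0 else
      bb low pkL x.1 (lab (low i) v) (lab (low i) (lft v a)) := by
    intro i a
    unfold del₂
    rw [sum_evenAt (fun v w => x.1 (Sum.inr i) v w)]
    refine Finset.sum_congr rfl fun v _ => ?_
    rw [h6]
  have e1 : bb low pkL x.1 2 3 = 0 := h5 2 3 1 (by decide) (by decide)
  have e2 : bb low pkL x.1 4 2 = 0 := h5 4 2 0 (by decide) (by decide)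
  have e3 : bb low pkL x.1 0 3 = 0 := h5 0 3 1 (by decide) (by decide)
  have e4 : bb low pkL x.1 4 0 = 0 := h5 4 0 0 (by decide) (by decide)
  have e5 : bb low pkL x.1 1 3 = 0 := h5 1 3 1 (by decide) (by decide)
  have e6 : bb low pkL x.1 4 1 = 0 := h5 4 1 0 (by decide) (by decide)
  have key : ∀ k, del₂ x.1 (iX low orL k : (ρ ⊕ Fin 3) × Fin 4).1
      (iX low orL k : (ρ ⊕ Fin 3) × Fin 4).2 = bb low pkL x.1 3 4 := by
    intro k
    fin_cases k
    · show del₂ x.1 (Sum.inr 0) 0 = _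
      rw [h7, Fin.sum_univ_four]
      show 0 + bb low pkL x.1 2 3 + bb low pkL x.1 3 4 + bb low pkL x.1 4 2 = _
      rw [e1, e2]
      simp
    · show del₂ x.1 (Sum.inr 1) 1 = _
      rw [h7, Fin.sum_univ_four]
      show bb low pkL x.1 0 3 + 0 + bb low pkL x.1 4 0 + bb low pkL x.1 3 4 = _
      rw [e3, e4]
      simp
    · show del₂ x.1 (Sum.inr 2) 0 = _
      rw [h7, Fin.sum_univ_four]
      show 0 + bb low pkL x.1 1 3 + bb low pkL x.1 3 4 + bb low pkL x.1 4 1 = _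
      rw [e5, e6]
      simp
  show coord (del₂ x.1 (iX low orL k : (ρ ⊕ Fin 3) × Fin 4).1
    (iX low orL k : (ρ ⊕ Fin 3) × Fin 4).2) l = ∑ j : Fin 1, k₂L k j * coord (bb low pkL x.1 3 4) l
  rw [key, Fin.sum_univ_one]
  have h8 : k₂L k 0 = 1 := by fin_cases k <;> rfl
  rw [h8, one_mul]

theorem sqL : sqdet (fromCols k₂L b₁L) = 1 := by
  rw [sqdet_eq' _ (finSumFinEquiv : Fin 1 ⊕ Fin 2 ≃ Fin 3).symm, Matrix.det_fin_three]
  have e0 : (finSumFinEquiv : Fin 1 ⊕ Fin 2 ≃ Fin 3).symm 0 = Sum.inl 0 := by decide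
  have e1 : (finSumFinEquiv : Fin 1 ⊕ Fin 2 ≃ Fin 3).symm 1 = Sum.inr 0 := by decide
  have e2 : (finSumFinEquiv : Fin 1 ⊕ Fin 2 ≃ Fin 3).symm 2 = Sum.inr 1 := by decide
  simp [e0, e1, e2, k₂L, b₁L, fromCols]

end Run7.h360
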