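import Pool.Agent.Run7.h360.Inner

/-!
# The division into two tetrahedra
-/

set_option autoImplicit false

namespace Run7.h360

open Matrix Pool.Agent.H15_OneLoop

variable {ρ : Type} {T : Tri (ρ ⊕ Fin 2)} {A : ρ ⊕ Fin 2 → Fin 4 → Mat2}

/-- The inverse numbering of the labels. -/
def ixT : Fin 5 → Fin 2 ⊕ Fin 3 :=
  ![Sum.inr 0, Sum.inr 1, Sum.inr 2, Sum.inl 0, Sum.inl 1]

theorem invT : Inv top low ixT := by
  constructor
  · intro s; fin_cases s <;> rfl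
  · intro s; fin_cases s <;> rfl

/-- The orientation of the inner face. -/
def orT : Fin 1 → Fin 2 × Fin 2 := fun _ => (0, 1)

def gT (W : Fin 1 → Mat2) : Fin 2 → Fin 2 → Mat2 := ![![0, W 0], ![-W 0, 0]]

theorem oriT : Ori orT gT where
  ne := by decide
  all := by decide
  uniq := by decide
  anti W s s' := by fin_cases s <;> fin_cases s' <;> simp [gT]
  val W k := by fin_cases k; rfl
  tr0 W h s s' := by
    have := h 0
    fin_cases s <;> fin_cases s' <;> simp [gT, this]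

theorem rel₁T (hi : Inn top T A) (y : ch₁ T A) :
    p₀ ρ 2 (D₁ T A y) = q₁ top low T A (pX top low T A y) := by
  apply Subtype.ext
  funext j
  rcases j with r | s
  · rfl
  · show ∑ s, -∑ a, y.1 (Sum.inr s) a = -∑ p, y.1 (dX top low (Sum.inr p) : (ρ ⊕ Fin 2) × Fin 4).1
      (dX top low (Sum.inr p) : (ρ ⊕ Fin 2) × Fin 4).2
    have h1 : y.1 (Sum.inr 1) 2 = -y.1 (Sum.inr 0) 3 :=
      hi.val part_top_low.inj (s := 0) (s' := 1) (by decide) y.2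
    rw [Fintype.sum_prod_type]
    show _ = -∑ s, ∑ i, y.1 (Sum.inr s) (unlab (top s) (low i))
    simp only [Fin.sum_univ_two, Fin.sum_univ_three, Fin.sum_univ_four]
    show _ = -(y.1 (Sum.inr 0) 0 + y.1 (Sum.inr 0) 1 + y.1 (Sum.inr 0) 2 +
      (y.1 (Sum.inr 1) 0 + y.1 (Sum.inr 1) 1 + y.1 (Sum.inr 1) 3))
    rw [h1]
    abel

theorem n₁T (y : ch₁ T A) (hy : pX top low T A y = 0) :
    s₀ ρ 1 (D₁ T A y) = kr (!![-1] : Matrix (Fin 1) (Fin 1) ℂ) *ᵥ cc₁ T A (iX top orT) y := by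
  ext ⟨k, l⟩
  rw [kr_mulVec]
  have h0 : ∀ o, y.1 (dX top low o : (ρ ⊕ Fin 2) × Fin 4).1
      (dX top low o : (ρ ⊕ Fin 2) × Fin 4).2 = 0 :=
    fun o => congrFun (congrArg Subtype.val hy) o
  have h1 : y.1 (Sum.inr 0) 0 = 0 := h0 (Sum.inr (0, 0))
  have h2 : y.1 (Sum.inr 0) 1 = 0 := h0 (Sum.inr (0, 1))
  have h3 : y.1 (Sum.inr 0) 2 = 0 := h0 (Sum.inr (0, 2))
  fin_cases k
  show coord (-∑ a, y.1 (Sum.inr 0) a) l = ∑ j, (!![-1] : Matrix (Fin 1) (Fin 1) ℂ) 0 j *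
    coord (y.1 (iX top orT j).1 (iX top orT j).2) l
  rw [Fin.sum_univ_four, h1, h2, h3, zero_add, zero_add, zero_add, coord_neg]
  show -coord (y.1 (Sum.inr 0) 3) l = _
  rw [Fin.sum_univ_one]
  show -coord (y.1 (Sum.inr 0) 3) l = -1 * coord (y.1 (Sum.inr 0) 3) l
  ring

theorem sqT : sqdet (fromCols (0 : Matrix (Fin 1) (Fin 0) ℂ) (!![-1] : Matrix (Fin 1) (Fin 1) ℂ)) =
    1 := by
  rw [sqdet_eq _ ((Equiv.emptySum (Fin 0) (Fin 1)) : Fin 0 ⊕ Fin 1 ≃ Fin 1)]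
  have h : ((fromCols (0 : Matrix (Fin 1) (Fin 0) ℂ) (!![-1] : Matrix (Fin 1) (Fin 1) ℂ)).submatrix
      ((Equiv.emptySum (Fin 0) (Fin 1)) : Fin 0 ⊕ Fin 1 ≃ Fin 1) id) = -1 := by
    ext i j
    rcases i with i | i
    · exact i.elim0
    · rcases j with j | j
      · exact j.elim0
      · fin_cases i; fin_cases j
        simp [fromCols]
  rw [h, Matrix.det_neg, Matrix.det_one]
  simp

/-- The reduction for the division into two tetrahedra. -/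
theorem redT [Fintype ρ] [DecidableEq ρ] (hi : Inn top T A)
    (hfl : ∀ o, ∃ o', T.fp (dX top low o : (ρ ⊕ Fin 2) × Fin 4) = dX top low o')
    {P : ρ ⊕ Fin 2 → Fin 4 → Mat2} (hP : T.IsCuspInv A P)
    {c : ρ ⊕ Fin 2 → Fin 4 → Fin 4 → ℤ} (hc : T.IsCycle c) {Φ E : Type} [Fintype Φ]
    [DecidableEq Φ] [Fintype E] [DecidableEq E] (oc : Φ → Od ρ 2 3)
    (ε : E → (ρ ⊕ Fin 2) × Fin 4 × Fin 4) (t : ℂ) :
    Tor T A P hP c hc id (Sum.elim (dX top low ∘ oc) (iX top orT)) ε t ↔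
      LT (cc₂ T A ε) (rO oc) (cc₀ (id : ρ ⊕ Unit → ρ ⊕ Unit)) (pX top low T A ∘ₗ D₂ T A)
        (q₁ top low T A) (cTwo hP) (pX top low T A (cOne hP hc)) t := by
  refine LT.collapse (S₂ := Fin 0 × Fin 3) (S₁ := Fin 1 × Fin 3) (S₀ := Fin 1 × Fin 3)
    LinearMap.id (pX top low T A) (p₀ ρ 2) 0 (cc₁ T A (iX top orT)) (s₀ ρ 1)
    (D₁_D₂ T A) (D₂_cTwo hP) (D₁_cOne hP hc) (fun _ => rfl) (rel₁T hi) ?_
    (oriT.j₁ part_top_low hi invT hfl) (j₀ ρ 1) 0 (kr !![-1]) ?_ n₁T (kr !![-1]) ?_ ?_ ?_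
    (pm (Equiv.sumEmpty (E × Fin 3) (Fin 0 × Fin 3)))
    (pm (Equiv.sumProdDistrib Φ (Fin 1) (Fin 3)).symm) (G₀ ρ 1)
    (Fintype.card_congr (Equiv.sumEmpty (E × Fin 3) (Fin 0 × Fin 3)))
    (Fintype.card_congr (Equiv.sumProdDistrib Φ (Fin 1) (Fin 3)).symm)
    (Fintype.card_congr (e₀ ρ 1)) (pm_sqdet _) (pm_sqdet _) (G₀_sqdet ρ 1) ?_ ?_ (G₀_mulVec ρ 1) t
  · constructor
    · intro x y h
      exact congrArg Prod.fst h
    · rintro ⟨x, w⟩
      exact ⟨x, Prod.ext rfl (funext fun p => p.1.elim0)⟩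
  · intro x hx
    have hx : x = 0 := hx
    rw [hx, map_zero, map_zero, map_zero, Matrix.mulVec_zero]
  · exact kr_mul_one _ _ (by ext i j; fin_cases i; fin_cases j; simp)
  · have h := kr_sqdet (0 : Matrix (Fin 1) (Fin 0) ℂ) (!![-1] : Matrix (Fin 1) (Fin 1) ℂ)
      (by simp) sqT
    have h0 : kr (0 : Matrix (Fin 1) (Fin 0) ℂ) = 0 := by
      ext i j
      exact j.1.elim0
    rwa [h0] at h
  · simp
  · intro x
    ext i
    rw [pm_mulVec]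
    rcases i with i | i
    · rfl
    · exact i.1.elim0
  · intro x
    ext i
    rw [pm_mulVec]
    rcases i with i | i <;> rfl

end Run7.h360
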